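import Pool.Agent.GWFix.Fixed

/-!
The rank of quantum multiplication by the point class (helper53, MP_8133f0_ag).
-/

open scoped BigOperators Nat

namespace Pool.Agent.GWFix

variable {κ ι ο : Type} [Fintype κ] [Fintype ι] [DecidableEq ι] [Fintype ο] [DecidableEq ο]

theorem two_le_rank {K : Type*} [Field K] {J : Type*} [Fintype J] [DecidableEq J]
    (M : Matrix J J K) (r r' c c' : J) (h : M r c * M r' c' - M r c' * M r' c ≠ 0) :
    2 ≤ M.rank := by
  let P : Matrix (Fin 2) J K := Matrix.of fun i a => if a = ![r, r'] i then 1 else 0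
  let Q : Matrix J (Fin 2) K := Matrix.of fun b j => if b = ![c, c'] j then 1 else 0
  have h1 : P * M * Q = !![M r c, M r c'; M r' c, M r' c'] := by
    ext i j
    rw [Matrix.mul_apply]
    simp only [Matrix.mul_apply, P, Q, Matrix.of_apply, ite_mul, one_mul, zero_mul, mul_ite,
      mul_one, mul_zero, Finset.sum_ite_eq', Finset.mem_univ, if_true]
    fin_cases i <;> fin_cases j <;> simp
  have h2 : (P * M * Q).rank = 2 := by
    rw [h1]
    have h3 : IsUnit (!![M r c, M r c'; M r' c, M r' c'] : Matrix (Fin 2) (Fin 2) K) := by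
      rw [Matrix.isUnit_iff_isUnit_det, Matrix.det_fin_two_of]
      exact isUnit_iff_ne_zero.mpr h
    rw [Matrix.rank_of_isUnit _ h3, Fintype.card_fin]
  calc 2 = (P * M * Q).rank := h2.symm
    _ ≤ (P * M).rank := Matrix.rank_mul_le_left _ _
    _ ≤ M.rank := Matrix.rank_mul_le_right _ _

namespace GenusZero

variable (X : GenusZero κ ι ο)

/-- Kollár's theorem for uniruled varieties: a nonzero invariant with one point insertion. -/
def OnePoint : Prop :=
  ∃ β : κ →₀ ℕ, β ≠ 0 ∧ ∃ m : ι →₀ ℕ, X.inv β (Finsupp.single X.pt 1 + m) ≠ 0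

theorem exists_insertion (β : κ →₀ ℕ) (hβ : β ≠ 0) (m : ι →₀ ℕ) (h : X.inv β m ≠ 0) :
    ∃ i, X.inv β (m + Finsupp.single i 1) ≠ 0 := by
  obtain ⟨k, hk⟩ : ∃ k, β k ≠ 0 := by
    by_contra hc
    push Not at hc
    exact hβ (Finsupp.ext hc)
  have hd := X.divisor k β m hβ
  have hne : (β k : ℚ) * X.inv β m ≠ 0 := mul_ne_zero (by exact_mod_cast hk) h
  rw [← hd] at hne
  obtain ⟨a, _, ha⟩ := Finset.exists_ne_zero_of_sum_ne_zero hne
  exact ⟨a, right_ne_zero_of_mul ha⟩

theorem sum_mulMat_g (a b c : ι) :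
    ∑ f, X.mulMat a b f * cst (X.g f c) = X.phi a b c := by
  simp only [mulMat_apply]
  calc ∑ f, (∑ d, X.phi a b d * cst (X.ginv d f)) * cst (X.g f c)
      = ∑ d, X.phi a b d * ∑ f, cst (X.ginv d f) * cst (X.g f c) := by
        simp only [Finset.sum_mul, Finset.mul_sum]
        rw [Finset.sum_comm]
        exact Finset.sum_congr rfl fun e _ => Finset.sum_congr rfl fun f _ => by ring
    _ = ∑ d, X.phi a b d * cst ((1 : Matrix ι ι ℚ) d c) := by
        refine Finset.sum_congr rfl fun e _ => ?_
        rw [← X.ginv_mul_g, Matrix.mul_apply]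
        simp [cst, map_sum, map_mul]
    _ = X.phi a b c := by
        rw [Finset.sum_eq_single c]
        · simp [cst]
        · intro e _ he
          rw [Matrix.one_apply_ne he]; simp [cst]
        · intro h; exact absurd (Finset.mem_univ _) h

/-- If some invariant with one point insertion is nonzero then quantum multiplication by the
point class has rank at least two at the generic point of the family. -/
theorem two_le_rank_pt (h : X.OnePoint) {K : Type*} [Field K] (ev : X.Coeff →+* K)
    (hev : Function.Injective ev) : 2 ≤ ((X.L (X.e X.pt)).map ev).rank := by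
  by_contra hlt
  have h0 : ∀ b f, f ≠ X.pt → X.mulMat X.pt b f = 0 := by
    intro b f hf
    by_contra hne
    apply hlt
    apply two_le_rank _ X.one b X.pt f
    simp only [Matrix.map_apply, L_e]
    rw [X.mulMat_comm X.pt X.one X.pt, X.mulMat_one, if_pos rfl, X.mulMat_comm X.pt X.one f,
      X.mulMat_one, if_neg (Ne.symm hf), map_one, map_zero, one_mul, zero_mul, sub_zero]
    intro hz
    exact hne (hev (by rw [hz, map_zero]))
  have h1 : ∀ b c, X.phi X.pt b c = X.mulMat X.pt b X.pt * cst (X.g X.pt c) := by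
    intro b c
    rw [← sum_mulMat_g, Finset.sum_eq_single X.pt]
    · intro f _ hf
      rw [h0 b f hf, zero_mul]
    · intro h; exact absurd (Finset.mem_univ _) h
  have h2 : ∀ b, X.mulMat X.pt b X.pt * cst (X.g X.pt X.one) = cst (X.g X.pt b) := by
    intro b
    rw [← h1, X.phi_comm23, X.phi_comm12]
    exact X.unit X.pt b
  have hg : X.g X.pt X.one ≠ 0 := by
    intro hz
    have h3 : ∀ b, X.g X.pt b = 0 := by
      intro b
      have h4 := h2 b
      rw [hz] at h4
      have h5 : (cst (X.g X.pt b) : X.Coeff) = 0 := by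
        rw [← h4]; simp [cst]
      have h6 := congrArg (MvPowerSeries.constantCoeff (σ := κ ⊕ ι) (R := ℚ)) h5
      simpa [cst] using h6
    have h7 := congrFun (congrFun X.g_mul_ginv X.pt) X.pt
    rw [Matrix.mul_apply, Matrix.one_apply_eq] at h7
    rw [Finset.sum_eq_zero (fun b _ => by rw [h3 b, zero_mul])] at h7
    exact zero_ne_one h7
  have h3 : ∀ b c, X.phi X.pt b c = cst (X.g X.pt b * (X.g X.pt X.one)⁻¹ * X.g X.pt c) := by
    intro b c
    rw [h1]
    have h4 : X.mulMat X.pt b X.pt = cst (X.g X.pt b * (X.g X.pt X.one)⁻¹) := by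
      have h5 : (cst (X.g X.pt X.one) : X.Coeff) * cst ((X.g X.pt X.one)⁻¹) = 1 := by
        rw [cst, cst, ← map_mul, mul_inv_cancel₀ hg, map_one]
      calc X.mulMat X.pt b X.pt = X.mulMat X.pt b X.pt *
            (cst (X.g X.pt X.one) * cst ((X.g X.pt X.one)⁻¹)) := by rw [h5, mul_one]
        _ = cst (X.g X.pt b) * cst ((X.g X.pt X.one)⁻¹) := by rw [← mul_assoc, h2]
        _ = _ := by rw [cst, cst, cst, map_mul]
    rw [h4, cst, cst, cst, ← map_mul]
  obtain ⟨β, hβ, m, hm⟩ := h
  obtain ⟨i, hi⟩ := X.exists_insertion β hβ _ hm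
  obtain ⟨j, hj⟩ := X.exists_insertion β hβ _ hi
  apply hj
  have h4 := congrArg (fun s : X.Coeff => s (Finsupp.sumElim β m)) (h3 i j)
  simp only [phi, series, Finsupp.comapDomain_inl_sumElim, Finsupp.comapDomain_inr_sumElim] at h4
  have h5 : three X.pt i j + m =
      Finsupp.single X.pt 1 + m + Finsupp.single i 1 + Finsupp.single j 1 := by
    rw [three]; abel
  rw [h5] at h4
  have h6 : (Finsupp.sumElim β m : (κ ⊕ ι) →₀ ℕ) ≠ 0 := by
    intro hz
    apply hβ
    have := congrArg (fun n : (κ ⊕ ι) →₀ ℕ =>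
      n.comapDomain Sum.inl Sum.inl_injective.injOn) hz
    simpa using this
  have h7 : ∀ x : ℚ, (cst x : MvPowerSeries (κ ⊕ ι) ℚ) (Finsupp.sumElim β m) = 0 := by
    classical
    intro x
    have h8 : (cst x : MvPowerSeries (κ ⊕ ι) ℚ) (Finsupp.sumElim β m) =
      MvPowerSeries.coeff (R := ℚ) (Finsupp.sumElim β m) (MvPowerSeries.C x) := rfl
    rw [h8, MvPowerSeries.coeff_C, if_neg h6]
  rw [h7] at h4
  have h9 : (∏ i : ι, (((Finsupp.sumElim β m) (Sum.inr i))! : ℚ)) ≠ 0 :=
    Finset.prod_ne_zero_iff.mpr fun i _ => by exact_mod_cast Nat.factorial_ne_zero _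
  exact (div_eq_zero_iff.mp h4).resolve_right h9

/-- The formal version of Q1 holds when the even cohomology has dimension at most three. -/
theorem twoPoint_of_card_le (h : X.OnePoint) (hc : Fintype.card ι ≤ 3) : X.TwoPoint := by
  by_contra hn
  have hdom : IsDomain X.Coeff := NoZeroDivisors.to_isDomain _
  have h1 := X.two_le_rank_pt h (algebraMap X.Coeff (FractionRing X.Coeff))
    (IsFractionRing.injective _ _)
  have h2 := X.rank_le hn (algebraMap X.Coeff (FractionRing X.Coeff))
  omega

end GenusZero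
end Pool.Agent.GWFix
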