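import Pool.Agent.GWFix.Swept2
import Pool.Agent.GWFix.Rank

/-!
Chains of three curves (helper53, MP_8133f0_ag).
-/

open scoped BigOperators Nat

namespace Pool.Agent.GWFix

variable {ι ο : Type} [Fintype ι] [DecidableEq ι] [Fintype ο] [DecidableEq ο]

namespace GenusZero

variable (X : GenusZero (Fin 1) ι ο)

/-- The invariant `⟨v, w, a⟩_β` for classes `v, w, a`. -/
noncomputable def tri (β : ℕ) (v w a : ι → ℚ) : ℚ :=
  ∑ i, ∑ k, ∑ e, v i * w k * a e * X.N β i k e

/-- The sum of `⟨v_β₁(γ), v_β₂(δ), a⟩_β₃` over all `β₁ + β₂ + β₃ = B`: chains consisting of a curve of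
degree `β₁` through a point, a curve of degree `β₂` through another point and a curve of degree
`β₃` which meets both and `a`. -/
noncomputable def chainSum (γ δ : ι) (B : ℕ) (a : ι → ℚ) : ℚ :=
  ∑ p ∈ Finset.HasAntidiagonal.antidiagonal B,
    ∑ r ∈ Finset.HasAntidiagonal.antidiagonal p.1,
      X.tri p.2 (X.swept γ r.1) (X.swept δ r.2) a

theorem integral_triple (x y z : X.QH) :
    X.integral (x * y * z) = ∑ i, ∑ k, ∑ e, x i * y k * z e * X.phi i k e := by
  rw [integral_mul]
  have h2 : ∀ f, (x * y) f = ∑ i, ∑ k, x i * y k * X.mulMat i k f := fun f => rfl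
  simp only [h2]
  calc ∑ f, ∑ e, (∑ i, ∑ k, x i * y k * X.mulMat i k f) * z e * cst (X.g f e)
      = ∑ e, ∑ i, ∑ k, x i * y k * z e * ∑ f, X.mulMat i k f * cst (X.g f e) := by
        rw [Finset.sum_comm]
        refine Finset.sum_congr rfl fun e _ => ?_
        simp only [Finset.sum_mul, Finset.mul_sum]
        rw [Finset.sum_comm]
        refine Finset.sum_congr rfl fun i _ => ?_
        rw [Finset.sum_comm]
        exact Finset.sum_congr rfl fun k _ => Finset.sum_congr rfl fun f _ => by ring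
    _ = ∑ e, ∑ i, ∑ k, x i * y k * z e * X.phi i k e := by
        simp only [X.sum_mulMat_g]
    _ = ∑ i, ∑ k, ∑ e, x i * y k * z e * X.phi i k e := by
        rw [Finset.sum_comm]
        exact Finset.sum_congr rfl fun i _ => Finset.sum_comm

theorem cf_triple (B : ℕ) (x y : X.QH) (z : X.QH) (a : ι → ℚ)
    (hz : ∀ e, z e = cst (a e)) :
    cf B (X.integral (x * y * z)) = ∑ p ∈ Finset.HasAntidiagonal.antidiagonal B,
      ∑ r ∈ Finset.HasAntidiagonal.antidiagonal p.1,
        X.tri p.2 (fun f => cf r.1 (x f)) (fun f => cf r.2 (y f)) a := by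
  have h1 : ∀ i k e, cf B (x i * y k * z e * X.phi i k e) =
      ∑ p ∈ Finset.HasAntidiagonal.antidiagonal B,
        ∑ r ∈ Finset.HasAntidiagonal.antidiagonal p.1,
          cf r.1 (x i) * cf r.2 (y k) * a e * X.N p.2 i k e := by
    intro i k e
    rw [cf_mul]
    refine Finset.sum_congr rfl fun p _ => ?_
    rw [hz e, cf_mul_cst, cf_mul, X.cf_phi, Finset.sum_mul, Finset.sum_mul]
  rw [integral_triple, cf_sum]
  simp only [cf_sum, h1, tri]
  -- reorder the sums
  calc ∑ i, ∑ k, ∑ e, ∑ p ∈ Finset.HasAntidiagonal.antidiagonal B,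
          ∑ r ∈ Finset.HasAntidiagonal.antidiagonal p.1,
            cf r.1 (x i) * cf r.2 (y k) * a e * X.N p.2 i k e
      = ∑ i, ∑ k, ∑ p ∈ Finset.HasAntidiagonal.antidiagonal B,
          ∑ r ∈ Finset.HasAntidiagonal.antidiagonal p.1, ∑ e,
            cf r.1 (x i) * cf r.2 (y k) * a e * X.N p.2 i k e := by
        refine Finset.sum_congr rfl fun i _ => Finset.sum_congr rfl fun k _ => ?_
        rw [Finset.sum_comm]
        exact Finset.sum_congr rfl fun p _ => Finset.sum_comm
    _ = ∑ i, ∑ p ∈ Finset.HasAntidiagonal.antidiagonal B,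
          ∑ r ∈ Finset.HasAntidiagonal.antidiagonal p.1, ∑ k, ∑ e,
            cf r.1 (x i) * cf r.2 (y k) * a e * X.N p.2 i k e := by
        refine Finset.sum_congr rfl fun i _ => ?_
        rw [Finset.sum_comm]
        exact Finset.sum_congr rfl fun p _ => Finset.sum_comm
    _ = _ := by
        rw [Finset.sum_comm]
        exact Finset.sum_congr rfl fun p _ => Finset.sum_comm

theorem cf_pt_mul (β : ℕ) (γ f : ι) : cf β ((X.e X.pt * X.e γ) f) = X.swept γ β f :=
  congrFun (X.lead_sweep γ β) f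

theorem low_add {b : ℕ} {z w : X.QH} (hz : X.Low b z) (hw : X.Low b w) : X.Low b (z + w) := by
  intro β hβ f
  have : (z + w) f = z f + w f := rfl
  rw [this, cf_add, hz β hβ f, hw β hβ f, add_zero]

theorem low_mul {b : ℕ} {z : X.QH} (hz : X.Low b z) (y : X.QH) : X.Low b (z * y) := by
  intro β hβ f
  have h1 : (z * y) f = ∑ a, ∑ c, z a * y c * X.mulMat a c f := rfl
  rw [h1, cf_sum]
  refine Finset.sum_eq_zero fun a _ => ?_
  rw [cf_sum]
  refine Finset.sum_eq_zero fun c _ => ?_
  rw [mul_assoc, cf_mul]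
  refine Finset.sum_eq_zero fun p hp => ?_
  have := Finset.HasAntidiagonal.mem_antidiagonal.mp hp
  rw [hz p.1 (by omega) a, zero_mul]

/-- If no invariant `⟨pt, pt, e⟩_β`, `0 < β ≤ B`, is nonzero, then all chain sums up to degree `B`
vanish. -/
theorem twoPoint_of_chainSum (γ δ : ι) (B : ℕ) (a : ι → ℚ) (h : X.chainSum γ δ B a ≠ 0) :
    X.TwoPointLe B := by
  by_contra hno
  apply h
  have h4 : X.Low (B + 1) (X.e X.pt * X.e X.pt) := by
    apply low_sweep
    intro β hβ ε
    rcases Nat.eq_zero_or_pos β with rfl | hpos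
    · have h5 : three X.pt X.pt ε = Finsupp.single X.pt 2 + Finsupp.single ε 1 := by
        have : (Finsupp.single X.pt 2 : ι →₀ ℕ) =
            Finsupp.single X.pt 1 + Finsupp.single X.pt 1 := by
          rw [← Finsupp.single_add]
        rw [this, three]
      unfold N
      rw [h5, Finsupp.single_zero, X.constant]
    · by_contra hne
      exact hno ⟨β, hpos, by omega, ε, hne⟩
  let z : X.QH := fun e => cst (a e)
  have h5 : cf B (X.integral (X.e X.pt * X.e γ * (X.e X.pt * X.e δ) * z)) = 0 := by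
    apply cf_integral_low
    have h6 : X.e X.pt * X.e γ * (X.e X.pt * X.e δ) * z =
        X.e X.pt * X.e X.pt * (X.e γ * X.e δ * z) := by ring
    rw [h6]
    exact X.low_mul h4 _
  rw [X.cf_triple B _ _ z a (fun _ => rfl)] at h5
  unfold chainSum
  rw [← h5]
  refine Finset.sum_congr rfl fun p _ => Finset.sum_congr rfl fun r _ => ?_
  have h7 : (fun f => cf r.1 ((X.e X.pt * X.e γ) f)) = X.swept γ r.1 :=
    funext fun f => X.cf_pt_mul r.1 γ f
  have h8 : (fun f => cf r.2 ((X.e X.pt * X.e δ) f)) = X.swept δ r.2 :=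
    funext fun f => X.cf_pt_mul r.2 δ f
  rw [h7, h8]

theorem tri_smul (β : ℕ) (x y : ℚ) (v w a : ι → ℚ) :
    X.tri β (x • v) (y • w) a = x * y * X.tri β v w a := by
  unfold tri
  simp only [Pi.smul_apply, smul_eq_mul, Finset.mul_sum]
  exact Finset.sum_congr rfl fun i _ => Finset.sum_congr rfl fun k _ =>
    Finset.sum_congr rfl fun e _ => by ring

theorem tri_zero_left (β : ℕ) (w a : ι → ℚ) : X.tri β 0 w a = 0 := by
  unfold tri
  exact Finset.sum_eq_zero fun i _ => Finset.sum_eq_zero fun k _ =>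
    Finset.sum_eq_zero fun e _ => by simp

theorem tri_zero_right (β : ℕ) (v a : ι → ℚ) : X.tri β v 0 a = 0 := by
  unfold tri
  exact Finset.sum_eq_zero fun i _ => Finset.sum_eq_zero fun k _ =>
    Finset.sum_eq_zero fun e _ => by simp

/-- `∫ D^i ∪ D^j ∪ D^k = ∫ D^(i+j+k)`. -/
theorem tri_power (D : ι) (i j k : ℕ) :
    X.tri 0 (X.power D i) (X.power D j) (X.power D k) =
      X.pair (X.power D (i + j + k)) (Pi.single X.one 1) := by
  have hl : ∀ m, X.lead 0 (X.e D ^ m) = X.power D m := by
    intro m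
    have h0 : X.Low 0 (1 : X.QH) := fun β hβ => absurd hβ (Nat.not_lt_zero β)
    have h1 := (X.low_list h0 (List.replicate m D)).2
    rw [List.map_replicate, List.prod_replicate, one_mul, List.map_replicate,
      List.prod_replicate] at h1
    rw [h1]
    unfold power
    congr 1
    funext f
    unfold lead
    have h2 : (1 : X.QH) f = if f = X.one then 1 else 0 := by
      rw [one_def]
      unfold e
      by_cases hf : f = X.one
      · rw [hf, Pi.single_eq_same, if_pos rfl]
      · rw [Pi.single_eq_of_ne hf, if_neg hf]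
    rw [h2]
    by_cases hf : f = X.one
    · rw [if_pos hf, hf, Pi.single_eq_same]
      unfold cf
      rw [Finsupp.single_zero]
      simp
    · rw [if_neg hf, Pi.single_eq_of_ne hf]
      unfold cf
      rw [map_zero]
  have h0 : ∀ s t : MvPowerSeries (Fin 1 ⊕ ι) ℚ, cf 0 (s * t) = cf 0 s * cf 0 t := by
    intro s t
    rw [cf_mul]
    simp
  have h1 : ∀ x y z : X.QH, cf 0 (X.integral (x * y * z)) =
      X.tri 0 (X.lead 0 x) (X.lead 0 y) (X.lead 0 z) := by
    intro x y z
    rw [integral_triple]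
    simp only [cf_sum, h0, X.cf_phi]
    rfl
  have h2 : ∀ x y : X.QH, cf 0 (X.integral (x * y)) = X.pair (X.lead 0 x) (X.lead 0 y) := by
    intro x y
    rw [integral_mul]
    simp only [cf_sum, h0]
    unfold pair lead
    refine Finset.sum_congr rfl fun a _ => Finset.sum_congr rfl fun c _ => ?_
    congr 1
    unfold cf cst
    rw [Finsupp.single_zero]
    simp
  have h3 := h1 (X.e D ^ i) (X.e D ^ j) (X.e D ^ k)
  rw [hl, hl, hl] at h3
  rw [← h3, ← pow_add, ← pow_add]
  have h4 := h2 (X.e D ^ (i + j + k)) 1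
  rw [mul_one, hl] at h4
  rw [h4]
  congr 1
  have h5 := hl 0
  rw [pow_zero] at h5
  rw [h5]
  unfold power
  rw [pow_zero, Matrix.vecMul_one]

end GenusZero
end Pool.Agent.GWFix
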