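import Pool.Agent.GWFix.Chain

/-!
Chains of three curves, graded case (helper53, MP_8133f0_ag).
-/

open scoped BigOperators Nat

namespace Pool.Agent.GWFix

variable {ι ο : Type} [Fintype ι] [DecidableEq ι] [Fintype ο] [DecidableEq ο]

namespace GenusZero

variable (X : GenusZero (Fin 1) ι ο)

theorem power_degree (D : ι) (n : ℕ) (dg : ι → ℕ) (hone : dg X.one = 0)
    (hg : ∀ a a', X.ginv a a' ≠ 0 → dg a + dg a' = n)
    (hcup : ∀ a e, X.N 0 D a e ≠ 0 → 1 + dg a + dg e = n) (j : ℕ) :
    ∀ f, X.power D j f ≠ 0 → dg f = j := by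
  induction j with
  | zero =>
    intro f hf
    unfold power at hf
    rw [pow_zero, Matrix.vecMul_one] at hf
    by_cases h : f = X.one
    · rw [h, hone]
    · exact absurd (Pi.single_eq_of_ne h _) hf
  | succ j ih =>
    intro f hf
    unfold power at hf
    rw [pow_succ, ← Matrix.vecMul_vecMul] at hf
    simp only [Matrix.vecMul, dotProduct] at hf
    obtain ⟨a, _, ha⟩ := Finset.exists_ne_zero_of_sum_ne_zero hf
    have h1 : dg a = j := ih a (left_ne_zero_of_mul ha)
    have h2 := right_ne_zero_of_mul ha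
    unfold cup at h2
    rw [Matrix.of_apply] at h2
    obtain ⟨e, _, he⟩ := Finset.exists_ne_zero_of_sum_ne_zero h2
    have h3 := hcup a e (left_ne_zero_of_mul he)
    have h4 := hg e f (right_ne_zero_of_mul he)
    omega

theorem pair_power (D : ι) (j k : ℕ) :
    X.pair (X.power D j) (X.power D k) = X.pair (X.power D (j + k)) (Pi.single X.one 1) := by
  have h1 : X.power D (j + k) = Matrix.vecMul (X.power D j) (X.cup D ^ k) := by
    unfold power
    rw [Matrix.vecMul_vecMul, ← pow_add]
  rw [h1, pair_cup_pow]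
  rfl

/-- A class in a one dimensional graded piece is a multiple of a power of `D`. -/
theorem eq_smul_power (D : ι) (n : ℕ) (dg : ι → ℕ) (hone : dg X.one = 0)
    (hg : ∀ a a', X.ginv a a' ≠ 0 → dg a + dg a' = n)
    (hcup : ∀ a e, X.N 0 D a e ≠ 0 → 1 + dg a + dg e = n)
    (htop : X.pair (X.power D n) (Pi.single X.one 1) ≠ 0) (j : ℕ) (hj : j ≤ n)
    (huniq : ∀ i i', dg i = j → dg i' = j → i = i') (v : ι → ℚ)
    (hv : ∀ f, v f ≠ 0 → dg f = j) :
    v = (X.pair v (X.power D (n - j)) / X.pair (X.power D n) (Pi.single X.one 1)) •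
      X.power D j := by
  have hd : X.pair (X.power D j) (X.power D (n - j)) =
      X.pair (X.power D n) (Pi.single X.one 1) := by
    rw [pair_power, Nat.add_sub_cancel' hj]
  obtain ⟨i0, hi0⟩ : ∃ i, X.power D j i ≠ 0 := by
    by_contra hcon
    push Not at hcon
    apply htop
    rw [← hd]
    have : X.power D j = 0 := funext hcon
    unfold pair
    exact Finset.sum_eq_zero fun a _ => Finset.sum_eq_zero fun e _ => by
      rw [this]; simp
  have hd0 := X.power_degree D n dg hone hg hcup j i0 hi0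
  have hprop : v = (v i0 / X.power D j i0) • X.power D j := by
    funext f
    rw [Pi.smul_apply, smul_eq_mul]
    by_cases hf : dg f = j
    · have : f = i0 := huniq f i0 hf hd0
      subst this
      rw [div_mul_cancel₀ _ hi0]
    · have h3 : v f = 0 := by
        by_contra h; exact hf (hv f h)
      have h4 : X.power D j f = 0 := by
        by_contra h; exact hf (X.power_degree D n dg hone hg hcup j f h)
      rw [h3, h4, mul_zero]
  have h5 : X.pair v (X.power D (n - j)) =
      v i0 / X.power D j i0 * X.pair (X.power D n) (Pi.single X.one 1) := by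
    conv_lhs => rw [hprop]
    have h6 := X.pair_smul (v i0 / X.power D j i0) 1 (X.power D j) (X.power D (n - j))
    rw [one_smul, mul_one] at h6
    rw [h6, hd]
  rw [h5, mul_div_cancel_right₀ _ htop]
  exact hprop

theorem pair_swept' (γ : ι) (b : ℕ) (w : ι → ℚ) :
    X.pair (X.swept γ b) w = ∑ ε, w ε * X.N b X.pt γ ε := by
  unfold pair
  rw [Finset.sum_comm]
  refine Finset.sum_congr rfl fun ε _ => ?_
  rw [← X.swept_g γ b ε, Finset.mul_sum]
  exact Finset.sum_congr rfl fun f _ => by ring

theorem dg_le (n : ℕ) (dg : ι → ℕ) (hg : ∀ a a', X.ginv a a' ≠ 0 → dg a + dg a' = n) (e : ι) :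
    dg e ≤ n := by
  by_contra hc
  have h0 : ∀ a', X.ginv e a' = 0 := by
    intro a'
    by_contra h
    have := hg e a' h
    omega
  have h1 : X.ginv * X.g = 1 := mul_eq_one_comm.mp X.g_mul_ginv
  have h2 : (X.ginv * X.g) e e = 1 := by rw [h1, Matrix.one_apply_eq]
  rw [Matrix.mul_apply] at h2
  rw [Finset.sum_eq_zero fun a' _ => by rw [h0 a', zero_mul]] at h2
  exact zero_ne_one h2

theorem swept_zero (D : ι) (β : ℕ) (h : ∀ ε, X.N β X.pt D ε = 0) : X.swept D β = 0 := by
  funext f
  unfold swept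
  exact Finset.sum_eq_zero fun e _ => by rw [h e, zero_mul]

theorem swept_degree (D : ι) (n m c : ℕ) (dg : ι → ℕ)
    (hg : ∀ a a', X.ginv a a' ≠ 0 → dg a + dg a' = n)
    (hdim : ∀ e, X.N m X.pt D e ≠ 0 → n + 1 + dg e = n + c) :
    ∀ f, X.swept D m f ≠ 0 → dg f = n + 1 - c := by
  intro f hf
  unfold swept at hf
  obtain ⟨e, _, he⟩ := Finset.exists_ne_zero_of_sum_ne_zero hf
  have h3 := hdim e (left_ne_zero_of_mul he)
  have h4 := hg e f (right_ne_zero_of_mul he)
  omega

/-- Three chains for varieties with one class in the degrees of the first two swept out classes. -/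
theorem twoPoint_of_three (D : ι) (b n c : ℕ) (dg : ι → ℕ) (hb : 0 < b)
    (hone : dg X.one = 0)
    (hg : ∀ a a', X.ginv a a' ≠ 0 → dg a + dg a' = n)
    (hcup : ∀ a e, X.N 0 D a e ≠ 0 → 1 + dg a + dg e = n)
    (hdim1 : ∀ e, X.N b X.pt D e ≠ 0 → n + 1 + dg e = n + c)
    (hdim2 : ∀ e, X.N (2 * b) X.pt D e ≠ 0 → n + 1 + dg e = n + 2 * c)
    (htop : X.pair (X.power D n) (Pi.single X.one 1) ≠ 0)
    (hc : n + 2 ≤ 3 * c) (hc2 : 2 * c ≤ n + 1)
    (hj1 : ∀ i i', dg i = n + 1 - c → dg i' = n + 1 - c → i = i')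
    (hj2 : ∀ i i', dg i = n + 1 - 2 * c → dg i' = n + 1 - 2 * c → i = i')
    (hmin : ∀ β < 2 * b, β ≠ b → ∀ ε, X.N β X.pt D ε = 0)
    (hA : ∑ ε, X.power D (c - 1) ε * X.N b X.pt D ε ≠ 0)
    (hne : (∑ ε, X.power D (c - 1) ε * X.N b X.pt D ε) *
        X.tri b (X.power D (n + 1 - c)) (X.power D (n + 1 - c)) (X.power D (3 * c - n - 2)) +
      2 * X.pair (X.power D n) (Pi.single X.one 1) *
        (∑ ε, X.power D (2 * c - 1) ε * X.N (2 * b) X.pt D ε) ≠ 0) :
    X.TwoPointLe (3 * b) := by
  have hc1 : 1 ≤ c := by omega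
  set d := X.pair (X.power D n) (Pi.single X.one 1) with hddef
  set A1 := ∑ ε, X.power D (c - 1) ε * X.N b X.pt D ε with hA1
  set A2 := ∑ ε, X.power D (2 * c - 1) ε * X.N (2 * b) X.pt D ε with hA2
  set S := X.tri b (X.power D (n + 1 - c)) (X.power D (n + 1 - c)) (X.power D (3 * c - n - 2))
    with hS
  have hv1 : X.swept D b = (A1 / d) • X.power D (n + 1 - c) := by
    have h := X.eq_smul_power D n dg hone hg hcup htop (n + 1 - c) (by omega) hj1
      (X.swept D b) (X.swept_degree D n b c dg hg hdim1)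
    rw [pair_swept', show n - (n + 1 - c) = c - 1 by omega] at h
    exact h
  have hv2 : X.swept D (2 * b) = (A2 / d) • X.power D (n + 1 - 2 * c) := by
    have h := X.eq_smul_power D n dg hone hg hcup htop (n + 1 - 2 * c) (by omega) hj2
      (X.swept D (2 * b)) (X.swept_degree D n (2 * b) (2 * c) dg hg hdim2)
    rw [pair_swept', show n - (n + 1 - 2 * c) = 2 * c - 1 by omega] at h
    exact h
  have hz : ∀ β < 2 * b, β ≠ b → X.swept D β = 0 := fun β hβ hne =>
    X.swept_zero D β (hmin β hβ hne)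
  set a := X.power D (3 * c - n - 2) with ha
  apply X.twoPoint_of_chainSum D D (3 * b) a
  have htri : ∀ p2 r1 r2 : ℕ, (r1 < 2 * b ∧ r1 ≠ b) ∨ (r2 < 2 * b ∧ r2 ≠ b) →
      X.tri p2 (X.swept D r1) (X.swept D r2) a = 0 := by
    rintro p2 r1 r2 (⟨h1, h2⟩ | ⟨h1, h2⟩)
    · rw [hz r1 h1 h2, tri_zero_left]
    · rw [hz r2 h1 h2, tri_zero_right]
  have hG1 : ∑ r ∈ Finset.HasAntidiagonal.antidiagonal (2 * b),
      X.tri b (X.swept D r.1) (X.swept D r.2) a =
      X.tri b (X.swept D b) (X.swept D b) a := by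
    rw [Finset.sum_eq_single (b, b)]
    · rintro ⟨r1, r2⟩ hr hne
      have hr' := Finset.HasAntidiagonal.mem_antidiagonal.mp hr
      simp only at hr'
      apply htri
      by_cases h1 : r1 = b
      · exact absurd (Prod.ext h1 (by show r2 = b; omega)) hne
      · by_cases h2 : r1 < 2 * b
        · exact Or.inl ⟨h2, h1⟩
        · exact Or.inr ⟨by omega, by omega⟩
    · intro h
      exact absurd (Finset.HasAntidiagonal.mem_antidiagonal.mpr (by simp only; ring)) h
  have hG2 : ∑ r ∈ Finset.HasAntidiagonal.antidiagonal (3 * b),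
      X.tri 0 (X.swept D r.1) (X.swept D r.2) a =
      X.tri 0 (X.swept D b) (X.swept D (2 * b)) a +
        X.tri 0 (X.swept D (2 * b)) (X.swept D b) a := by
    rw [Finset.sum_eq_add (b, 2 * b) (2 * b, b)]
    · intro h
      have := congrArg Prod.fst h
      simp only at this
      omega
    · rintro ⟨r1, r2⟩ hr ⟨hne1, hne2⟩
      have hr' := Finset.HasAntidiagonal.mem_antidiagonal.mp hr
      simp only at hr'
      apply htri
      by_cases h1 : r1 = b
      · exact absurd (Prod.ext h1 (by show r2 = 2 * b; omega)) hne1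
      · by_cases h2 : r1 < 2 * b
        · exact Or.inl ⟨h2, h1⟩
        · by_cases h3 : r1 = 2 * b
          · exact absurd (Prod.ext h3 (by show r2 = b; omega)) hne2
          · exact Or.inr ⟨by omega, by omega⟩
    · intro h
      exact absurd (Finset.HasAntidiagonal.mem_antidiagonal.mpr (by simp only; ring)) h
    · intro h
      exact absurd (Finset.HasAntidiagonal.mem_antidiagonal.mpr (by simp only; ring)) h
  have hsum : X.chainSum D D (3 * b) a = X.tri b (X.swept D b) (X.swept D b) a +
      (X.tri 0 (X.swept D b) (X.swept D (2 * b)) a +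
        X.tri 0 (X.swept D (2 * b)) (X.swept D b) a) := by
    unfold chainSum
    rw [← hG1, ← hG2, Finset.sum_eq_add (2 * b, b) (3 * b, 0)]
    · intro h
      have := congrArg Prod.snd h
      simp only at this
      omega
    · rintro ⟨p1, p2⟩ hp ⟨hne1, hne2⟩
      have hp' := Finset.HasAntidiagonal.mem_antidiagonal.mp hp
      simp only at hp'
      have h1 : p1 ≠ 2 * b := fun h => hne1 (Prod.ext h (by show p2 = b; omega))
      have h2 : p1 ≠ 3 * b := fun h => hne2 (Prod.ext h (by show p2 = 0; omega))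
      refine Finset.sum_eq_zero ?_
      rintro ⟨r1, r2⟩ hr
      have hr' := Finset.HasAntidiagonal.mem_antidiagonal.mp hr
      simp only at hr'
      apply htri
      by_cases h3 : r1 = b
      · exact Or.inr ⟨by omega, by omega⟩
      · by_cases h4 : r1 < 2 * b
        · exact Or.inl ⟨h4, h3⟩
        · exact Or.inr ⟨by omega, by omega⟩
    · intro h
      exact absurd (Finset.HasAntidiagonal.mem_antidiagonal.mpr (by simp only; ring)) h
    · intro h
      exact absurd (Finset.HasAntidiagonal.mem_antidiagonal.mpr (by simp only; ring)) h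
  have ht1 : X.tri 0 (X.power D (n + 1 - c)) (X.power D (n + 1 - 2 * c)) a = d := by
    rw [ha, tri_power]
    congr 2
    omega
  have ht2 : X.tri 0 (X.power D (n + 1 - 2 * c)) (X.power D (n + 1 - c)) a = d := by
    rw [ha, tri_power]
    congr 2
    omega
  rw [hsum, hv1, hv2, tri_smul, tri_smul, tri_smul, ht1, ht2]
  have hval : A1 / d * (A1 / d) * X.tri b (X.power D (n + 1 - c)) (X.power D (n + 1 - c)) a +
      (A1 / d * (A2 / d) * d + A2 / d * (A1 / d) * d) =
      A1 / d ^ 2 * (A1 * S + 2 * d * A2) := by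
    rw [← hS]
    field_simp
    ring
  rw [hval]
  exact mul_ne_zero (div_ne_zero hA (pow_ne_zero 2 htop)) hne

end GenusZero
end Pool.Agent.GWFix
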