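import Mathlib

/-!
Genus zero Gromov-Witten data and the big quantum cohomology ring (helper53, MP_8133f0_ag).
-/

open scoped BigOperators Nat

namespace Pool.Agent.GWFix

variable {κ ι ο : Type} [Fintype κ] [Fintype ι] [DecidableEq ι] [Fintype ο] [DecidableEq ο]

/-- `series N s` is the power series `Σ N β (s + m) q^β t^m / m!`, the sum over all degrees `β`
(exponents of the variables `q_k`) and all multiplicities `m` (exponents of the variables
`t_i`); `s` are the fixed insertions. -/
noncomputable def series (N : (κ →₀ ℕ) → (ι →₀ ℕ) → ℚ) (s : ι →₀ ℕ) :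
    MvPowerSeries (κ ⊕ ι) ℚ := fun n =>
  N (n.comapDomain Sum.inl Sum.inl_injective.injOn)
      (s + n.comapDomain Sum.inr Sum.inr_injective.injOn) /
    ∏ i : ι, ((n (Sum.inr i))! : ℚ)

/-- A constant, as a power series. -/
noncomputable abbrev cst (x : ℚ) : MvPowerSeries (κ ⊕ ι) ℚ := MvPowerSeries.C x

/-- The multiset `{a, b, c}` of insertions. -/
noncomputable def three (a b c : ι) : ι →₀ ℕ :=
  Finsupp.single a 1 + Finsupp.single b 1 + Finsupp.single c 1

/-- The genus zero Gromov-Witten theory of a smooth projective variety `X`.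

`ι` indexes a homogeneous basis `e_i` of the even cohomology, `ο` one of the odd cohomology.
A class `β` of curves is recorded by its degrees `β k` with respect to ample classes
`D_k = Σ_i deg k i e_i`; `inv β m` is the invariant `⟨∏ e_i^{m_i}⟩_β` (insertions: `m_i` copies
of `e_i`), `invOdd β r s m` is `⟨o_r, o_s, ∏ e_i^{m_i}⟩_β` with two odd insertions. `g`, `go` are
the matrices of the Poincare pairing and `ginv`, `goinv` their inverses. The other fields are
the Kontsevich-Manin properties which are used. -/
structure GenusZero (κ ι ο : Type) [Fintype κ] [Fintype ι] [DecidableEq ι] [Fintype ο]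
    [DecidableEq ο] where
  inv : (κ →₀ ℕ) → (ι →₀ ℕ) → ℚ
  invOdd : (κ →₀ ℕ) → ο → ο → (ι →₀ ℕ) → ℚ
  /-- the unit class `1` -/
  one : ι
  /-- the class of a point -/
  pt : ι
  g : Matrix ι ι ℚ
  ginv : Matrix ι ι ℚ
  go : Matrix ο ο ℚ
  goinv : Matrix ο ο ℚ
  deg : κ → ι → ℚ
  g_symm : ∀ a b, g a b = g b a
  g_mul_ginv : g * ginv = 1
  go_antisymm : ∀ r s, go r s = - go s r
  go_mul_goinv : go * goinv = 1
  invOdd_antisymm : ∀ β r s m, invOdd β r s m = - invOdd β s r m
  /-- unit (fundamental class) property -/
  unit : ∀ a b, series inv (three one a b) = cst (g a b)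
  /-- WDVV (associativity) equations -/
  wdvv : ∀ a b c d,
    ∑ e, ∑ f, series inv (three a b e) * cst (ginv e f) * series inv (three f c d) =
    ∑ e, ∑ f, series inv (three a c e) * cst (ginv e f) * series inv (three f b d)
  /-- unit property with two odd insertions -/
  unitOdd : ∀ r s, series (fun β m => invOdd β r s m) (Finsupp.single one 1) = cst (go r s)
  /-- WDVV equations with two odd insertions -/
  wdvvOdd : ∀ a b r s,
    ∑ e, ∑ f, series inv (three a b e) * cst (ginv e f) *
      series (fun β m => invOdd β r s m) (Finsupp.single f 1) =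
    ∑ u, ∑ v, series (fun β m => invOdd β r u m) (Finsupp.single b 1) * cst (goinv u v) *
      series (fun β m => invOdd β v s m) (Finsupp.single a 1)
  /-- divisor property -/
  divisor : ∀ k β m, β ≠ 0 →
    ∑ i, deg k i * inv β (m + Finsupp.single i 1) = (β k : ℚ) * inv β m
  /-- constant maps: no invariant of degree zero with two point insertions -/
  constant : ∀ m, inv 0 (Finsupp.single pt 2 + m) = 0

namespace GenusZero

variable (X : GenusZero κ ι ο)

/-- `X` has a nonzero genus zero invariant with two point insertions (and further even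
insertions), in a class of positive degree. -/
def TwoPoint : Prop :=
  ∃ β : κ →₀ ℕ, β ≠ 0 ∧ ∃ m : ι →₀ ℕ, X.inv β (Finsupp.single X.pt 2 + m) ≠ 0

/-- The ring of power series in the degree variables `q` and the coordinates `t`. -/
abbrev Coeff (_ : GenusZero κ ι ο) : Type := MvPowerSeries (κ ⊕ ι) ℚ

/-- Third derivative `⟨⟨e_a, e_b, e_c⟩⟩` of the genus zero potential. -/
noncomputable def phi (a b c : ι) : X.Coeff := series X.inv (three a b c)

/-- `⟨⟨o_r, o_s, e_a⟩⟩`, two odd insertions. -/
noncomputable def psi (a : ι) (r s : ο) : X.Coeff :=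
  series (fun β m => X.invOdd β r s m) (Finsupp.single a 1)

/-- Quantum multiplication by `e_a` on the even part: `e_a * e_b = Σ_f (mulMat a) b f • e_f`. -/
noncomputable def mulMat (a : ι) : Matrix ι ι X.Coeff :=
  Matrix.of (fun b e => X.phi a b e) * X.ginv.map cst

/-- Quantum multiplication by `e_a` on the odd part: `e_a * o_r = Σ_s (mulMatOdd a) r s • o_s`. -/
noncomputable def mulMatOdd (a : ι) : Matrix ο ο X.Coeff :=
  Matrix.of (fun r s => X.psi a r s) * X.goinv.map cst

/-- The big quantum cohomology ring (even part): vectors `Σ x_a e_a` with the quantum product. -/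
def QH (_ : GenusZero κ ι ο) : Type := ι → MvPowerSeries (κ ⊕ ι) ℚ

noncomputable instance : AddCommGroup X.QH := inferInstanceAs (AddCommGroup (ι → X.Coeff))
noncomputable instance : Module X.Coeff X.QH := inferInstanceAs (Module X.Coeff (ι → X.Coeff))

/-- The matrix of multiplication by `x` on the even part. -/
noncomputable def L (x : X.QH) : Matrix ι ι X.Coeff := ∑ a, x a • X.mulMat a

/-- The matrix of multiplication by `x` on the odd part. -/
noncomputable def Lodd (x : X.QH) : Matrix ο ο X.Coeff := ∑ a, x a • X.mulMatOdd a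

/-- The quantum product. -/
noncomputable def qmul (x y : X.QH) : X.QH := fun f => ∑ a, ∑ b, x a * y b * X.mulMat a b f

/-- The basis vector `e_a`. -/
noncomputable def e (a : ι) : X.QH := Pi.single a (1 : X.Coeff)

end GenusZero
end Pool.Agent.GWFix
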