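import Pool.Agent.GWFix.Fixed

/-!
Formal genus zero theories of threefolds with Picard number one, degree `d` and `c` curves of
degree one through the general point, without two point invariants (helper53, MP_8133f0_ag).
-/

open scoped BigOperators Nat

namespace Pool.Agent.GWFix

namespace Fake

/-- The invariants; basis `1, D, l, pt` with `D^2 = d l`, `D l = pt`. In degree `0` the
integrals of the classes, in degree `1` only `⟨pt, D, ..., D⟩ = c`. -/
noncomputable def inv (d c : ℕ) (β : Fin 1 →₀ ℕ) (m : Fin 4 →₀ ℕ) : ℚ :=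
  if β 0 = 0 then
    (if m 0 + m 1 + m 2 + m 3 = 3 ∧ m 1 + 2 * m 2 + 3 * m 3 = 3 then
      (if m 1 = 3 then (d : ℚ) else 1) else 0)
  else if β 0 = 1 ∧ m 0 = 0 ∧ m 2 = 0 ∧ m 3 = 1 then (c : ℚ) else 0

/-- `q e^{t_1}` -/
noncomputable def S : MvPowerSeries (Fin 1 ⊕ Fin 4) ℚ := fun n =>
  if n (Sum.inl 0) = 1 ∧ n (Sum.inr 0) = 0 ∧ n (Sum.inr 2) = 0 ∧ n (Sum.inr 3) = 0 then
    1 / ((n (Sum.inr 1))! : ℚ) else 0

/-- `q t_3 e^{t_1}` -/
noncomputable def W : MvPowerSeries (Fin 1 ⊕ Fin 4) ℚ := fun n =>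
  if n (Sum.inl 0) = 1 ∧ n (Sum.inr 0) = 0 ∧ n (Sum.inr 2) = 0 ∧ n (Sum.inr 3) = 1 then
    1 / ((n (Sum.inr 1))! : ℚ) else 0

/-- Coefficients of `1`, `S`, `W` in the third derivatives. -/
def al (a b c : Fin 4) : ℤ := if (a : ℕ) + b + c = 3 then 1 else 0

def si (a b c : Fin 4) : ℤ :=
  if (a = 1 ∧ b = 1 ∧ c = 3) ∨ (a = 1 ∧ b = 3 ∧ c = 1) ∨ (a = 3 ∧ b = 1 ∧ c = 1) then 1 else 0

def om (a b c : Fin 4) : ℤ := if a = 1 ∧ b = 1 ∧ c = 1 then 1 else 0

def hh (a b : Fin 4) : ℤ := if (a : ℕ) + b = 3 then 1 else 0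

def T {R : Type*} [CommRing R] (s w : R) (a b c : Fin 4) : R :=
  (al a b c : R) + s * (si a b c : R) + w * (om a b c : R)

def c1 (x y : Fin 4 → Fin 4 → Fin 4 → ℤ) (a b c d : Fin 4) : ℤ :=
  ∑ e, ∑ f, x a b e * hh e f * y f c d

theorem expand {R : Type*} [CommRing R] (s w : R) (a b c d : Fin 4) :
    ∑ e, ∑ f, T s w a b e * (hh e f : R) * T s w f c d =
      (c1 al al a b c d : R) + s * ((c1 al si a b c d : R) + (c1 si al a b c d : R)) +
      w * ((c1 al om a b c d : R) + (c1 om al a b c d : R)) +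
      s ^ 2 * (c1 si si a b c d : R) +
      s * w * ((c1 si om a b c d : R) + (c1 om si a b c d : R)) +
      w ^ 2 * (c1 om om a b c d : R) := by
  simp only [c1, T, Int.cast_sum, Int.cast_mul, Finset.mul_sum, ← Finset.sum_add_distrib]
  refine Finset.sum_congr rfl fun e _ => Finset.sum_congr rfl fun f _ => ?_
  ring

theorem sym (a b c d : Fin 4) :
    c1 al al a b c d = c1 al al a c b d ∧
    c1 al si a b c d + c1 si al a b c d = c1 al si a c b d + c1 si al a c b d ∧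
    c1 al om a b c d + c1 om al a b c d = c1 al om a c b d + c1 om al a c b d ∧
    c1 si si a b c d = c1 si si a c b d ∧
    c1 si om a b c d + c1 om si a b c d = c1 si om a c b d + c1 om si a c b d ∧
    c1 om om a b c d = c1 om om a c b d := by
  revert a b c d
  decide +kernel

theorem wdvv_aux {R : Type*} [CommRing R] (s w : R) (a b c d : Fin 4) :
    ∑ e, ∑ f, T s w a b e * (hh e f : R) * T s w f c d =
      ∑ e, ∑ f, T s w a c e * (hh e f : R) * T s w f b d := by
  rw [expand, expand]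
  obtain ⟨h1, h2, h3, h4, h5, h6⟩ := sym a b c d
  have h2' := congrArg (Int.cast : ℤ → R) h2
  have h3' := congrArg (Int.cast : ℤ → R) h3
  have h5' := congrArg (Int.cast : ℤ → R) h5
  push_cast at h2' h3' h5'
  rw [h1, h2', h3', h4, h5', h6]

end Fake

end Pool.Agent.GWFix
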