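import Pool.Agent.GWFix.Fake

/-!
The formal theory of `Fake.lean`, continued (helper53, MP_8133f0_ag).
-/

open scoped BigOperators Nat

namespace Pool.Agent.GWFix

namespace Fake

theorem prod_fact (n : (Fin 1 ⊕ Fin 4) →₀ ℕ) :
    ∏ i : Fin 4, ((n (Sum.inr i))! : ℚ) =
      (n (Sum.inr 0))! * (n (Sum.inr 1))! * (n (Sum.inr 2))! * (n (Sum.inr 3))! := by
  rw [Fin.prod_univ_four]

theorem eq_zero_iff (n : (Fin 1 ⊕ Fin 4) →₀ ℕ) :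
    n = 0 ↔ n (Sum.inl 0) = 0 ∧ n (Sum.inr 0) = 0 ∧ n (Sum.inr 1) = 0 ∧ n (Sum.inr 2) = 0 ∧
      n (Sum.inr 3) = 0 := by
  constructor
  · rintro rfl; simp
  · rintro ⟨h, h0, h1, h2, h3⟩
    ext x
    rcases x with i | i
    · fin_cases i; simpa using h
    · fin_cases i
      · simpa using h0
      · simpa using h1
      · simpa using h2
      · simpa using h3

theorem one_apply (n : (Fin 1 ⊕ Fin 4) →₀ ℕ) :
    (1 : MvPowerSeries (Fin 1 ⊕ Fin 4) ℚ) n =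
      if n (Sum.inl 0) = 0 ∧ n (Sum.inr 0) = 0 ∧ n (Sum.inr 1) = 0 ∧ n (Sum.inr 2) = 0 ∧
      n (Sum.inr 3) = 0 then 1 else 0 := by
  have h : (1 : MvPowerSeries (Fin 1 ⊕ Fin 4) ℚ) n = if n = 0 then 1 else 0 :=
    MvPowerSeries.coeff_one (R := ℚ) (n := n)
  rw [h]
  exact if_congr (eq_zero_iff n) rfl rfl

theorem num_aux (d c : ℕ) (k m0 m1 m2 m3 s0 s1 s2 s3 : ℕ) (hs : s0 + s1 + s2 + s3 = 3) :
    ((if k = 0 then
      (if s0 + m0 + (s1 + m1) + (s2 + m2) + (s3 + m3) = 3 ∧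
        s1 + m1 + 2 * (s2 + m2) + 3 * (s3 + m3) = 3 then
        (if s1 + m1 = 3 then (d : ℚ) else 1) else 0)
      else if k = 1 ∧ s0 + m0 = 0 ∧ s2 + m2 = 0 ∧ s3 + m3 = 1 then (c : ℚ) else 0 : ℚ) /
      ((m0)! * (m1)! * (m2)! * (m3)!) : ℚ) =
      ((if s1 + 2 * s2 + 3 * s3 = 3 then
          (if s1 = 3 then (d : ℚ) else 1) *
          (if k = 0 ∧ m0 = 0 ∧ m1 = 0 ∧ m2 = 0 ∧ m3 = 0 then (1 : ℚ) else 0) else 0) +
      (if s0 = 0 ∧ s1 = 2 ∧ s2 = 0 ∧ s3 = 1 then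
        (c : ℚ) * (if k = 1 ∧ m0 = 0 ∧ m2 = 0 ∧ m3 = 0 then 1 / ((m1)! : ℚ) else 0) else 0) +
      (if s0 = 0 ∧ s1 = 3 ∧ s2 = 0 ∧ s3 = 0 then
        (c : ℚ) * (if k = 1 ∧ m0 = 0 ∧ m2 = 0 ∧ m3 = 1 then 1 / ((m1)! : ℚ) else 0) else 0)
        : ℚ) := by
  rcases Nat.lt_or_ge k 1 with hk | hk
  · have hk0 : k = 0 := by omega
    subst hk0
    by_cases hm : m0 = 0 ∧ m1 = 0 ∧ m2 = 0 ∧ m3 = 0
    · obtain ⟨rfl, rfl, rfl, rfl⟩ := hm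
      simp [hs]
    · have h1 : ¬ (s0 + m0 + (s1 + m1) + (s2 + m2) + (s3 + m3) = 3 ∧
          s1 + m1 + 2 * (s2 + m2) + 3 * (s3 + m3) = 3) := by omega
      simp [hm, h1]
  · rcases Nat.lt_or_ge k 2 with hk2 | hk2
    · have hk1 : k = 1 := by omega
      subst hk1
      by_cases h : m0 = 0 ∧ m2 = 0 ∧ (m3 = 0 ∨ m3 = 1)
      · obtain ⟨rfl, rfl, rfl | rfl⟩ := h
        · have e1 : (s0 = 0 ∧ s2 = 0 ∧ s3 = 1) ↔ (s0 = 0 ∧ s1 = 2 ∧ s2 = 0 ∧ s3 = 1) := by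
            omega
          simp [e1, div_eq_mul_inv]
        · have e1 : (s0 = 0 ∧ s2 = 0 ∧ s3 = 0) ↔ (s0 = 0 ∧ s1 = 3 ∧ s2 = 0 ∧ s3 = 0) := by
            omega
          simp [e1, div_eq_mul_inv]
      · have h1 : s0 = 0 → m0 = 0 → s2 = 0 → m2 = 0 → ¬ s3 + m3 = 1 := by omega
        have h2 : ¬ (m0 = 0 ∧ m2 = 0 ∧ m3 = 0) := by omega
        have h3 : ¬ (m0 = 0 ∧ m2 = 0 ∧ m3 = 1) := by omega
        rw [if_neg (by omega : ¬ (1 : ℕ) = 0), if_neg (by omega)]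
        simp [h2, h3]
    · have h0 : k ≠ 0 := by omega
      have h1 : k ≠ 1 := by omega
      simp [h0, h1]

theorem C_mul_apply (x : ℚ) (f : MvPowerSeries (Fin 1 ⊕ Fin 4) ℚ) (n : (Fin 1 ⊕ Fin 4) →₀ ℕ) :
    ((cst x : MvPowerSeries (Fin 1 ⊕ Fin 4) ℚ) * f) n = x * f n :=
  MvPowerSeries.coeff_C_mul n f x

theorem series_eq (d c : ℕ) (s : Fin 4 →₀ ℕ) (hs : s 0 + s 1 + s 2 + s 3 = 3) :
    series (inv d c) s =
      (if s 1 + 2 * s 2 + 3 * s 3 = 3 then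
        (cst (if s 1 = 3 then (d : ℚ) else 1) : MvPowerSeries (Fin 1 ⊕ Fin 4) ℚ) * 1 else 0) +
      (if s 0 = 0 ∧ s 1 = 2 ∧ s 2 = 0 ∧ s 3 = 1 then cst (c : ℚ) * S else 0) +
      (if s 0 = 0 ∧ s 1 = 3 ∧ s 2 = 0 ∧ s 3 = 0 then cst (c : ℚ) * W else 0) := by
  funext n
  have hadd : ∀ f g h : MvPowerSeries (Fin 1 ⊕ Fin 4) ℚ, (f + g + h) n = f n + g n + h n :=
    fun _ _ _ => rfl
  have hite : ∀ (p : Prop) [Decidable p] (f : MvPowerSeries (Fin 1 ⊕ Fin 4) ℚ),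
      (if p then f else 0) n = if p then f n else 0 := by
    intro p _ f; split_ifs <;> rfl
  rw [hadd, hite, hite, hite, C_mul_apply, C_mul_apply, C_mul_apply, one_apply]
  unfold series inv S W
  rw [prod_fact]
  simp only [Finsupp.comapDomain_apply, Finsupp.add_apply]
  exact num_aux d c _ _ _ _ _ _ _ _ _ hs

theorem phi_table (d c : ℕ) (a b e : Fin 4) :
    series (inv d c) (three a b e) =
      T (cst (c : ℚ) * S) (cst (c : ℚ) * W + (cst (d : ℚ) - 1)) a b e := by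
  have hs : three a b e 0 + three a b e 1 + three a b e 2 + three a b e 3 = 3 := by
    fin_cases a <;> fin_cases b <;> fin_cases e <;> simp [three]
  rw [series_eq _ _ _ hs]
  fin_cases a <;> fin_cases b <;> fin_cases e <;> simp [three, T, al, si, om]
  ring

end Fake

end Pool.Agent.GWFix
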