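import Pool.Agent.GWFix.Fake2

/-!
The formal theory of `Fake.lean`: all properties (helper53, MP_8133f0_ag).
-/

open scoped BigOperators Nat

namespace Pool.Agent.GWFix

namespace Fake

noncomputable def gg : Matrix (Fin 4) (Fin 4) ℚ := Matrix.of fun a b => (hh a b : ℚ)

theorem gg_mul : gg * gg = 1 := by
  ext a b
  simp only [gg, Matrix.mul_apply, Matrix.of_apply, Fin.sum_univ_four]
  fin_cases a <;> fin_cases b <;> simp [hh]

theorem cst_int (z : ℤ) : (cst (z : ℚ) : MvPowerSeries (Fin 1 ⊕ Fin 4) ℚ) = (z : _) := by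
  simp [cst]

theorem unit_aux (d c : ℕ) (a b : Fin 4) : series (inv d c) (three 0 a b) = cst (gg a b) := by
  rw [phi_table]
  have h1 : al 0 a b = hh a b := by revert a b; decide +kernel
  have h2 : si 0 a b = 0 := by revert a b; decide +kernel
  have h3 : om 0 a b = 0 := by revert a b; decide +kernel
  rw [T, h1, h2, h3]
  simp only [gg, Matrix.of_apply, cst_int]
  simp

theorem ne_zero_of (β : Fin 1 →₀ ℕ) (hβ : β ≠ 0) : β 0 ≠ 0 := by
  intro h
  apply hβ
  refine Finsupp.ext fun i => ?_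
  rw [Subsingleton.elim i 0, h]
  rfl

/-- The formal theory of degree `d` with `c` curves through a point. -/
noncomputable def theory (d c : ℕ) : GenusZero (Fin 1) (Fin 4) (Fin 0) where
  inv := inv d c
  invOdd := fun _ _ _ _ => 0
  one := 0
  pt := 3
  g := gg
  ginv := gg
  go := 0
  goinv := 0
  deg := fun _ i => if i = 1 then 1 else 0
  g_symm := by
    intro a b
    simp only [gg, Matrix.of_apply]
    have : hh a b = hh b a := by revert a b; decide +kernel
    rw [this]
  g_mul_ginv := gg_mul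
  go_antisymm := fun r => r.elim0
  go_mul_goinv := Subsingleton.elim _ _
  invOdd_antisymm := fun _ r => r.elim0
  unit := unit_aux d c
  wdvv := by
    intro a b e f
    simp only [phi_table]
    have h : ∀ e f, (cst (gg e f) : MvPowerSeries (Fin 1 ⊕ Fin 4) ℚ) = (hh e f : _) := by
      intro e f
      simp only [gg, Matrix.of_apply, cst_int]
    simp only [h]
    exact wdvv_aux _ _ a b e f
  unitOdd := fun r => r.elim0
  wdvvOdd := fun _ _ r => r.elim0
  divisor := by
    intro k β m hβ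
    have hk : k = 0 := Subsingleton.elim _ _
    subst hk
    have hb : β 0 ≠ 0 := ne_zero_of β hβ
    rw [Finset.sum_eq_single 1]
    · simp only [if_true, one_mul]
      unfold inv
      rw [if_neg hb, if_neg hb]
      have e0 : (m + Finsupp.single 1 1 : Fin 4 →₀ ℕ) 0 = m 0 := by simp
      have e2 : (m + Finsupp.single 1 1 : Fin 4 →₀ ℕ) 2 = m 2 := by simp
      have e3 : (m + Finsupp.single 1 1 : Fin 4 →₀ ℕ) 3 = m 3 := by simp
      rw [e0, e2, e3]
      split_ifs with h
      · rw [h.1]; simp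
      · simp
    · intro i _ hi
      rw [if_neg hi, zero_mul]
    · intro h; exact absurd (Finset.mem_univ _) h
  constant := by
    intro m
    unfold inv
    rw [if_pos (show (0 : Fin 1 →₀ ℕ) 0 = 0 from rfl), if_neg]
    rintro ⟨h1, h2⟩
    simp only [Finsupp.add_apply, Finsupp.single_apply] at h1 h2
    simp at h1 h2
    omega

theorem not_twoPoint (d c : ℕ) : ¬ (theory d c).TwoPoint := by
  rintro ⟨β, hβ, m, h⟩
  apply h
  show inv d c β (Finsupp.single 3 2 + m) = 0
  unfold inv
  have hb : β 0 ≠ 0 := ne_zero_of β hβ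
  rw [if_neg hb, if_neg]
  rintro ⟨_, _, _, h3⟩
  simp only [Finsupp.add_apply, Finsupp.single_apply] at h3
  simp at h3
  omega

/-- The dimension constraint with `dim = 3` and first Chern number `2` of the generator. -/
theorem dimension (d c : ℕ) (β : Fin 1 →₀ ℕ) (m : Fin 4 →₀ ℕ) (h : inv d c β m ≠ 0) :
    m 1 + 2 * m 2 + 3 * m 3 = 2 * β 0 + (m 0 + m 1 + m 2 + m 3) := by
  unfold inv at h
  by_cases h0 : β 0 = 0
  · rw [if_pos h0] at h
    by_cases h1 : m 0 + m 1 + m 2 + m 3 = 3 ∧ m 1 + 2 * m 2 + 3 * m 3 = 3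
    · omega
    · rw [if_neg h1] at h
      exact absurd rfl h
  · rw [if_neg h0] at h
    by_cases h1 : β 0 = 1 ∧ m 0 = 0 ∧ m 2 = 0 ∧ m 3 = 1
    · omega
    · rw [if_neg h1] at h
      exact absurd rfl h

theorem inv_nat (d c : ℕ) (β : Fin 1 →₀ ℕ) (m : Fin 4 →₀ ℕ) : ∃ k : ℕ, inv d c β m = k := by
  unfold inv
  split_ifs
  · exact ⟨d, rfl⟩
  · exact ⟨1, by simp⟩
  · exact ⟨0, by simp⟩
  · exact ⟨c, rfl⟩
  · exact ⟨0, by simp⟩

theorem inv_deg_zero (d c : ℕ) (m : Fin 4 →₀ ℕ) :
    inv d c 0 m = if m 0 + m 1 + m 2 + m 3 = 3 ∧ m 1 + 2 * m 2 + 3 * m 3 = 3 then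
      (if m 1 = 3 then (d : ℚ) else 1) else 0 := by
  unfold inv
  rw [if_pos (show (0 : Fin 1 →₀ ℕ) 0 = 0 from rfl)]

theorem through_point (d c : ℕ) :
    inv d c (Finsupp.single 0 1) (Finsupp.single 3 1) = c := by
  unfold inv
  simp

theorem S_ne_zero : S ≠ 0 := by
  intro h
  have h1 := congrFun h (Finsupp.single (Sum.inl 0) 1)
  have h2 : S (Finsupp.single (Sum.inl 0) 1) = 1 := by
    unfold S
    simp
  rw [h2] at h1
  exact one_ne_zero h1

end Fake

end Pool.Agent.GWFix
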