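import Pool.Agent.GWFix.Fake3

/-!
The formal theory of `Fake.lean`: the rank of quantum multiplication by the point class
(helper53, MP_8133f0_ag).
-/

open scoped BigOperators Nat

namespace Pool.Agent.GWFix

namespace Fake

theorem mulMat_pt (d c : ℕ) (b f : Fin 4) :
    (theory d c).mulMat 3 b f =
      if b = 0 ∧ f = 3 then 1 else if b = 1 ∧ f = 2 then cst (c : ℚ) * S else 0 := by
  rw [GenusZero.mulMat_apply]
  have h1 : ∀ e, (theory d c).phi 3 b e =
      T (cst (c : ℚ) * S) (cst (c : ℚ) * W + (cst (d : ℚ) - 1)) 3 b e :=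
    fun e => phi_table d c 3 b e
  have h2 : ∀ e, (cst ((theory d c).ginv e f) : MvPowerSeries (Fin 1 ⊕ Fin 4) ℚ) =
      (hh e f : _) := by
    intro e
    show (cst (gg e f) : MvPowerSeries (Fin 1 ⊕ Fin 4) ℚ) = (hh e f : _)
    simp only [gg, Matrix.of_apply, cst_int]
  simp only [h1, h2, Fin.sum_univ_four]
  fin_cases b <;> fin_cases f <;> simp [T, al, si, om, hh]

def P2 (K : Type) [Field K] : Matrix (Fin 2) (Fin 4) K := !![1, 0, 0, 0; 0, 1, 0, 0]

def Q2 (K : Type) [Field K] : Matrix (Fin 4) (Fin 2) K := !![0, 0; 0, 0; 0, 1; 1, 0]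

theorem rank_ge {K : Type} [Field K] (M : Matrix (Fin 4) (Fin 4) K) (s : K) (hs : s ≠ 0)
    (hM : ∀ b f, M b f = if b = 0 ∧ f = 3 then 1 else if b = 1 ∧ f = 2 then s else 0) :
    2 ≤ M.rank := by
  have h1 : P2 K * M * Q2 K = !![1, 0; 0, s] := by
    ext i j
    simp only [Matrix.mul_apply, Fin.sum_univ_four, hM]
    fin_cases i <;> fin_cases j <;> simp [P2, Q2]
  have h2 : (P2 K * M * Q2 K).rank = 2 := by
    rw [h1]
    have h3 : IsUnit (!![1, 0; 0, s] : Matrix (Fin 2) (Fin 2) K) := by
      rw [Matrix.isUnit_iff_isUnit_det, Matrix.det_fin_two_of]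
      simpa using hs
    rw [Matrix.rank_of_isUnit _ h3, Fintype.card_fin]
  calc 2 = (P2 K * M * Q2 K).rank := h2.symm
    _ ≤ (P2 K * M).rank := Matrix.rank_mul_le_left _ _
    _ ≤ M.rank := Matrix.rank_mul_le_right _ _

theorem rank_generic (d c : ℕ) (hc : c ≠ 0) :
    ∃ (K : Type) (_ : Field K) (ev : (theory d c).Coeff →+* K),
    2 * (((theory d c).L ((theory d c).e (theory d c).pt)).map ev).rank =
      Fintype.card (Fin 4) := by
  have hdom : IsDomain (theory d c).Coeff := NoZeroDivisors.to_isDomain _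
  refine ⟨FractionRing (theory d c).Coeff, inferInstance, algebraMap _ _, ?_⟩
  have hinj : Function.Injective (algebraMap (theory d c).Coeff
      (FractionRing (theory d c).Coeff)) := IsFractionRing.injective _ _
  have h1 := (theory d c).rank_le (not_twoPoint d c)
    (algebraMap (theory d c).Coeff (FractionRing (theory d c).Coeff))
  have hS : (cst (c : ℚ) * S : MvPowerSeries (Fin 1 ⊕ Fin 4) ℚ) ≠ 0 := by
    refine mul_ne_zero ?_ S_ne_zero
    intro h
    have h6 := congrArg (MvPowerSeries.constantCoeff (σ := Fin 1 ⊕ Fin 4) (R := ℚ)) h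
    simp only [cst, MvPowerSeries.constantCoeff_C, map_zero] at h6
    exact hc (by exact_mod_cast h6)
  have h2 : 2 ≤ (((theory d c).L ((theory d c).e (theory d c).pt)).map
      (algebraMap (theory d c).Coeff (FractionRing (theory d c).Coeff))).rank := by
    apply rank_ge _ (algebraMap (theory d c).Coeff (FractionRing (theory d c).Coeff)
      (cst (c : ℚ) * S))
    · intro h
      exact hS (hinj (by rw [h, map_zero]))
    · intro b f
      rw [Matrix.map_apply, GenusZero.L_e]
      show algebraMap (theory d c).Coeff (FractionRing (theory d c).Coeff)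
        ((theory d c).mulMat 3 b f) = _
      rw [mulMat_pt]
      split_ifs
      · exact map_one _
      · rfl
      · exact map_zero _
  have h3 : Fintype.card (Fin 4) = 4 := Fintype.card_fin 4
  omega

end Fake

end Pool.Agent.GWFix
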