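import Mathlib

/-!
A matrix over a domain of characteristic zero all of whose powers have trace zero is nilpotent
(helper53).
-/

open scoped BigOperators
open Polynomial

namespace Pool.Agent.GWFix

theorem trace_aeval_eq_zero {K : Type*} [Field K] {n : Type*} [Fintype n] [DecidableEq n]
    (M : Matrix n n K) (h : ∀ k, 1 ≤ k → (M ^ k).trace = 0) (q : K[X]) (hq : q.coeff 0 = 0) :
    (aeval M q).trace = 0 := by
  rw [aeval_eq_sum_range, Matrix.trace_sum]
  refine Finset.sum_eq_zero fun k _ => ?_
  rw [Matrix.trace_smul]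
  rcases Nat.eq_zero_or_pos k with rfl | hk
  · rw [hq, zero_smul]
  · rw [h k hk, smul_zero]

theorem pow_eq_zero_of_aeval {K A : Type*} [Field K] [Ring A] [Algebra K A] (x : A) (m : ℕ)
    (b ν : K[X]) (hz : aeval x (X ^ m * ν) = 0) (hb : aeval x (b * ν) = 1) : x ^ m = 0 := by
  have h1 : aeval x (X ^ m : K[X]) * aeval x (b * ν) = aeval x (b * (X ^ m * ν)) := by
    rw [← map_mul]; congr 1; ring
  have h2 : aeval x (X ^ m : K[X]) = x ^ m := by rw [map_pow, aeval_X]
  rw [hb, mul_one, map_mul, hz, mul_zero, h2] at h1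
  exact h1

theorem isNilpotent_of_trace_field {K : Type*} [Field K] [CharZero K] {n : Type*} [Fintype n]
    [DecidableEq n] (M : Matrix n n K) (h : ∀ k, 1 ≤ k → (M ^ k).trace = 0) :
    IsNilpotent M := by
  have hP0 : M.charpoly ≠ 0 := M.charpoly_monic.ne_zero
  obtain ⟨ν, hν, hnd⟩ := M.charpoly.exists_eq_pow_rootMultiplicity_mul_and_not_dvd hP0 0
  set m := M.charpoly.rootMultiplicity 0 with hm
  rw [C_0, sub_zero] at hν hnd
  have hcop : IsCoprime (X ^ (m + 1) : K[X]) ν :=
    IsCoprime.pow_left ((Polynomial.irreducible_X.coprime_iff_not_dvd).mpr hnd)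
  obtain ⟨a, b, hab⟩ := hcop
  have hz : aeval M (X ^ m * ν) = 0 := by
    rw [← hν]; exact M.aeval_self_charpoly
  set E : Matrix n n K := aeval M (a * X ^ (m + 1)) with hE
  have hE1 : 1 - E = aeval M (b * ν) := by
    rw [hE, sub_eq_iff_eq_add, ← map_add, add_comm, hab, map_one]
  have hid : IsIdempotentElem E := by
    have h0 : E * (1 - E) = 0 := by
      rw [hE1, hE, ← map_mul]
      have : a * X ^ (m + 1) * (b * ν) = (a * b * X) * (X ^ m * ν) := by ring
      rw [this, map_mul, hz, mul_zero]
    have : E * E = E := by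
      rw [mul_sub, mul_one, sub_eq_zero] at h0
      exact h0.symm
    exact this
  have htr : E.trace = 0 := by
    apply trace_aeval_eq_zero M h
    rw [pow_succ, ← mul_assoc, coeff_mul_X_zero]
  have hlin : IsIdempotentElem (Matrix.toLin' E) := by
    have h0 : Matrix.toLin' (E * E) = Matrix.toLin' E := by rw [hid.eq]
    rw [Matrix.toLin'_mul] at h0
    exact h0
  have hE0 : E = 0 := by
    have h1 : LinearMap.trace K (n → K) (Matrix.toLin' E) = 0 := by
      rw [Matrix.trace_toLin'_eq, htr]
    have h2 := LinearMap.IsIdempotentElem.eq_zero_of_trace_eq_zero hlin h1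
    exact (LinearEquiv.map_eq_zero_iff _).mp h2
  have hbν : aeval M (b * ν) = 1 := by rw [← hE1, hE0, sub_zero]
  exact ⟨m, pow_eq_zero_of_aeval M m b ν hz hbν⟩

theorem isNilpotent_of_trace {R : Type*} [CommRing R] [IsDomain R] [CharZero R] {n : Type*}
    [Fintype n] [DecidableEq n] (M : Matrix n n R) (h : ∀ k, 1 ≤ k → (M ^ k).trace = 0) :
    IsNilpotent M := by
  have hinj : Function.Injective (algebraMap R (FractionRing R)) :=
    IsFractionRing.injective R (FractionRing R)
  have : CharZero (FractionRing R) := charZero_of_injective_algebraMap hinj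
  let f := (algebraMap R (FractionRing R)).mapMatrix (m := n)
  have h1 : ∀ k, 1 ≤ k → ((f M) ^ k).trace = 0 := by
    intro k hk
    rw [← map_pow]
    have : (f (M ^ k)).trace = algebraMap R (FractionRing R) (M ^ k).trace := by
      simp [f, Matrix.trace, RingHom.mapMatrix_apply, map_sum]
    rw [this, h k hk, map_zero]
  obtain ⟨k, hk⟩ := isNilpotent_of_trace_field (f M) h1
  refine ⟨k, ?_⟩
  rw [← map_pow] at hk
  have hf : Function.Injective f := Matrix.map_injective hinj
  exact hf (by rw [hk, map_zero])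

end Pool.Agent.GWFix
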