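import Pool.Agent.GWFix.Ring
import Pool.Agent.GWFix.TracePow

/-!
Fixed-domain invariants and the criterion (helper53, MP_8133f0_ag).
-/

open scoped BigOperators Nat

namespace Pool.Agent.GWFix

variable {κ ι ο : Type} [Fintype κ] [Fintype ι] [DecidableEq ι] [Fintype ο] [DecidableEq ο]

namespace GenusZero

variable (X : GenusZero κ ι ο)

/-- The supertrace of quantum multiplication by `x` on the whole cohomology. -/
noncomputable def str (x : X.QH) : X.Coeff := (X.L x).trace - (X.Lodd x).trace

/-- The quantum Euler class: the element `E` whose pairing with `x` is `str x`, that is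
`E = Σ g^{ij} e_i * e_j` (sum over the whole basis, even and odd). -/
noncomputable def euler : X.QH := fun f => ∑ a, X.str (X.e a) * cst (X.ginv a f)

/-- The Poincare pairing of `x` with the unit. -/
noncomputable def integral (x : X.QH) : X.Coeff := ∑ a, x a * cst (X.g a X.one)

/-- Generating series of the genus `n` invariants with FIXED domain curve (and fixed position of
the marked points which carry `l`) and insertions `e_a`, `a ∈ l`: by the gluing properties it is
the pairing of `E^n * ∏ e_a` with the unit. -/
noncomputable def fixedDomain (n : ℕ) (l : List ι) : X.Coeff :=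
  X.integral (X.euler ^ n * (l.map X.e).prod)

theorem L_mul (x y : X.QH) : X.L (x * y) = X.L y * X.L x := X.L_qmul x y

theorem Lodd_mul (x y : X.QH) : X.Lodd (x * y) = X.Lodd y * X.Lodd x := X.Lodd_qmul x y

theorem L_one' : X.L 1 = 1 := X.L_one

theorem Lodd_one' : X.Lodd 1 = 1 := X.Lodd_one

theorem L_pow (x : X.QH) (k : ℕ) : X.L (x ^ k) = X.L x ^ k := by
  induction k with
  | zero => rw [pow_zero, pow_zero, L_one']
  | succ k ih => rw [pow_succ, L_mul, ih, pow_succ']

theorem Lodd_pow (x : X.QH) (k : ℕ) : X.Lodd (x ^ k) = X.Lodd x ^ k := by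
  induction k with
  | zero => rw [pow_zero, pow_zero, Lodd_one']
  | succ k ih => rw [pow_succ, Lodd_mul, ih, pow_succ']

theorem str_eq_zero_of_isNilpotent (x : X.QH) (h : IsNilpotent x) : X.str x = 0 := by
  obtain ⟨k, hk⟩ := h
  have h1 : IsNilpotent (X.L x) := ⟨k, by rw [← L_pow, hk, L_zero]⟩
  have h2 : IsNilpotent (X.Lodd x) := ⟨k, by rw [← Lodd_pow, hk, Lodd_zero]⟩
  have h3 : (X.L x).trace = 0 := (Matrix.isNilpotent_trace_of_isNilpotent h1).eq_zero
  have h4 : (X.Lodd x).trace = 0 := (Matrix.isNilpotent_trace_of_isNilpotent h2).eq_zero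
  rw [str, h3, h4, sub_zero]

theorem str_sum (x : X.QH) : X.str x = ∑ a, x a * X.str (X.e a) := by
  have h1 : (X.L x).trace = ∑ a, x a * (X.L (X.e a)).trace := by
    simp only [L_e]
    unfold L
    rw [Matrix.trace_sum]
    exact Finset.sum_congr rfl fun a _ => by rw [Matrix.trace_smul, smul_eq_mul]
  have h2 : (X.Lodd x).trace = ∑ a, x a * (X.Lodd (X.e a)).trace := by
    simp only [Lodd_e]
    unfold Lodd
    rw [Matrix.trace_sum]
    exact Finset.sum_congr rfl fun a _ => by rw [Matrix.trace_smul, smul_eq_mul]
  unfold str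
  rw [h1, h2, ← Finset.sum_sub_distrib]
  exact Finset.sum_congr rfl fun a _ => by rw [mul_sub]

/-- The pairing of `e_a * e_b` with `1` is `g a b`. -/
theorem integral_basis (a b : ι) :
    ∑ f, X.mulMat a b f * cst (X.g f X.one) = cst (X.g a b) := by
  simp only [mulMat_apply]
  calc ∑ f, (∑ e, X.phi a b e * cst (X.ginv e f)) * cst (X.g f X.one)
      = ∑ e, X.phi a b e * ∑ f, cst (X.ginv e f) * cst (X.g f X.one) := by
        simp only [Finset.sum_mul, Finset.mul_sum]
        rw [Finset.sum_comm]
        exact Finset.sum_congr rfl fun e _ => Finset.sum_congr rfl fun f _ => by ring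
    _ = ∑ e, X.phi a b e * cst ((1 : Matrix ι ι ℚ) e X.one) := by
        refine Finset.sum_congr rfl fun e _ => ?_
        rw [← X.ginv_mul_g, Matrix.mul_apply]
        simp [cst, map_sum, map_mul]
    _ = X.phi a b X.one := by
        rw [Finset.sum_eq_single X.one]
        · simp [cst]
        · intro e _ he
          rw [Matrix.one_apply_ne he]; simp [cst]
        · intro h; exact absurd (Finset.mem_univ _) h
    _ = cst (X.g a b) := by
        rw [X.phi_comm23, X.phi_comm12]
        exact X.unit a b

theorem integral_mul (x y : X.QH) :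
    X.integral (x * y) = ∑ a, ∑ b, x a * y b * cst (X.g a b) := by
  show X.integral (X.qmul x y) = _
  unfold integral qmul
  calc ∑ f, (∑ a, ∑ b, x a * y b * X.mulMat a b f) * cst (X.g f X.one)
      = ∑ a, ∑ b, x a * y b * ∑ f, X.mulMat a b f * cst (X.g f X.one) := by
        simp only [Finset.sum_mul, Finset.mul_sum]
        rw [Finset.sum_comm]
        refine Finset.sum_congr rfl fun a _ => ?_
        rw [Finset.sum_comm]
        exact Finset.sum_congr rfl fun b _ => Finset.sum_congr rfl fun f _ => by ring
    _ = _ := Finset.sum_congr rfl fun a _ => Finset.sum_congr rfl fun b _ => by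
        rw [X.integral_basis]

theorem integral_mul_e (x : X.QH) (b : ι) :
    X.integral (x * X.e b) = ∑ a, x a * cst (X.g a b) := by
  rw [integral_mul]
  refine Finset.sum_congr rfl fun a _ => ?_
  rw [Finset.sum_eq_single b]
  · simp [e]
  · intro c _ hc
    simp [e, Pi.single_eq_of_ne hc]
  · intro h; exact absurd (Finset.mem_univ _) h

theorem eq_zero_of_integral (x : X.QH) (h : ∀ b, X.integral (X.e b * x) = 0) : x = 0 := by
  funext f
  have h1 : ∀ b, ∑ a, x a * cst (X.g a b) = 0 := by
    intro b
    rw [← X.integral_mul_e x b, mul_comm]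
    exact h b
  have h2 : ∑ b, (∑ a, x a * cst (X.g a b)) * cst (X.ginv b f) = x f := by
    calc ∑ b, (∑ a, x a * cst (X.g a b)) * cst (X.ginv b f)
        = ∑ a, x a * ∑ b, cst (X.g a b) * cst (X.ginv b f) := by
          simp only [Finset.sum_mul, Finset.mul_sum]
          rw [Finset.sum_comm]
          exact Finset.sum_congr rfl fun e _ => Finset.sum_congr rfl fun f _ => by ring
      _ = ∑ a, x a * cst ((1 : Matrix ι ι ℚ) a f) := by
          refine Finset.sum_congr rfl fun a _ => ?_
          rw [← X.g_mul_ginv, Matrix.mul_apply]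
          simp [cst, map_sum, map_mul]
      _ = x f := by
          rw [Finset.sum_eq_single f]
          · simp [cst]
          · intro e _ he
            rw [Matrix.one_apply_ne he]; simp [cst]
          · intro h; exact absurd (Finset.mem_univ _) h
  have h3 : ∑ b, (∑ a, x a * cst (X.g a b)) * cst (X.ginv b f) = 0 :=
    Finset.sum_eq_zero fun b _ => by rw [h1 b, zero_mul]
  rw [← h2, h3]
  rfl

theorem integral_euler_mul (x : X.QH) : X.integral (X.euler * x) = X.str x := by
  rw [integral_mul, str_sum]
  rw [Finset.sum_comm]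
  refine Finset.sum_congr rfl fun b _ => ?_
  calc ∑ a, X.euler a * x b * cst (X.g a b)
      = x b * ∑ c, X.str (X.e c) * ∑ a, cst (X.ginv c a) * cst (X.g a b) := by
        simp only [euler, Finset.sum_mul, Finset.mul_sum]
        rw [Finset.sum_comm]
        exact Finset.sum_congr rfl fun e _ => Finset.sum_congr rfl fun f _ => by ring
    _ = x b * ∑ c, X.str (X.e c) * cst ((1 : Matrix ι ι ℚ) c b) := by
        congr 1
        refine Finset.sum_congr rfl fun c _ => ?_
        rw [← X.ginv_mul_g, Matrix.mul_apply]
        simp [cst, map_sum, map_mul]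
    _ = x b * X.str (X.e b) := by
        congr 1
        rw [Finset.sum_eq_single b]
        · simp [cst]
        · intro c _ hc
          rw [Matrix.one_apply_ne hc]; simp [cst]
        · intro h; exact absurd (Finset.mem_univ _) h

theorem integral_zero : X.integral 0 = 0 := by
  unfold integral
  exact Finset.sum_eq_zero fun a _ => zero_mul _

theorem fixedDomain_genus_one (l : List ι) :
    X.fixedDomain 1 l = X.str (l.map X.e).prod := by
  unfold fixedDomain
  rw [pow_one, integral_euler_mul]

/-- If the point class is nilpotent, every fixed-domain invariant of positive genus with a point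
insertion vanishes. -/
theorem fixedDomain_eq_zero (h : IsNilpotent (X.e X.pt)) (n : ℕ) (hn : 1 ≤ n) (l : List ι)
    (hl : X.pt ∈ l) : X.fixedDomain n l = 0 := by
  have hE : X.euler * X.e X.pt = 0 := by
    apply X.eq_zero_of_integral
    intro b
    have h1 : X.e b * (X.euler * X.e X.pt) = X.euler * (X.e X.pt * X.e b) := by ring
    rw [h1, integral_euler_mul]
    apply str_eq_zero_of_isNilpotent
    exact (Commute.all _ _).isNilpotent_mul_right h
  obtain ⟨c, hc⟩ : X.e X.pt ∣ (l.map X.e).prod :=
    List.dvd_prod (List.mem_map.mpr ⟨X.pt, hl, rfl⟩)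
  obtain ⟨n, rfl⟩ : ∃ k, n = k + 1 := ⟨n - 1, by omega⟩
  unfold fixedDomain
  have h2 : X.euler ^ (n + 1) * (l.map X.e).prod = X.euler ^ n * c * (X.euler * X.e X.pt) := by
    rw [hc]; ring
  rw [h2, hE, mul_zero, integral_zero]

theorem fixedDomain_zero_replicate (a : ι) (k : ℕ) :
    X.fixedDomain 0 (a :: List.replicate k X.pt) = X.integral (X.e a * X.e X.pt ^ k) := by
  unfold fixedDomain
  rw [pow_zero, one_mul, List.map_cons, List.prod_cons, List.map_replicate, List.prod_replicate]

theorem exists_fixedDomain_zero_iff (k : ℕ) :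
    (∃ a, X.fixedDomain 0 (a :: List.replicate k X.pt) ≠ 0) ↔ X.e X.pt ^ k ≠ 0 := by
  constructor
  · rintro ⟨a, ha⟩ h
    apply ha
    rw [fixedDomain_zero_replicate, h, mul_zero, integral_zero]
  · intro h
    by_contra hc
    push Not at hc
    apply h
    apply X.eq_zero_of_integral
    intro a
    rw [← fixedDomain_zero_replicate]
    exact hc a

theorem genus_one_of_not_isNilpotent [IsEmpty ο] (h : ¬ IsNilpotent (X.e X.pt)) :
    ∃ a, X.fixedDomain 1 [X.pt, a] ≠ 0 := by
  by_contra hc
  push Not at hc
  apply h
  have h1 : ∀ y : X.QH, (X.L (X.e X.pt * y)).trace = 0 := by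
    intro y
    have h2 : ∀ x : X.QH, (X.L x).trace = X.str x := by
      intro x
      have : (X.Lodd x).trace = 0 := Matrix.trace_eq_zero_of_isEmpty _
      rw [str, this, sub_zero]
    rw [h2, ← integral_euler_mul]
    have h3 : X.euler * (X.e X.pt * y) = (X.euler * X.e X.pt) * y := by ring
    rw [h3]
    have h4 : X.euler * X.e X.pt = 0 := by
      apply X.eq_zero_of_integral
      intro b
      have h5 : X.e b * (X.euler * X.e X.pt) = X.euler * (X.e X.pt * X.e b) := by ring
      rw [h5]
      have h6 := hc b
      unfold fixedDomain at h6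
      simpa using h6
    rw [h4, zero_mul, integral_zero]
  have hchar : CharZero X.Coeff := algebraRat.charZero _
  have hdom : IsDomain X.Coeff := NoZeroDivisors.to_isDomain _
  have h2 : IsNilpotent (X.L (X.e X.pt)) := by
    apply isNilpotent_of_trace
    intro k hk
    obtain ⟨k, rfl⟩ : ∃ j, k = j + 1 := ⟨k - 1, by omega⟩
    rw [← L_pow, pow_succ']
    exact h1 _
  obtain ⟨k, hk⟩ := h2
  refine ⟨k, X.L_injective ?_⟩
  rw [L_pow, hk, L_zero]

/-- The pairing of `e_a * pt^2` with `1` is the third derivative `⟨⟨pt, a, pt⟩⟩`. -/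
theorem integral_pt_sq (a : ι) :
    X.integral (X.e a * X.e X.pt ^ 2) = X.phi X.pt a X.pt := by
  have h1 : X.e a * X.e X.pt ^ 2 = (X.e X.pt * X.e a) * X.e X.pt := by ring
  rw [h1, integral_mul_e]
  have h2 : ∀ f, (X.e X.pt * X.e a) f = X.mulMat X.pt a f := by
    intro f
    show X.qmul (X.e X.pt) (X.e a) f = _
    unfold qmul
    rw [Finset.sum_eq_single X.pt, Finset.sum_eq_single a]
    · simp [e]
    · intro c _ hc
      simp [e, Pi.single_eq_of_ne hc]
    · intro h; exact absurd (Finset.mem_univ _) h
    · intro c _ hc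
      refine Finset.sum_eq_zero fun b _ => ?_
      simp [e, Pi.single_eq_of_ne hc]
    · intro h; exact absurd (Finset.mem_univ _) h
  simp only [h2, mulMat_apply]
  calc ∑ f, (∑ c, X.phi X.pt a c * cst (X.ginv c f)) * cst (X.g f X.pt)
      = ∑ c, X.phi X.pt a c * ∑ f, cst (X.ginv c f) * cst (X.g f X.pt) := by
        simp only [Finset.sum_mul, Finset.mul_sum]
        rw [Finset.sum_comm]
        exact Finset.sum_congr rfl fun e _ => Finset.sum_congr rfl fun f _ => by ring
    _ = ∑ c, X.phi X.pt a c * cst ((1 : Matrix ι ι ℚ) c X.pt) := by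
        refine Finset.sum_congr rfl fun e _ => ?_
        rw [← X.ginv_mul_g, Matrix.mul_apply]
        simp [cst, map_sum, map_mul]
    _ = X.phi X.pt a X.pt := by
        rw [Finset.sum_eq_single X.pt]
        · simp [cst]
        · intro e _ he
          rw [Matrix.one_apply_ne he]; simp [cst]
        · intro h; exact absurd (Finset.mem_univ _) h

/-- Q1 for even insertions is `pt * pt ≠ 0`. -/
theorem twoPoint_iff : X.TwoPoint ↔ X.e X.pt ^ 2 ≠ 0 := by
  have hthree : ∀ a : ι, ∀ m : ι →₀ ℕ,
      three X.pt a X.pt + m = Finsupp.single X.pt 2 + (Finsupp.single a 1 + m) := by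
    intro a m
    have : (Finsupp.single X.pt 2 : ι →₀ ℕ) = Finsupp.single X.pt 1 + Finsupp.single X.pt 1 := by
      rw [← Finsupp.single_add]
    rw [this, three]
    abel
  constructor
  · rintro ⟨β, hβ, m, hm⟩ h
    -- a third insertion
    obtain ⟨a, m', hm'⟩ : ∃ a m', X.inv β (Finsupp.single X.pt 2 + (Finsupp.single a 1 + m')) ≠ 0 := by
      by_cases h0 : m = 0
      · subst h0
        obtain ⟨k, hk⟩ : ∃ k, β k ≠ 0 := by
          by_contra hc
          push Not at hc
          exact hβ (Finsupp.ext hc)
        have hd := X.divisor k β (Finsupp.single X.pt 2 + 0) hβ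
        have hne : (β k : ℚ) * X.inv β (Finsupp.single X.pt 2 + 0) ≠ 0 :=
          mul_ne_zero (by exact_mod_cast hk) hm
        rw [← hd] at hne
        obtain ⟨a, _, ha⟩ := Finset.exists_ne_zero_of_sum_ne_zero hne
        refine ⟨a, 0, ?_⟩
        have := right_ne_zero_of_mul ha
        rwa [add_zero] at this ⊢
      · obtain ⟨a, ha⟩ : ∃ a, m a ≠ 0 := by
          by_contra hc
          push Not at hc
          exact h0 (Finsupp.ext hc)
        refine ⟨a, m - Finsupp.single a 1, ?_⟩
        have hle : Finsupp.single a 1 ≤ m := by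
          rw [Finsupp.single_le_iff]; omega
        rwa [add_tsub_cancel_of_le hle]
    have h1 : X.phi X.pt a X.pt = 0 := by
      rw [← integral_pt_sq, h, mul_zero, integral_zero]
    have h2 := congrArg (fun s : X.Coeff => s (Finsupp.sumElim β m')) h1
    simp only [phi, series, Finsupp.comapDomain_inl_sumElim, Finsupp.comapDomain_inr_sumElim] at h2
    rw [hthree] at h2
    have h3 : (∏ i : ι, (((Finsupp.sumElim β m') (Sum.inr i))! : ℚ)) ≠ 0 :=
      Finset.prod_ne_zero_iff.mpr fun i _ => by exact_mod_cast Nat.factorial_ne_zero _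
    have h4 := (div_eq_zero_iff.mp h2).resolve_right h3
    exact hm' h4
  · intro h
    by_contra hc
    apply h
    apply X.eq_zero_of_integral
    intro a
    rw [integral_pt_sq]
    funext n
    show X.inv _ (three X.pt a X.pt + _) / _ = 0
    rw [hthree]
    by_cases hβ : n.comapDomain Sum.inl Sum.inl_injective.injOn = 0
    · rw [hβ, X.constant, zero_div]
    · have : X.inv (n.comapDomain Sum.inl Sum.inl_injective.injOn)
          (Finsupp.single X.pt 2 + (Finsupp.single a 1 +
            n.comapDomain Sum.inr Sum.inr_injective.injOn)) = 0 := by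
        by_contra h5
        exact hc ⟨_, hβ, _, h5⟩
      rw [this, zero_div]

/-- If there is no two point invariant, quantum multiplication by the point class has rank at
most half of the dimension at every point of the family. -/
theorem rank_le (h : ¬ X.TwoPoint) {K : Type*} [Field K] (ev : X.Coeff →+* K) :
    2 * ((X.L (X.e X.pt)).map ev).rank ≤ Fintype.card ι := by
  have h1 : X.e X.pt ^ 2 = 0 := by
    by_contra hc
    exact h (X.twoPoint_iff.mpr hc)
  have h2 : (X.L (X.e X.pt)).map ev * (X.L (X.e X.pt)).map ev = 0 := by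
    rw [← Matrix.map_mul, ← L_mul, ← pow_two, h1, L_zero]
    exact Matrix.map_zero _ (map_zero ev)
  have h3 := Matrix.rank_add_rank_le_card_of_mul_eq_zero h2
  omega

/-- Strong form of Q1: for every `k` there is a nonzero genus zero invariant with `k` point
insertions whose marked points (and one more, carrying `e_a`) have a fixed position on the
domain. -/
def ManyPoints : Prop := ∀ k, ∃ a, X.fixedDomain 0 (a :: List.replicate k X.pt) ≠ 0

/-- The quantum product at the point `ev` of the family (`ev` evaluates the power series). -/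
noncomputable def mulAt {K : Type*} [CommRing K] (ev : X.Coeff →+* K) (x y : ι → K) : ι → K :=
  fun f => ∑ a, ∑ b, x a * y b * ev (X.mulMat a b f)

theorem mulAt_comp {K : Type*} [CommRing K] (ev : X.Coeff →+* K) (x y : X.QH) :
    X.mulAt ev (fun f => ev (x f)) (fun f => ev (y f)) = fun f => ev ((x * y) f) := by
  funext f
  show _ = ev (X.qmul x y f)
  unfold mulAt qmul
  simp only [map_sum, map_mul]

theorem manyPoints_iff : X.ManyPoints ↔ ¬ IsNilpotent (X.e X.pt) := by
  unfold ManyPoints
  simp only [exists_fixedDomain_zero_iff]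
  constructor
  · rintro h ⟨k, hk⟩
    exact h k hk
  · intro h k hk
    exact h ⟨k, hk⟩

theorem manyPoints_iff_card :
    X.ManyPoints ↔
      ∃ a, X.fixedDomain 0 (a :: List.replicate (Fintype.card ι) X.pt) ≠ 0 := by
  rw [manyPoints_iff, exists_fixedDomain_zero_iff]
  constructor
  · intro h hk
    exact h ⟨_, hk⟩
  · rintro h ⟨k, hk⟩
    apply h
    have hdom : IsDomain X.Coeff := NoZeroDivisors.to_isDomain _
    have h1 : IsNilpotent (X.L (X.e X.pt)) := ⟨k, by rw [← L_pow, hk, L_zero]⟩
    have h2 := (Matrix.isNilpotent_charpoly_sub_pow_of_isNilpotent h1).eq_zero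
    have h3 := (X.L (X.e X.pt)).aeval_self_charpoly
    rw [sub_eq_zero.mp h2, map_pow, Polynomial.aeval_X, ← L_pow] at h3
    exact X.L_injective (by rw [h3, L_zero])

theorem manyPoints_of_reduced {K : Type*} [CommRing K] [Nontrivial K] (ev : X.Coeff →+* K)
    (h : ∀ x : ι → K, X.mulAt ev x x = 0 → x = 0) : X.ManyPoints := by
  rw [manyPoints_iff]
  rintro ⟨k, hk⟩
  have h1 : ∀ j, (fun f => ev ((X.e X.pt ^ (2 ^ j)) f)) = (0 : ι → K) → False := by
    intro j
    induction j with
    | zero =>
      intro h0
      have := congrFun h0 X.pt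
      rw [pow_zero, pow_one] at this
      simp [e] at this
    | succ j ih =>
      intro h0
      apply ih
      apply h
      rw [mulAt_comp, ← pow_add, ← two_mul, ← pow_succ', h0]
  apply h1 k
  have h2 : X.e X.pt ^ (2 ^ k) = 0 := by
    obtain ⟨d, hd⟩ := Nat.exists_eq_add_of_le (Nat.lt_two_pow_self (n := k)).le
    rw [hd, pow_add, hk, zero_mul]
  funext f
  rw [h2]
  exact map_zero ev

/-- In genus zero with three marked points the domain is always fixed. -/
theorem fixedDomain_three (a b c : ι) : X.fixedDomain 0 [a, b, c] = X.phi a b c := by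
  unfold fixedDomain
  have h0 : X.euler ^ 0 * (List.map X.e [a, b, c]).prod = (X.e a * X.e b) * X.e c := by
    simp [mul_assoc]
  rw [h0, integral_mul_e]
  have h2 : ∀ f, (X.e a * X.e b) f = X.mulMat a b f := by
    intro f
    show X.qmul (X.e a) (X.e b) f = _
    unfold qmul
    rw [Finset.sum_eq_single a, Finset.sum_eq_single b]
    · simp [e]
    · intro d _ hd
      simp [e, Pi.single_eq_of_ne hd]
    · intro h; exact absurd (Finset.mem_univ _) h
    · intro d _ hd
      refine Finset.sum_eq_zero fun b _ => ?_
      simp [e, Pi.single_eq_of_ne hd]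
    · intro h; exact absurd (Finset.mem_univ _) h
  simp only [h2, mulMat_apply]
  calc ∑ f, (∑ d, X.phi a b d * cst (X.ginv d f)) * cst (X.g f c)
      = ∑ d, X.phi a b d * ∑ f, cst (X.ginv d f) * cst (X.g f c) := by
        simp only [Finset.sum_mul, Finset.mul_sum]
        rw [Finset.sum_comm]
        exact Finset.sum_congr rfl fun e _ => Finset.sum_congr rfl fun f _ => by ring
    _ = ∑ d, X.phi a b d * cst ((1 : Matrix ι ι ℚ) d c) := by
        refine Finset.sum_congr rfl fun e _ => ?_
        rw [← X.ginv_mul_g, Matrix.mul_apply]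
        simp [cst, map_sum, map_mul]
    _ = X.phi a b c := by
        rw [Finset.sum_eq_single c]
        · simp [cst]
        · intro e _ he
          rw [Matrix.one_apply_ne he]; simp [cst]
        · intro h; exact absurd (Finset.mem_univ _) h

theorem twoPoint_iff' : X.TwoPoint ↔ ∃ a, X.fixedDomain 0 [a, X.pt, X.pt] ≠ 0 := by
  rw [twoPoint_iff, ← exists_fixedDomain_zero_iff]
  rfl

end GenusZero
end Pool.Agent.GWFix
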