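import Pool.Agent.GWFix.Fixed

/-!
The gluing properties of the fixed-domain series (helper53, MP_8133f0_ag).
-/

open scoped BigOperators Nat

namespace Pool.Agent.GWFix

variable {κ ι ο : Type} [Fintype κ] [Fintype ι] [DecidableEq ι] [Fintype ο] [DecidableEq ο]

namespace GenusZero

variable (X : GenusZero κ ι ο)

/-- The fixed-domain series with two odd insertions: the pairing of `E^n * ∏ e_a * o_r` with
`o_s`. -/
noncomputable def fixedDomainOdd (n : ℕ) (r s : ο) (l : List ι) : X.Coeff :=
  ∑ v, X.Lodd (X.euler ^ n * (l.map X.e).prod) r v * cst (X.go v s)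

theorem fixedDomain_cons (n : ℕ) (a : ι) (l : List ι) :
    X.fixedDomain n (a :: l) = X.integral ((X.euler ^ n * (l.map X.e).prod) * X.e a) := by
  unfold fixedDomain
  congr 1
  rw [List.map_cons, List.prod_cons]
  ring

theorem glue_sum {R : Type*} [CommRing R] {J : Type*} [Fintype J] [DecidableEq J]
    (g h : Matrix J J R) (hs : ∀ a b, g a b = g b a) (hg : g * h = 1) (x y : J → R) :
    ∑ a, ∑ b, x a * y b * g a b =
      ∑ c, ∑ d, (∑ a, x a * g a c) * h c d * (∑ b, y b * g b d) := by
  have h1 : ∀ a, ∑ b, x a * y b * g a b = x a * ∑ b, y b * g b a := by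
    intro a
    rw [Finset.mul_sum]
    exact Finset.sum_congr rfl fun b _ => by rw [hs a b, mul_assoc]
  have h2 : ∀ d, ∑ c, (∑ a, x a * g a c) * h c d = x d := by
    intro d
    calc ∑ c, (∑ a, x a * g a c) * h c d = ∑ a, x a * ∑ c, g a c * h c d := by
          simp only [Finset.sum_mul, Finset.mul_sum]
          rw [Finset.sum_comm]
          exact Finset.sum_congr rfl fun a _ => Finset.sum_congr rfl fun c _ => by
            rw [mul_assoc]
      _ = ∑ a, x a * (1 : Matrix J J R) a d := by
          refine Finset.sum_congr rfl fun a _ => ?_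
          rw [← hg, Matrix.mul_apply]
      _ = x d := by simp [Matrix.one_apply]
  calc ∑ a, ∑ b, x a * y b * g a b = ∑ d, x d * ∑ b, y b * g b d :=
        Finset.sum_congr rfl fun a _ => h1 a
    _ = ∑ d, (∑ c, (∑ a, x a * g a c) * h c d) * ∑ b, y b * g b d :=
        Finset.sum_congr rfl fun d _ => by rw [h2 d]
    _ = ∑ d, ∑ c, (∑ a, x a * g a c) * h c d * ∑ b, y b * g b d :=
        Finset.sum_congr rfl fun d _ => by rw [Finset.sum_mul]
    _ = _ := Finset.sum_comm

theorem map_mul_map {σ J : Type*} [Fintype J] [DecidableEq J] (A B : Matrix J J ℚ)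
    (h : A * B = 1) :
    A.map (MvPowerSeries.C : ℚ → MvPowerSeries σ ℚ) *
      B.map (MvPowerSeries.C : ℚ → MvPowerSeries σ ℚ) = 1 := by
  have h0 := congrArg (fun M : Matrix J J ℚ =>
    M.map (MvPowerSeries.C : ℚ →+* MvPowerSeries σ ℚ)) h
  simp only [Matrix.map_mul] at h0
  rw [Matrix.map_one _ (map_zero _) (map_one _)] at h0
  exact h0

theorem glue_aux (x y : ι → X.Coeff) :
    ∑ a, ∑ b, x a * y b * cst (X.g a b) =
      ∑ c, ∑ d, (∑ a, x a * cst (X.g a c)) * cst (X.ginv c d) * (∑ b, y b * cst (X.g b d)) := by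
  have hg : X.g.map (cst : ℚ → X.Coeff) * X.ginv.map (cst : ℚ → X.Coeff) = 1 :=
    map_mul_map _ _ X.g_mul_ginv
  exact glue_sum (X.g.map (cst : ℚ → X.Coeff)) (X.ginv.map (cst : ℚ → X.Coeff))
    (fun a b => by rw [Matrix.map_apply, Matrix.map_apply, X.g_symm a b]) hg x y

/-- Gluing at a separating node. -/
theorem fixedDomain_glue (m n : ℕ) (l₁ l₂ : List ι) :
    X.fixedDomain (m + n) (l₁ ++ l₂) =
      ∑ c, ∑ d, X.fixedDomain m (c :: l₁) * cst (X.ginv c d) * X.fixedDomain n (d :: l₂) := by
  have h0 : X.fixedDomain (m + n) (l₁ ++ l₂) =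
      X.integral ((X.euler ^ m * (l₁.map X.e).prod) * (X.euler ^ n * (l₂.map X.e).prod)) := by
    unfold fixedDomain
    congr 1
    rw [List.map_append, List.prod_append, pow_add]
    ring
  rw [h0, integral_mul]
  refine (X.glue_aux _ _).trans ?_
  refine Finset.sum_congr rfl fun c _ => Finset.sum_congr rfl fun d _ => ?_
  rw [fixedDomain_cons, fixedDomain_cons, integral_mul_e, integral_mul_e]

theorem mul_e_apply (y : X.QH) (i f : ι) : (y * X.e i) f = X.L y i f := by
  rw [mul_comm]
  show X.qmul (X.e i) y f = _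
  rw [L_apply]
  unfold qmul
  rw [Finset.sum_eq_single i]
  · refine Finset.sum_congr rfl fun a _ => ?_
    rw [X.mulMat_comm]
    simp [e]
  · intro c _ hc
    refine Finset.sum_eq_zero fun b _ => ?_
    simp [e, Pi.single_eq_of_ne hc]
  · intro h; exact absurd (Finset.mem_univ _) h

theorem trace_sum_aux {R : Type*} [CommRing R] {J : Type*} [Fintype J] [DecidableEq J]
    (g h M : Matrix J J R) (hg : g * h = 1) :
    M.trace = ∑ i, ∑ j, h j i * ∑ f, M i f * g f j := by
  rw [Matrix.trace]
  refine Finset.sum_congr rfl fun i _ => ?_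
  have h2 : M * (g * h) = M := by rw [hg, mul_one]
  calc M.diag i = (M * (g * h)) i i := by rw [h2]; rfl
    _ = (M * g * h) i i := by rw [mul_assoc]
    _ = ∑ j, (M * g) i j * h j i := by rw [Matrix.mul_apply]
    _ = _ := Finset.sum_congr rfl fun j _ => by rw [Matrix.mul_apply, mul_comm]

theorem trace_L (y : X.QH) :
    (X.L y).trace = ∑ i, ∑ j, cst (X.ginv i j) * X.integral (y * X.e i * X.e j) := by
  rw [trace_sum_aux _ _ (X.L y) (map_mul_map _ _ X.g_mul_ginv)]
  refine Finset.sum_congr rfl fun i _ => Finset.sum_congr rfl fun j _ => ?_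
  rw [integral_mul_e, Matrix.map_apply, X.ginv_symm j i]
  refine congrArg (fun z => cst (X.ginv i j) * z) (Finset.sum_congr rfl fun f _ => ?_)
  rw [mul_e_apply, Matrix.map_apply]

theorem trace_Lodd (n : ℕ) (l : List ι) :
    (X.Lodd (X.euler ^ n * (l.map X.e).prod)).trace =
      ∑ r, ∑ s, cst (X.goinv s r) * X.fixedDomainOdd n r s l := by
  rw [trace_sum_aux _ _ (X.Lodd (X.euler ^ n * (l.map X.e).prod))
    (map_mul_map _ _ X.go_mul_goinv)]
  rfl

/-- Gluing at a non-separating node (genus reduction). -/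
theorem fixedDomain_genus_succ (n : ℕ) (l : List ι) :
    X.fixedDomain (n + 1) l =
      ∑ i, ∑ j, cst (X.ginv i j) * X.fixedDomain n (j :: i :: l) -
      ∑ r, ∑ s, cst (X.goinv s r) * X.fixedDomainOdd n r s l := by
  have h0 : X.fixedDomain (n + 1) l = X.str (X.euler ^ n * (l.map X.e).prod) := by
    rw [← integral_euler_mul]
    unfold fixedDomain
    rw [pow_succ', mul_assoc]
  rw [h0, str, trace_L, trace_Lodd]
  refine congrArg (fun z => z - ∑ r, ∑ s, cst (X.goinv s r) * X.fixedDomainOdd n r s l) ?_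
  refine Finset.sum_congr rfl fun i _ => Finset.sum_congr rfl fun j _ => ?_
  have h1 : X.euler ^ n * (List.map X.e l).prod * X.e i =
      X.euler ^ n * (List.map X.e (i :: l)).prod := by
    rw [List.map_cons, List.prod_cons, mul_assoc, mul_comm (List.map X.e l).prod]
  rw [fixedDomain_cons, h1]

end GenusZero
end Pool.Agent.GWFix
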