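import Pool.Agent.GWFix.Fixed

/-!
Formal genus zero theories of dimension `2m + 1` with Picard number one and without two point
invariants: the algebra (helper53, MP_8133f0_ag).
-/

open scoped BigOperators Nat

namespace Pool.Agent.GWFix

namespace Odd

section Conv

variable {R : Type*} [CommRing R]

theorem sum_two (f : ℕ → R) (n : ℕ) :
    ∑ e ∈ Finset.range (2 * n), f e = ∑ k ∈ Finset.range n, (f (2 * k) + f (2 * k + 1)) := by
  induction n with
  | zero => simp
  | succ n ih =>
    rw [show 2 * (n + 1) = 2 * n + 1 + 1 by ring, Finset.sum_range_succ, Finset.sum_range_succ,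
      ih, Finset.sum_range_succ, add_assoc]

/-- The value of a product of basis classes with `o` odd ones and half sum `s`. -/
def H (m : ℕ) (G : ℕ → R) (o s : ℕ) : R :=
  if o = 1 then (if s = m then 1 else 0) else if o = 3 then G s else 0

theorem pick1 (m s : ℕ) (f : ℕ → R) :
    ∑ k ∈ Finset.range (m + 1), (if s + k = m then (1 : R) else 0) * f k =
      if s ≤ m then f (m - s) else 0 := by
  split_ifs with h
  · rw [Finset.sum_eq_single (m - s)]
    · rw [if_pos (by omega), one_mul]
    · intro k _ hk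
      rw [if_neg (by omega), zero_mul]
    · intro hk
      exact absurd (Finset.mem_range.mpr (by omega)) hk
  · refine Finset.sum_eq_zero fun k _ => ?_
    rw [if_neg (by omega), zero_mul]

theorem pick2 (m t : ℕ) (f : ℕ → R) :
    ∑ k ∈ Finset.range (m + 1), f k * (if m - k + t = m then (1 : R) else 0) =
      if t ≤ m then f t else 0 := by
  split_ifs with h
  · rw [Finset.sum_eq_single t]
    · rw [if_pos (by omega), mul_one]
    · intro k hk1 hk
      have := Finset.mem_range.mp hk1
      rw [if_neg (by omega), mul_zero]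
    · intro hk
      exact absurd (Finset.mem_range.mpr (by omega)) hk
  · refine Finset.sum_eq_zero fun k hk1 => ?_
    have := Finset.mem_range.mp hk1
    rw [if_neg (by omega), mul_zero]

theorem conv_aux (m : ℕ) (G : ℕ → R) (hG : ∀ s, m < s → G s = 0) (p q s t : ℕ) (hp : p ≤ 2)
    (hq : q ≤ 2) :
    ∑ k ∈ Finset.range (m + 1), (H m G p (s + k) * H m G (1 + q) (m - k + t) +
      H m G (p + 1) (s + k) * H m G q (m - k + t)) = H m G (p + q) (s + t) := by
  have hH0 : ∀ x, H m G 0 x = 0 := fun x => by simp [H]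
  have hH1 : ∀ x, H m G 1 x = if x = m then 1 else 0 := fun x => by simp [H]
  have hH2 : ∀ x, H m G 2 x = 0 := fun x => by simp [H]
  have hH3 : ∀ x, H m G 3 x = G x := fun x => by simp [H]
  have hH4 : ∀ x, H m G 4 x = 0 := fun x => by simp [H]
  rcases (by omega : p = 0 ∨ p = 1 ∨ p = 2) with rfl | rfl | rfl
  · simp only [hH0, zero_mul, zero_add, hH1]
    rw [pick1]
    split_ifs with h
    · rw [show m - (m - s) = s by omega]
    · rcases (by omega : q = 0 ∨ q = 1 ∨ q = 2) with rfl | rfl | rfl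
      · rw [hH0]
      · rw [hH1, if_neg (by omega)]
      · rw [hH2]
  · simp only [hH1, show 1 + 1 = 2 from rfl, hH2, zero_mul, add_zero]
    rw [pick1]
    split_ifs with h
    · rw [show m - (m - s) = s by omega]
    · rcases (by omega : q = 0 ∨ q = 1 ∨ q = 2) with rfl | rfl | rfl
      · rw [show 1 + 0 = 1 from rfl, hH1, if_neg (by omega)]
      · rw [show 1 + 1 = 2 from rfl, hH2]
      · rw [show 1 + 2 = 3 from rfl, hH3, hG _ (by omega)]
  · simp only [hH2, show 2 + 1 = 3 from rfl, hH3, zero_mul, zero_add]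
    rcases (by omega : q = 0 ∨ q = 1 ∨ q = 2) with rfl | rfl | rfl
    · simp only [hH0, mul_zero, Finset.sum_const_zero, add_zero, hH2]
    · simp only [hH1]
      rw [pick2, show 2 + 1 = 3 from rfl, hH3]
      split_ifs with h
      · rfl
      · rw [hG _ (by omega)]
    · simp only [hH2, mul_zero, Finset.sum_const_zero, show 2 + 2 = 4 from rfl, hH4]

/-- Third derivatives. -/
def F (m : ℕ) (G : ℕ → R) (a b e : ℕ) : R := H m G (a % 2 + b % 2 + e % 2) (a / 2 + b / 2 + e / 2)

theorem conv (m : ℕ) (G : ℕ → R) (hG : ∀ s, m < s → G s = 0) (a b c d : ℕ) :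
    ∑ e ∈ Finset.range (2 * (m + 1)), F m G a b e * F m G (2 * m + 1 - e) c d =
      H m G (a % 2 + b % 2 + (c % 2 + d % 2)) (a / 2 + b / 2 + (c / 2 + d / 2)) := by
  rw [sum_two, ← conv_aux m G hG (a % 2 + b % 2) (c % 2 + d % 2) (a / 2 + b / 2)
    (c / 2 + d / 2) (by omega) (by omega)]
  refine Finset.sum_congr rfl fun k hk => ?_
  have hk' := Finset.mem_range.mp hk
  unfold F
  rw [show 2 * k % 2 = 0 by omega, show 2 * k / 2 = k by omega,
    show (2 * k + 1) % 2 = 1 by omega, show (2 * k + 1) / 2 = k by omega,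
    show (2 * m + 1 - 2 * k) % 2 = 1 by omega, show (2 * m + 1 - 2 * k) / 2 = m - k by omega,
    show (2 * m + 1 - (2 * k + 1)) % 2 = 0 by omega,
    show (2 * m + 1 - (2 * k + 1)) / 2 = m - k by omega]
  rw [show 1 + c % 2 + d % 2 = 1 + (c % 2 + d % 2) by omega,
    show m - k + c / 2 + d / 2 = m - k + (c / 2 + d / 2) by omega,
    show 0 + c % 2 + d % 2 = c % 2 + d % 2 by omega, add_zero]

/-- The pairing. -/
def hh (m a b : ℕ) : ℤ := if a + b = 2 * m + 1 then 1 else 0

theorem sum_hh (m : ℕ) (e : ℕ) (he : e < 2 * m + 2) (f : ℕ → R) :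
    ∑ x ∈ Finset.range (2 * m + 2), (hh m e x : R) * f x = f (2 * m + 1 - e) := by
  rw [Finset.sum_eq_single (2 * m + 1 - e)]
  · rw [hh, if_pos (by omega), Int.cast_one, one_mul]
  · intro x _ hx
    rw [hh, if_neg (by omega), Int.cast_zero, zero_mul]
  · intro hx
    exact absurd (Finset.mem_range.mpr (by omega)) hx

theorem wdvv (m : ℕ) (G : ℕ → R) (hG : ∀ s, m < s → G s = 0) (a b c d : ℕ) :
    ∑ e : Fin (2 * m + 2), ∑ f : Fin (2 * m + 2),
      F m G a b e * (hh m e f : R) * F m G f c d =
    ∑ e : Fin (2 * m + 2), ∑ f : Fin (2 * m + 2),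
      F m G a c e * (hh m e f : R) * F m G f b d := by
  have key : ∀ a b c d : ℕ, ∑ e : Fin (2 * m + 2), ∑ f : Fin (2 * m + 2),
      F m G a b e * (hh m e f : R) * F m G f c d =
      H m G (a % 2 + b % 2 + (c % 2 + d % 2)) (a / 2 + b / 2 + (c / 2 + d / 2)) := by
    intro a b c d
    rw [← conv m G hG a b c d, show 2 * (m + 1) = 2 * m + 2 by ring]
    rw [Finset.sum_range]
    refine Finset.sum_congr rfl fun e _ => ?_
    have h1 := sum_hh m e e.isLt (fun x => F m G x c d)
    rw [Finset.sum_range] at h1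
    rw [← h1, Finset.mul_sum]
    exact Finset.sum_congr rfl fun f _ => by rw [mul_assoc]
  rw [key, key]
  congr 1 <;> omega

end Conv

end Odd

end Pool.Agent.GWFix
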