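import Pool.Agent.GWFix.Odd

/-!
Formal genus zero theories of dimension `2m + 1` with Picard number one and without two point
invariants: the potential (helper53, MP_8133f0_ag).
-/

open scoped BigOperators Nat

namespace Pool.Agent.GWFix

namespace Odd

/-- Number of insertions of classes of even index. -/
def evs {m : ℕ} (μ : Fin (2 * m + 2) →₀ ℕ) : ℕ :=
  ∑ i : Fin (2 * m + 2), (1 - (i : ℕ) % 2) * μ i

/-- Sum of the halves of the indices. -/
def hlf {m : ℕ} (μ : Fin (2 * m + 2) →₀ ℕ) : ℕ :=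
  ∑ i : Fin (2 * m + 2), ((i : ℕ) / 2) * μ i

/-- The invariants; basis `e_0 = 1, e_1 = D, ..., e_(2m+1) = pt`. In degree `0` the integrals of
the ring with `e_(2i) = y^i`, `e_(2i+1) = D y^i`, `D^2 = d y`; in degree `1` the invariant
`⟨e_(2j+1), ...⟩` is `c` if the `j`s have sum `m`; all others vanish. -/
noncomputable def inv (m d c : ℕ) (β : Fin 1 →₀ ℕ) (μ : Fin (2 * m + 2) →₀ ℕ) : ℚ :=
  if β 0 = 0 then
    (if ∑ i, μ i = 3 ∧ ∑ i : Fin (2 * m + 2), (i : ℕ) * μ i = 2 * m + 1 then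
      (if evs μ = 0 then (d : ℚ) else 1) else 0)
  else if β 0 = 1 ∧ evs μ = 0 ∧ hlf μ = m then (c : ℚ) else 0

/-- The coefficient of `y^k` in `q exp(Σ t_(2j+1) y^j)`. -/
noncomputable def E (m k : ℕ) : MvPowerSeries (Fin 1 ⊕ Fin (2 * m + 2)) ℚ := fun n =>
  if n (Sum.inl 0) = 1 ∧ evs (n.comapDomain Sum.inr Sum.inr_injective.injOn) = 0 ∧
    hlf (n.comapDomain Sum.inr Sum.inr_injective.injOn) = k then
    1 / ∏ i : Fin (2 * m + 2), ((n (Sum.inr i))! : ℚ) else 0

noncomputable def G (m d c : ℕ) (s : ℕ) : MvPowerSeries (Fin 1 ⊕ Fin (2 * m + 2)) ℚ :=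
  (if s + 1 = m then cst (d : ℚ) * 1 else 0) + (if s ≤ m then cst (c : ℚ) * E m (m - s) else 0)

theorem G_eq_zero (m d c s : ℕ) (h : m < s) : G m d c s = 0 := by
  rw [G, if_neg (by omega), if_neg (by omega), add_zero]

theorem sum_three {m : ℕ} (w : Fin (2 * m + 2) → ℕ) (a b e : Fin (2 * m + 2))
    (μ : Fin (2 * m + 2) →₀ ℕ) :
    ∑ i, w i * (three a b e + μ) i = w a + w b + w e + ∑ i, w i * μ i := by
  have h : ∀ x : Fin (2 * m + 2), ∑ i, w i * (Finsupp.single x 1 : Fin (2 * m + 2) →₀ ℕ) i =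
      w x := by
    intro x
    rw [Finset.sum_eq_single x]
    · simp
    · intro i _ hi
      rw [Finsupp.single_eq_of_ne hi, mul_zero]
    · intro hx; exact absurd (Finset.mem_univ _) hx
  simp only [three, Finsupp.add_apply, mul_add, Finset.sum_add_distrib, h]

theorem num_aux (m d c a b e k To Wt Ev Hf : ℕ) (Pi : ℚ)
    (h0 : To = 0 → Wt = 0 ∧ Ev = 0 ∧ Hf = 0 ∧ Pi = 1) :
    (if k = 0 then
      (if 1 + 1 + 1 + To = 3 ∧ a + b + e + Wt = 2 * m + 1 then
        (if (1 - a % 2) + (1 - b % 2) + (1 - e % 2) + Ev = 0 then (d : ℚ) else 1) else 0)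
      else if k = 1 ∧ (1 - a % 2) + (1 - b % 2) + (1 - e % 2) + Ev = 0 ∧
        a / 2 + b / 2 + e / 2 + Hf = m then (c : ℚ) else 0 : ℚ) / Pi =
    (if a % 2 + b % 2 + e % 2 = 1 then
      (if a / 2 + b / 2 + e / 2 = m then (if k = 0 ∧ To = 0 then (1 : ℚ) else 0) else 0)
    else if a % 2 + b % 2 + e % 2 = 3 then
      (if a / 2 + b / 2 + e / 2 + 1 = m then
        (d : ℚ) * (if k = 0 ∧ To = 0 then (1 : ℚ) else 0) else 0) +
      (if a / 2 + b / 2 + e / 2 ≤ m then
        (c : ℚ) * (if k = 1 ∧ Ev = 0 ∧ Hf = m - (a / 2 + b / 2 + e / 2) then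
          1 / Pi else 0) else 0)
    else 0 : ℚ) := by
  rcases (by omega : k = 0 ∨ k = 1 ∨ 2 ≤ k) with rfl | rfl | hk
  · by_cases hT : To = 0
    · obtain ⟨h1, h2, h3, h4⟩ := h0 hT
      subst hT h1 h2 h3
      rw [h4]
      rcases (by omega : a % 2 + b % 2 + e % 2 = 0 ∨ a % 2 + b % 2 + e % 2 = 1 ∨
        a % 2 + b % 2 + e % 2 = 2 ∨ a % 2 + b % 2 + e % 2 = 3) with h | h | h | h
      · rw [if_pos rfl, if_neg (by omega), if_neg (by omega), if_neg (by omega)]
        simp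
      · by_cases hs : a / 2 + b / 2 + e / 2 = m
        · rw [if_pos rfl, if_pos (by omega), if_neg (by omega), if_pos h, if_pos hs]
          simp
        · rw [if_pos rfl, if_neg (by omega), if_pos h, if_neg hs]
          simp
      · rw [if_pos rfl, if_neg (by omega), if_neg (by omega), if_neg (by omega)]
        simp
      · by_cases hs : a / 2 + b / 2 + e / 2 + 1 = m
        · rw [if_pos rfl, if_pos (by omega), if_pos (by omega), if_neg (by omega), if_pos h,
            if_pos hs]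
          simp
        · rw [if_pos rfl, if_neg (by omega), if_neg (by omega), if_pos h, if_neg hs]
          simp
    · rw [if_pos rfl, if_neg (by omega), if_neg (by omega : ¬ ((0 : ℕ) = 0 ∧ To = 0)),
        if_neg (by omega : ¬ ((0 : ℕ) = 1 ∧ _))]
      simp
  · rw [if_neg (by omega : ¬ (1 : ℕ) = 0), if_neg (by omega : ¬ ((1 : ℕ) = 0 ∧ To = 0))]
    rcases (by omega : a % 2 + b % 2 + e % 2 = 0 ∨ a % 2 + b % 2 + e % 2 = 1 ∨
        a % 2 + b % 2 + e % 2 = 2 ∨ a % 2 + b % 2 + e % 2 = 3) with h | h | h | h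
    · rw [if_neg (by omega), if_neg (by omega), if_neg (by omega)]
      simp
    · rw [if_neg (by omega), if_pos h]
      simp
    · rw [if_neg (by omega), if_neg (by omega), if_neg (by omega)]
      simp
    · rw [if_neg (by omega : ¬ (a % 2 + b % 2 + e % 2 = 1)), if_pos h]
      by_cases hc : Ev = 0 ∧ a / 2 + b / 2 + e / 2 + Hf = m
      · have e1 : (1 : ℕ) = 1 ∧ (1 - a % 2) + (1 - b % 2) + (1 - e % 2) + Ev = 0 ∧
            a / 2 + b / 2 + e / 2 + Hf = m := by omega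
        have e2 : (1 : ℕ) = 1 ∧ Ev = 0 ∧ Hf = m - (a / 2 + b / 2 + e / 2) := by omega
        rw [if_pos e1, if_pos (by omega : a / 2 + b / 2 + e / 2 ≤ m), if_pos e2]
        simp [div_eq_mul_inv]
      · have e1 : ¬ ((1 : ℕ) = 1 ∧ (1 - a % 2) + (1 - b % 2) + (1 - e % 2) + Ev = 0 ∧
            a / 2 + b / 2 + e / 2 + Hf = m) := by omega
        rw [if_neg e1]
        by_cases hs : a / 2 + b / 2 + e / 2 ≤ m
        · have e2 : ¬ ((1 : ℕ) = 1 ∧ Ev = 0 ∧ Hf = m - (a / 2 + b / 2 + e / 2)) := by omega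
          rw [if_pos hs, if_neg e2]
          simp
        · rw [if_neg hs]
          simp
  · rw [if_neg (by omega : ¬ k = 0), if_neg (by omega), if_neg (by omega : ¬ (k = 0 ∧ To = 0)),
      if_neg (by omega : ¬ (k = 1 ∧ _))]
    simp

theorem C_mul_apply {m : ℕ} (x : ℚ) (f : MvPowerSeries (Fin 1 ⊕ Fin (2 * m + 2)) ℚ)
    (n : (Fin 1 ⊕ Fin (2 * m + 2)) →₀ ℕ) :
    ((cst x : MvPowerSeries (Fin 1 ⊕ Fin (2 * m + 2)) ℚ) * f) n = x * f n :=
  MvPowerSeries.coeff_C_mul n f x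

theorem one_apply {m : ℕ} (n : (Fin 1 ⊕ Fin (2 * m + 2)) →₀ ℕ) :
    (1 : MvPowerSeries (Fin 1 ⊕ Fin (2 * m + 2)) ℚ) n =
      if n (Sum.inl 0) = 0 ∧ ∑ i : Fin (2 * m + 2), n (Sum.inr i) = 0 then 1 else 0 := by
  have h : (1 : MvPowerSeries (Fin 1 ⊕ Fin (2 * m + 2)) ℚ) n = if n = 0 then 1 else 0 :=
    MvPowerSeries.coeff_one (R := ℚ) (n := n)
  rw [h]
  refine if_congr ?_ rfl rfl
  constructor
  · rintro rfl; simp
  · rintro ⟨h, h1⟩
    refine Finsupp.ext fun x => ?_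
    rcases x with i | i
    · rw [Subsingleton.elim i 0]; simpa using h
    · have := (Finset.sum_eq_zero_iff.mp h1) i (Finset.mem_univ _)
      simpa using this

theorem phi_table (m d c : ℕ) (a b e : Fin (2 * m + 2)) :
    series (inv m d c) (three a b e) = F m (G m d c) a b e := by
  funext n
  have hadd : ∀ f g : MvPowerSeries (Fin 1 ⊕ Fin (2 * m + 2)) ℚ, (f + g) n = f n + g n :=
    fun _ _ => rfl
  have hite : ∀ (p : Prop) [Decidable p] (f g : MvPowerSeries (Fin 1 ⊕ Fin (2 * m + 2)) ℚ),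
      (if p then f else g) n = if p then f n else g n := by
    intro p _ f g; split_ifs <;> rfl
  have hz : (0 : MvPowerSeries (Fin 1 ⊕ Fin (2 * m + 2)) ℚ) n = 0 := rfl
  unfold F H G
  rw [hite, hite, hite, hadd, hite, hite, C_mul_apply, C_mul_apply, one_apply, hz]
  unfold series inv E evs hlf
  have hto : ∑ i, (three a b e + n.comapDomain Sum.inr Sum.inr_injective.injOn) i =
      1 + 1 + 1 + ∑ i : Fin (2 * m + 2), n (Sum.inr i) := by
    have := sum_three (fun _ => 1) a b e (n.comapDomain Sum.inr Sum.inr_injective.injOn)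
    simpa using this
  rw [sum_three, sum_three, sum_three, hto]
  simp only [Finsupp.comapDomain_apply]
  refine num_aux m d c a b e _ _ _ _ _ _ ?_
  intro h
  have h1 : ∀ i : Fin (2 * m + 2), n (Sum.inr i) = 0 := fun i =>
    (Finset.sum_eq_zero_iff.mp h) i (Finset.mem_univ _)
  simp [h1]

end Odd

end Pool.Agent.GWFix
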