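import Pool.Agent.GWFix.Odd2

/-!
Formal genus zero theories of dimension `2m + 1` with Picard number one and without two point
invariants: all properties (helper53, MP_8133f0_ag).
-/

open scoped BigOperators Nat

namespace Pool.Agent.GWFix

namespace Odd

noncomputable def gg (m : ℕ) : Matrix (Fin (2 * m + 2)) (Fin (2 * m + 2)) ℚ :=
  Matrix.of fun a b => (hh m a b : ℚ)

theorem gg_mul (m : ℕ) : gg m * gg m = 1 := by
  ext a b
  rw [Matrix.mul_apply, Matrix.one_apply]
  simp only [gg, Matrix.of_apply]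
  have h := sum_hh (R := ℚ) m a a.isLt (fun x => (hh m x b : ℚ))
  rw [Finset.sum_range] at h
  rw [h, hh]
  have ha := a.isLt
  by_cases hab : a = b
  · subst hab
    rw [if_pos (by omega), if_pos rfl, Int.cast_one]
  · have : (a : ℕ) ≠ b := fun h => hab (Fin.ext h)
    rw [if_neg (by omega), if_neg hab, Int.cast_zero]

theorem cst_int {κ ι : Type} (z : ℤ) : (cst (z : ℚ) : MvPowerSeries (κ ⊕ ι) ℚ) = (z : _) := by
  exact map_intCast (MvPowerSeries.C : ℚ →+* MvPowerSeries (κ ⊕ ι) ℚ) z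

theorem unit_aux (m d c : ℕ) (a b : Fin (2 * m + 2)) :
    series (inv m d c) (three 0 a b) = cst (gg m a b) := by
  rw [phi_table, gg, Matrix.of_apply]
  unfold F H hh
  have h0 : ((0 : Fin (2 * m + 2)) : ℕ) = 0 := rfl
  rw [h0]
  have ha := a.isLt
  by_cases h : (a : ℕ) + b = 2 * m + 1
  · rw [if_pos (by omega), if_pos (by omega), if_pos h]
    simp [cst]
  · rw [if_neg h]
    by_cases h1 : 0 % 2 + (a : ℕ) % 2 + (b : ℕ) % 2 = 1
    · rw [if_pos h1, if_neg (by omega)]
      simp [cst]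
    · rw [if_neg h1, if_neg (by omega)]
      simp [cst]

theorem ne_zero_of (β : Fin 1 →₀ ℕ) (hβ : β ≠ 0) : β 0 ≠ 0 := by
  intro h
  apply hβ
  refine Finsupp.ext fun i => ?_
  rw [Subsingleton.elim i 0, h]
  rfl

theorem sum_add_single {m : ℕ} (w : Fin (2 * m + 2) → ℕ) (a : Fin (2 * m + 2)) (k : ℕ)
    (μ : Fin (2 * m + 2) →₀ ℕ) :
    ∑ i, w i * (μ + Finsupp.single a k) i = ∑ i, w i * μ i + w a * k := by
  simp only [Finsupp.add_apply, mul_add, Finset.sum_add_distrib]
  congr 1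
  rw [Finset.sum_eq_single a]
  · simp
  · intro i _ hi
    rw [Finsupp.single_eq_of_ne hi, mul_zero]
  · intro hx; exact absurd (Finset.mem_univ _) hx

theorem sum_single_add {m : ℕ} (w : Fin (2 * m + 2) → ℕ) (a : Fin (2 * m + 2)) (k : ℕ)
    (μ : Fin (2 * m + 2) →₀ ℕ) :
    ∑ i, w i * (Finsupp.single a k + μ) i = w a * k + ∑ i, w i * μ i := by
  rw [add_comm (Finsupp.single a k) μ, sum_add_single, add_comm]

/-- The formal theory. -/
noncomputable def theory (m d c : ℕ) : GenusZero (Fin 1) (Fin (2 * m + 2)) (Fin 0) where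
  inv := inv m d c
  invOdd := fun _ _ _ _ => 0
  one := 0
  pt := Fin.last (2 * m + 1)
  g := gg m
  ginv := gg m
  go := 0
  goinv := 0
  deg := fun _ i => if (i : ℕ) = 1 then 1 else 0
  g_symm := by
    intro a b
    simp only [gg, Matrix.of_apply, hh]
    rw [Nat.add_comm]
  g_mul_ginv := gg_mul m
  go_antisymm := fun r => r.elim0
  go_mul_goinv := Subsingleton.elim _ _
  invOdd_antisymm := fun _ r => r.elim0
  unit := unit_aux m d c
  wdvv := by
    intro a b e f
    simp only [phi_table]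
    have h : ∀ x y, (cst (gg m x y) : MvPowerSeries (Fin 1 ⊕ Fin (2 * m + 2)) ℚ) =
        (hh m x y : _) := by
      intro x y
      simp only [gg, Matrix.of_apply, cst_int]
    simp only [h]
    exact wdvv m (G m d c) (G_eq_zero m d c) a b e f
  unitOdd := fun r => r.elim0
  wdvvOdd := fun _ _ r => r.elim0
  divisor := by
    intro k β μ hβ
    have hk : k = 0 := Subsingleton.elim _ _
    subst hk
    have hb : β 0 ≠ 0 := ne_zero_of β hβ
    have h1 : ∀ i : Fin (2 * m + 2), (i : ℕ) = 1 →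
        inv m d c β (μ + Finsupp.single i 1) = (β 0 : ℚ) * inv m d c β μ := by
      intro i hi
      unfold inv
      rw [if_neg hb, if_neg hb]
      have e1 : evs (μ + Finsupp.single i 1) = evs μ := by
        unfold evs
        rw [sum_add_single, hi]
        simp
      have e2 : hlf (μ + Finsupp.single i 1) = hlf μ := by
        unfold hlf
        rw [sum_add_single, hi]
        simp
      rw [e1, e2]
      split_ifs with h
      · rw [h.1]; simp
      · simp
    have hlt : 1 < 2 * m + 2 := by omega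
    rw [Finset.sum_eq_single ⟨1, hlt⟩]
    · rw [if_pos rfl, one_mul]
      exact h1 _ rfl
    · intro i _ hi
      rw [if_neg (fun h => hi (Fin.ext h)), zero_mul]
    · intro h; exact absurd (Finset.mem_univ _) h
  constant := by
    intro μ
    unfold inv
    rw [if_pos (show (0 : Fin 1 →₀ ℕ) 0 = 0 from rfl), if_neg]
    rintro ⟨_, h2⟩
    rw [sum_single_add (fun i => (i : ℕ)) (Fin.last (2 * m + 1)) 2 μ] at h2
    simp only [Fin.val_last] at h2
    omega

theorem not_twoPoint (m d c : ℕ) (hm : 1 ≤ m) : ¬ (theory m d c).TwoPoint := by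
  rintro ⟨β, hβ, μ, h⟩
  apply h
  show inv m d c β (Finsupp.single (Fin.last (2 * m + 1)) 2 + μ) = 0
  unfold inv
  rw [if_neg (ne_zero_of β hβ), if_neg]
  rintro ⟨_, _, h3⟩
  unfold hlf at h3
  rw [sum_single_add (fun i => (i : ℕ) / 2) (Fin.last (2 * m + 1)) 2 μ] at h3
  simp only [Fin.val_last] at h3
  omega

theorem weight (m : ℕ) (μ : Fin (2 * m + 2) →₀ ℕ) :
    ∑ i : Fin (2 * m + 2), (i : ℕ) * μ i + evs μ = 2 * hlf μ + ∑ i, μ i := by
  unfold evs hlf
  rw [Finset.mul_sum, ← Finset.sum_add_distrib, ← Finset.sum_add_distrib]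
  refine Finset.sum_congr rfl fun i _ => ?_
  rw [← mul_assoc, ← add_mul, ← Nat.succ_mul]
  congr 1
  omega

/-- The dimension constraint in dimension `2m+1` with first Chern number `2` of the generator. -/
theorem dimension (m d c : ℕ) (β : Fin 1 →₀ ℕ) (μ : Fin (2 * m + 2) →₀ ℕ)
    (h : inv m d c β μ ≠ 0) :
    ∑ i : Fin (2 * m + 2), (i : ℕ) * μ i + 3 = (2 * m + 1) + 2 * β 0 + ∑ i, μ i := by
  have hw := weight m μ
  unfold inv at h
  by_cases h0 : β 0 = 0
  · rw [if_pos h0] at h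
    by_cases h1 : ∑ i, μ i = 3 ∧ ∑ i : Fin (2 * m + 2), (i : ℕ) * μ i = 2 * m + 1
    · rw [h1.1, h1.2, h0]
    · rw [if_neg h1] at h
      exact absurd rfl h
  · rw [if_neg h0] at h
    by_cases h1 : β 0 = 1 ∧ evs μ = 0 ∧ hlf μ = m
    · rw [h1.2.1, h1.2.2] at hw
      rw [h1.1]
      omega
    · rw [if_neg h1] at h
      exact absurd rfl h

theorem inv_nat (m d c : ℕ) (β : Fin 1 →₀ ℕ) (μ : Fin (2 * m + 2) →₀ ℕ) :
    ∃ k : ℕ, inv m d c β μ = k := by
  unfold inv
  split_ifs
  · exact ⟨d, rfl⟩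
  · exact ⟨1, by simp⟩
  · exact ⟨0, by simp⟩
  · exact ⟨c, rfl⟩
  · exact ⟨0, by simp⟩

theorem inv_deg_zero (m d c : ℕ) (a b e : Fin (2 * m + 2)) :
    inv m d c 0 (three a b e) = if (a : ℕ) + b + e = 2 * m + 1 then
      (if (a : ℕ) % 2 = 1 ∧ (b : ℕ) % 2 = 1 ∧ (e : ℕ) % 2 = 1 then (d : ℚ) else 1) else 0 := by
  unfold inv
  rw [if_pos (show (0 : Fin 1 →₀ ℕ) 0 = 0 from rfl)]
  have h1 : ∑ i, three a b e i = 3 := by
    have := sum_three (fun _ => 1) a b e 0
    simpa using this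
  have h2 : ∑ i : Fin (2 * m + 2), (i : ℕ) * three a b e i = a + b + e := by
    have := sum_three (fun i => (i : ℕ)) a b e 0
    simpa using this
  have h3 : evs (three a b e) = (1 - (a : ℕ) % 2) + (1 - (b : ℕ) % 2) + (1 - (e : ℕ) % 2) := by
    unfold evs
    have := sum_three (fun i => 1 - (i : ℕ) % 2) a b e 0
    simpa using this
  rw [h1, h2, h3]
  by_cases h4 : (a : ℕ) + b + e = 2 * m + 1
  · rw [if_pos ⟨rfl, h4⟩, if_pos h4]
    exact if_congr (by omega) rfl rfl
  · rw [if_neg (fun h => h4 h.2), if_neg h4]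

theorem through_point (m d c : ℕ) :
    inv m d c (Finsupp.single 0 1) (Finsupp.single (Fin.last (2 * m + 1)) 1) = c := by
  unfold inv
  have h0 : (Finsupp.single 0 1 : Fin 1 →₀ ℕ) 0 = 1 := by simp
  have h1 : evs (Finsupp.single (Fin.last (2 * m + 1)) 1 : Fin (2 * m + 2) →₀ ℕ) = 0 := by
    unfold evs
    have := sum_add_single (fun i => 1 - (i : ℕ) % 2) (Fin.last (2 * m + 1)) 1 0
    rw [zero_add] at this
    rw [this]
    simp only [Fin.val_last]
    have : (2 * m + 1) % 2 = 1 := by omega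
    simp [this]
  have h2 : hlf (Finsupp.single (Fin.last (2 * m + 1)) 1 : Fin (2 * m + 2) →₀ ℕ) = m := by
    unfold hlf
    have := sum_add_single (fun i => (i : ℕ) / 2) (Fin.last (2 * m + 1)) 1 0
    rw [zero_add] at this
    rw [this]
    simp only [Fin.val_last]
    have : (2 * m + 1) / 2 = m := by omega
    simp [this]
  rw [h0, h1, h2, if_neg one_ne_zero, if_pos ⟨rfl, rfl, rfl⟩]


end Odd

end Pool.Agent.GWFix
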