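import Pool.Agent.GWFix.Defs

/-!
The big quantum cohomology ring is a commutative ring (helper53, MP_8133f0_ag).
-/

open scoped BigOperators Nat

namespace Pool.Agent.GWFix

variable {κ ι ο : Type} [Fintype κ] [Fintype ι] [DecidableEq ι] [Fintype ο] [DecidableEq ο]

namespace GenusZero

variable (X : GenusZero κ ι ο)

theorem three_comm12 (a b c : ι) : three a b c = three b a c := by
  unfold three; abel

theorem three_comm23 (a b c : ι) : three a b c = three a c b := by
  unfold three; abel

theorem phi_comm12 (a b c : ι) : X.phi a b c = X.phi b a c := by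
  unfold phi; rw [three_comm12]

theorem phi_comm23 (a b c : ι) : X.phi a b c = X.phi a c b := by
  unfold phi; rw [three_comm23]

theorem ginv_mul_g : X.ginv * X.g = 1 := by
  exact mul_eq_one_comm.mp X.g_mul_ginv

theorem goinv_mul_go : X.goinv * X.go = 1 := by
  exact mul_eq_one_comm.mp X.go_mul_goinv

theorem g_transpose : X.g.transpose = X.g := by
  ext i j; exact X.g_symm j i

theorem ginv_symm (a b : ι) : X.ginv a b = X.ginv b a := by
  have h1 : X.ginv.transpose * X.g = 1 := by
    have := congrArg Matrix.transpose X.g_mul_ginv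
    rw [Matrix.transpose_mul, X.g_transpose, Matrix.transpose_one] at this
    exact this
  have h2 : X.ginv.transpose = X.ginv := by
    calc X.ginv.transpose = X.ginv.transpose * (X.g * X.ginv) := by
          rw [X.g_mul_ginv, mul_one]
      _ = X.ginv := by rw [← mul_assoc, h1, one_mul]
  exact congrFun (congrFun h2 b) a

theorem mulMat_apply (a b f : ι) :
    X.mulMat a b f = ∑ e, X.phi a b e * cst (X.ginv e f) := by
  simp [mulMat, Matrix.mul_apply]

theorem mulMatOdd_apply (a : ι) (r s : ο) :
    X.mulMatOdd a r s = ∑ u, X.psi a r u * cst (X.goinv u s) := by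
  simp [mulMatOdd, Matrix.mul_apply]

theorem mulMat_comm (a b f : ι) : X.mulMat a b f = X.mulMat b a f := by
  rw [mulMat_apply, mulMat_apply]
  exact Finset.sum_congr rfl fun e _ => by rw [X.phi_comm12]

theorem mulMat_one (b f : ι) : X.mulMat X.one b f = if b = f then 1 else 0 := by
  rw [mulMat_apply]
  have h : ∀ e, X.phi X.one b e = cst (X.g b e) := fun e => X.unit b e
  simp only [h]
  have : (∑ e, (cst (X.g b e) : X.Coeff) * cst (X.ginv e f)) = cst ((X.g * X.ginv) b f) := by
    rw [Matrix.mul_apply]
    simp [cst, map_sum, map_mul]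
  rw [this, X.g_mul_ginv, Matrix.one_apply]
  split_ifs <;> simp [cst]

theorem mulMatOdd_one : X.mulMatOdd X.one = 1 := by
  refine Matrix.ext fun r s => ?_
  rw [mulMatOdd_apply]
  have h : ∀ u, X.psi X.one r u = cst (X.go r u) := fun u => X.unitOdd r u
  simp only [h]
  have : (∑ u, (cst (X.go r u) : X.Coeff) * cst (X.goinv u s)) = cst ((X.go * X.goinv) r s) := by
    rw [Matrix.mul_apply]
    simp [cst, map_sum, map_mul]
  rw [this, X.go_mul_goinv, Matrix.one_apply, Matrix.one_apply]
  split_ifs <;> simp [cst]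

/-- Associativity on basis vectors. -/
theorem assoc_basis (a b c h : ι) :
    ∑ f, X.mulMat a b f * X.mulMat f c h = ∑ k, X.mulMat b c k * X.mulMat a k h := by
  have key : ∀ d, ∑ e, ∑ f, X.phi a b e * cst (X.ginv e f) * X.phi f c d =
      ∑ e, ∑ f, X.phi b c e * cst (X.ginv e f) * X.phi a f d := by
    intro d
    have h1 : ∑ e, ∑ f, X.phi b a e * cst (X.ginv e f) * X.phi f c d =
      ∑ e, ∑ f, X.phi b c e * cst (X.ginv e f) * X.phi f a d := X.wdvv b a c d
    calc ∑ e, ∑ f, X.phi a b e * cst (X.ginv e f) * X.phi f c d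
        = ∑ e, ∑ f, X.phi b a e * cst (X.ginv e f) * X.phi f c d :=
          Finset.sum_congr rfl fun e _ => Finset.sum_congr rfl fun f _ => by
            rw [X.phi_comm12 a b e]
      _ = ∑ e, ∑ f, X.phi b c e * cst (X.ginv e f) * X.phi f a d := h1
      _ = ∑ e, ∑ f, X.phi b c e * cst (X.ginv e f) * X.phi a f d :=
          Finset.sum_congr rfl fun e _ => Finset.sum_congr rfl fun f _ => by
            rw [X.phi_comm12 f a d]
  simp only [mulMat_apply]
  calc ∑ f, (∑ e, X.phi a b e * cst (X.ginv e f)) * (∑ d, X.phi f c d * cst (X.ginv d h))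
      = ∑ d, (∑ e, ∑ f, X.phi a b e * cst (X.ginv e f) * X.phi f c d) * cst (X.ginv d h) := by
        simp only [Finset.sum_mul, Finset.mul_sum]
        rw [Finset.sum_comm]
        refine (Finset.sum_congr rfl fun d _ => ?_)
        rw [Finset.sum_comm]
        exact Finset.sum_congr rfl fun e _ => Finset.sum_congr rfl fun f _ => by ring
    _ = ∑ d, (∑ e, ∑ f, X.phi b c e * cst (X.ginv e f) * X.phi a f d) * cst (X.ginv d h) := by
        exact Finset.sum_congr rfl fun d _ => by rw [key d]
    _ = ∑ f, (∑ e, X.phi b c e * cst (X.ginv e f)) * (∑ d, X.phi a f d * cst (X.ginv d h)) := by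
        simp only [Finset.sum_mul, Finset.mul_sum]
        symm
        rw [Finset.sum_comm]
        refine (Finset.sum_congr rfl fun d _ => ?_)
        rw [Finset.sum_comm]
        exact Finset.sum_congr rfl fun e _ => Finset.sum_congr rfl fun f _ => by ring

/-- The odd part is a module: associativity on basis vectors. -/
theorem assoc_basis_odd (a b : ι) :
    ∑ f, X.mulMat a b f • X.mulMatOdd f = X.mulMatOdd b * X.mulMatOdd a := by
  refine Matrix.ext fun r s => ?_
  have key : ∀ v, ∑ e, ∑ f, X.phi a b e * cst (X.ginv e f) * X.psi f r v =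
      ∑ u, ∑ w, X.psi b r u * cst (X.goinv u w) * X.psi a w v := fun v => X.wdvvOdd a b r v
  rw [Matrix.sum_apply, Matrix.mul_apply]
  simp only [Matrix.smul_apply, smul_eq_mul, mulMat_apply, mulMatOdd_apply]
  calc ∑ f, (∑ e, X.phi a b e * cst (X.ginv e f)) * (∑ v, X.psi f r v * cst (X.goinv v s))
      = ∑ v, (∑ e, ∑ f, X.phi a b e * cst (X.ginv e f) * X.psi f r v) * cst (X.goinv v s) := by
        simp only [Finset.sum_mul, Finset.mul_sum]
        rw [Finset.sum_comm]
        refine (Finset.sum_congr rfl fun d _ => ?_)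
        rw [Finset.sum_comm]
        exact Finset.sum_congr rfl fun e _ => Finset.sum_congr rfl fun f _ => by ring
    _ = ∑ v, (∑ u, ∑ w, X.psi b r u * cst (X.goinv u w) * X.psi a w v) * cst (X.goinv v s) := by
        exact Finset.sum_congr rfl fun d _ => by rw [key d]
    _ = ∑ w, (∑ u, X.psi b r u * cst (X.goinv u w)) * (∑ v, X.psi a w v * cst (X.goinv v s)) := by
        simp only [Finset.sum_mul, Finset.mul_sum]
        symm
        rw [Finset.sum_comm]
        refine (Finset.sum_congr rfl fun d _ => ?_)
        rw [Finset.sum_comm]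
        exact Finset.sum_congr rfl fun e _ => Finset.sum_congr rfl fun f _ => by ring

theorem L_apply (x : X.QH) (b f : ι) : X.L x b f = ∑ a, x a * X.mulMat a b f := by
  simp [L, Matrix.sum_apply]

theorem L_add (x y : X.QH) : X.L (x + y) = X.L x + X.L y := by
  unfold L
  rw [← Finset.sum_add_distrib]
  exact Finset.sum_congr rfl fun a _ => add_smul (x a) (y a) _

theorem Lodd_add (x y : X.QH) : X.Lodd (x + y) = X.Lodd x + X.Lodd y := by
  unfold Lodd
  rw [← Finset.sum_add_distrib]
  exact Finset.sum_congr rfl fun a _ => add_smul (x a) (y a) _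

theorem L_e (a : ι) : X.L (X.e a) = X.mulMat a := by
  unfold L e
  rw [Finset.sum_eq_single a]
  · rw [Pi.single_eq_same, one_smul]
  · intro b _ hb
    rw [Pi.single_eq_of_ne hb, zero_smul]
  · intro h; exact absurd (Finset.mem_univ a) h

theorem Lodd_e (a : ι) : X.Lodd (X.e a) = X.mulMatOdd a := by
  unfold Lodd e
  rw [Finset.sum_eq_single a]
  · rw [Pi.single_eq_same, one_smul]
  · intro b _ hb
    rw [Pi.single_eq_of_ne hb, zero_smul]
  · intro h; exact absurd (Finset.mem_univ a) h

/-- The row of the unit recovers the element. -/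
theorem L_row_one (x : X.QH) (f : ι) : X.L x X.one f = x f := by
  rw [L_apply, Finset.sum_eq_single f]
  · rw [mulMat_comm, mulMat_one, if_pos rfl, mul_one]
  · intro b _ hb
    rw [mulMat_comm, mulMat_one, if_neg hb, mul_zero]
  · intro h; exact absurd (Finset.mem_univ f) h

theorem L_injective : Function.Injective X.L := by
  intro x y h
  funext f
  rw [← X.L_row_one x f, ← X.L_row_one y f, h]

theorem L_qmul (x y : X.QH) : X.L (X.qmul x y) = X.L y * X.L x := by
  refine Matrix.ext fun c h => ?_
  rw [L_apply, Matrix.mul_apply]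
  simp only [L_apply, qmul]
  calc ∑ f, (∑ a, ∑ b, x a * y b * X.mulMat a b f) * X.mulMat f c h
      = ∑ a, ∑ b, x a * y b * ∑ f, X.mulMat a b f * X.mulMat f c h := by
        simp only [Finset.sum_mul, Finset.mul_sum]
        rw [Finset.sum_comm]
        refine Finset.sum_congr rfl fun a _ => ?_
        rw [Finset.sum_comm]
        exact Finset.sum_congr rfl fun b _ => Finset.sum_congr rfl fun f _ => by ring
    _ = ∑ a, ∑ b, x a * y b * ∑ k, X.mulMat b c k * X.mulMat a k h := by
        exact Finset.sum_congr rfl fun a _ => Finset.sum_congr rfl fun b _ => by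
          rw [X.assoc_basis]
    _ = ∑ k, (∑ b, y b * X.mulMat b c k) * ∑ a, x a * X.mulMat a k h := by
        simp only [Finset.sum_mul, Finset.mul_sum]
        symm
        rw [Finset.sum_comm]
        refine Finset.sum_congr rfl fun a _ => ?_
        rw [Finset.sum_comm]
        exact Finset.sum_congr rfl fun b _ => Finset.sum_congr rfl fun f _ => by ring

theorem Lodd_qmul (x y : X.QH) : X.Lodd (X.qmul x y) = X.Lodd y * X.Lodd x := by
  have h1 : X.Lodd (X.qmul x y) = ∑ a, ∑ b, (x a * y b) • ∑ f, X.mulMat a b f • X.mulMatOdd f := by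
    unfold Lodd qmul
    simp only [Finset.sum_smul, Finset.smul_sum, smul_smul]
    rw [Finset.sum_comm]
    refine Finset.sum_congr rfl fun a _ => ?_
    rw [Finset.sum_comm]
  rw [h1]
  unfold Lodd
  rw [Finset.sum_mul]
  rw [Finset.sum_comm]
  refine Finset.sum_congr rfl fun b _ => ?_
  rw [Finset.mul_sum]
  refine Finset.sum_congr rfl fun a _ => ?_
  rw [X.assoc_basis_odd, Matrix.smul_mul, Matrix.mul_smul, smul_smul, mul_comm]

theorem qmul_comm (x y : X.QH) : X.qmul x y = X.qmul y x := by
  funext f
  unfold qmul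
  rw [Finset.sum_comm]
  exact Finset.sum_congr rfl fun a _ => Finset.sum_congr rfl fun b _ => by
    rw [X.mulMat_comm]; ring

theorem L_one : X.L (X.e X.one) = 1 := by
  rw [L_e]
  refine Matrix.ext fun b f => ?_
  rw [mulMat_one, Matrix.one_apply]

theorem Lodd_one : X.Lodd (X.e X.one) = 1 := by
  rw [Lodd_e, mulMatOdd_one]

theorem qmul_add (x y z : X.QH) : X.qmul x (y + z) = X.qmul x y + X.qmul x z := by
  apply X.L_injective
  rw [L_qmul, L_add, L_add, L_qmul, L_qmul, add_mul]

theorem qmul_assoc (x y z : X.QH) : X.qmul (X.qmul x y) z = X.qmul x (X.qmul y z) := by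
  apply X.L_injective
  rw [L_qmul, L_qmul, L_qmul, L_qmul, mul_assoc]

theorem one_qmul (x : X.QH) : X.qmul (X.e X.one) x = x := by
  apply X.L_injective
  rw [L_qmul, L_one, mul_one]

theorem L_zero : X.L 0 = 0 := by
  unfold L
  exact Finset.sum_eq_zero fun a _ => zero_smul _ _

theorem Lodd_zero : X.Lodd 0 = 0 := by
  unfold Lodd
  exact Finset.sum_eq_zero fun a _ => zero_smul _ _

theorem qmul_zero (x : X.QH) : X.qmul x 0 = 0 := by
  apply X.L_injective
  rw [L_qmul, L_zero, zero_mul]

noncomputable instance : CommRing X.QH :=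
  { (inferInstance : AddCommGroup X.QH) with
    mul := X.qmul
    one := X.e X.one
    mul_assoc := X.qmul_assoc
    one_mul := X.one_qmul
    mul_one := fun x => by
      show X.qmul x (X.e X.one) = x
      rw [qmul_comm, one_qmul]
    left_distrib := X.qmul_add
    right_distrib := fun x y z => by
      show X.qmul (x + y) z = X.qmul x z + X.qmul y z
      rw [qmul_comm, qmul_add, qmul_comm, X.qmul_comm z y]
    zero_mul := fun x => by
      show X.qmul 0 x = 0
      rw [qmul_comm, qmul_zero]
    mul_zero := X.qmul_zero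
    mul_comm := X.qmul_comm }

theorem mul_def (x y : X.QH) : x * y = X.qmul x y := rfl

theorem one_def : (1 : X.QH) = X.e X.one := rfl

end GenusZero
end Pool.Agent.GWFix
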