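import Mathlib

/-!
Linear algebra: the rank of a square zero matrix commuting with a given one (helper53,
MP_8133f0_ag).
-/

open scoped BigOperators

namespace Pool.Agent.GWFix

open Module

theorem finrank_sup_finset {K V : Type*} [Field K] [AddCommGroup V] [Module K V]
    [FiniteDimensional K V] {J : Type*} (S : Finset J) (W : J → Submodule K V) :
    finrank K (S.sup W : Submodule K V) ≤ ∑ j ∈ S, finrank K (W j) := by
  classical
  induction S using Finset.induction_on with
  | empty => simp
  | insert a s ha ih =>
    rw [Finset.sup_insert, Finset.sum_insert ha]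
    have := Submodule.finrank_add_le_finrank_add_finrank (W a) (s.sup W)
    omega

theorem finrank_map_add {K V : Type*} [Field K] [AddCommGroup V] [Module K V]
    [FiniteDimensional K V] (p : V →ₗ[K] V) (F : Submodule K V) :
    finrank K (F.map p) + finrank K (LinearMap.ker p ⊓ F : Submodule K V) = finrank K F := by
  have h1 := (p.domRestrict F).finrank_range_add_finrank_ker
  have h2 : LinearMap.range (p.domRestrict F) = F.map p := by
    ext y
    constructor
    · rintro ⟨⟨x, hx⟩, rfl⟩
      exact ⟨x, hx, rfl⟩
    · rintro ⟨x, hx, rfl⟩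
      exact ⟨⟨x, hx⟩, rfl⟩
  have h3 : (LinearMap.ker (p.domRestrict F)).map F.subtype = LinearMap.ker p ⊓ F := by
    ext y
    constructor
    · rintro ⟨⟨x, hx⟩, hx2, rfl⟩
      exact ⟨hx2, hx⟩
    · rintro ⟨hy1, hy2⟩
      exact ⟨⟨y, hy2⟩, hy1, rfl⟩
  have h4 := Submodule.finrank_map_subtype_eq F (LinearMap.ker (p.domRestrict F))
  rw [h3] at h4
  rw [h2] at h1
  rw [h4]
  exact h1

/-- If `p^k = 0` on the stable subspace `E` then `p` has rank at most k-1 over k times the dimension of `E` on `E`. -/
theorem finrank_map_frac {K V : Type*} [Field K] [AddCommGroup V] [Module K V]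
    [FiniteDimensional K V] (p : V →ₗ[K] V) (k : ℕ) (hp : ∀ x, (p ^ k) x = 0)
    (E : Submodule K V) (hE : ∀ x ∈ E, p x ∈ E) :
    k * finrank K (E.map p) ≤ (k - 1) * finrank K E := by
  have h0 := finrank_map_add p E
  have hstep : ∀ n, finrank K (E.map (p ^ n)) ≤
      finrank K (E.map (p ^ (n + 1))) + finrank K (LinearMap.ker p ⊓ E : Submodule K V) := by
    intro n
    have hle : E.map (p ^ n) ≤ E := by
      induction n with
      | zero =>
        rintro y ⟨x, hx, rfl⟩
        exact hx
      | succ n ih =>
        rintro y ⟨x, hx, rfl⟩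
        rw [pow_succ']
        exact hE _ (ih ⟨x, hx, rfl⟩)
    have h1 : E.map (p ^ (n + 1)) = (E.map (p ^ n)).map p := by
      rw [pow_succ', ← Submodule.map_comp]
      rfl
    have h2 := finrank_map_add p (E.map (p ^ n))
    have h3 : finrank K (LinearMap.ker p ⊓ E.map (p ^ n) : Submodule K V) ≤
        finrank K (LinearMap.ker p ⊓ E : Submodule K V) :=
      Submodule.finrank_mono (inf_le_inf_left _ hle)
    rw [h1]
    omega
  have hsum : ∀ n, finrank K E ≤ finrank K (E.map (p ^ n)) +
      n * finrank K (LinearMap.ker p ⊓ E : Submodule K V) := by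
    intro n
    induction n with
    | zero =>
      have : E.map (p ^ 0) = E := by
        ext y
        constructor
        · rintro ⟨x, hx, rfl⟩
          exact hx
        · intro hy
          exact ⟨y, hy, rfl⟩
      rw [this]
      omega
    | succ n ih =>
      have := hstep n
      rw [Nat.succ_mul]
      omega
  have hk := hsum k
  have hz : E.map (p ^ k) = ⊥ := by
    rw [Submodule.eq_bot_iff]
    rintro y ⟨x, _, rfl⟩
    exact hp x
  rw [hz, finrank_bot, zero_add] at hk
  rcases Nat.eq_zero_or_pos k with rfl | hpos
  · simp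
  · obtain ⟨j, rfl⟩ : ∃ j, k = j + 1 := ⟨k - 1, by omega⟩
    rw [Nat.add_sub_cancel]
    set r := finrank K (E.map p)
    set t := finrank K (LinearMap.ker p ⊓ E : Submodule K V)
    set m := finrank K E
    have : (j + 1) * r + (j + 1) * t = (j + 1) * m := by rw [← mul_add, h0]
    have h5 : (j + 1) * m = j * m + m := by ring
    omega

/-- A matrix `P` with `P^k = 0` which commutes with `A` has rank at most the sum of
`⌊(k-1)m/k⌋` over the algebraic multiplicities `m` of the eigenvalues of `A`. -/
theorem rank_le_sum_frac {K : Type*} [Field K] [DecidableEq K] [IsAlgClosed K] {J : Type*}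
    [Fintype J] [DecidableEq J] (A P : Matrix J J K) (hc : A * P = P * A) (k : ℕ) (hk : 0 < k)
    (hP : P ^ k = 0) :
    P.rank ≤ ∑ μ ∈ A.charpoly.roots.toFinset, (k - 1) * A.charpoly.rootMultiplicity μ / k := by
  set f : Module.End K (J → K) := Matrix.toLin' A with hf
  set p : Module.End K (J → K) := Matrix.toLin' P with hpdef
  have hcomm : Commute f p := by
    show f * p = p * f
    have h1 : f * p = Matrix.toLin' (A * P) := (Matrix.toLin'_mul A P).symm
    have h2 : p * f = Matrix.toLin' (P * A) := (Matrix.toLin'_mul P A).symm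
    rw [h1, h2, hc]
  have hpp : ∀ x, (p ^ k) x = 0 := by
    intro x
    have h1 : p ^ k = Matrix.toLin' (P ^ k) := (Matrix.toLin'_pow P k).symm
    rw [h1, hP, map_zero, LinearMap.zero_apply]
  have hchar : f.charpoly = A.charpoly := Matrix.charpoly_toLin' A
  have hdim : ∀ μ, finrank K (f.maxGenEigenspace μ) = A.charpoly.rootMultiplicity μ := by
    intro μ
    rw [LinearMap.finrank_maxGenEigenspace_eq, hchar]
  have hrange : LinearMap.range p ≤
      (A.charpoly.roots.toFinset).sup fun μ => (f.maxGenEigenspace μ).map p := by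
    rw [LinearMap.range_eq_map, ← Module.End.iSup_maxGenEigenspace_eq_top f, Submodule.map_iSup]
    refine iSup_le fun μ => ?_
    by_cases hμ : μ ∈ A.charpoly.roots.toFinset
    · exact Finset.le_sup (f := fun μ => (f.maxGenEigenspace μ).map p) hμ
    · have h0 : A.charpoly.rootMultiplicity μ = 0 := by
        rw [Multiset.mem_toFinset] at hμ
        rw [← Polynomial.count_roots]
        exact Multiset.count_eq_zero_of_notMem hμ
      have h1 : f.maxGenEigenspace μ = ⊥ := by
        apply Submodule.finrank_eq_zero.mp
        rw [hdim, h0]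
      rw [h1, Submodule.map_bot]
      exact bot_le
  have hrk : P.rank = finrank K (LinearMap.range p) := rfl
  rw [hrk]
  refine (Submodule.finrank_mono hrange).trans ((finrank_sup_finset _ _).trans ?_)
  refine Finset.sum_le_sum fun μ _ => ?_
  rw [← hdim μ, Nat.le_div_iff_mul_le hk, mul_comm]
  exact finrank_map_frac p k hpp (f.maxGenEigenspace μ)
    (fun x hx => Module.End.mapsTo_maxGenEigenspace_of_comm hcomm μ hx)

theorem finrank_map_lt {K V : Type*} [Field K] [AddCommGroup V] [Module K V]
    [FiniteDimensional K V] (p : V →ₗ[K] V) (N : ℕ) (hp : ∀ x, (p ^ N) x = 0)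
    (E : Submodule K V) (hE : ∀ x ∈ E, p x ∈ E) (hpos : 0 < finrank K E) :
    finrank K (E.map p) < finrank K E := by
  have hle : E.map p ≤ E := by
    rintro y ⟨x, hx, rfl⟩
    exact hE x hx
  by_contra hc
  have heq : E.map p = E := Submodule.eq_of_le_of_finrank_le hle (by omega)
  have hpow : ∀ n, E.map (p ^ n) = E := by
    intro n
    induction n with
    | zero =>
      ext y
      constructor
      · rintro ⟨x, hx, rfl⟩
        exact hx
      · intro hy
        exact ⟨y, hy, rfl⟩
    | succ n ih =>
      have h1 : E.map (p ^ (n + 1)) = (E.map (p ^ n)).map p := by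
        rw [pow_succ', ← Submodule.map_comp]
        rfl
      rw [h1, ih, heq]
  have h2 : E = ⊥ := by
    rw [← hpow N, Submodule.eq_bot_iff]
    rintro y ⟨x, _, rfl⟩
    exact hp x
  rw [h2, finrank_bot] at hpos
  exact lt_irrefl 0 hpos

/-- A nilpotent matrix `P` which commutes with `A` has rank at most the size minus the number of
eigenvalues of `A`. -/
theorem rank_add_card_roots_le {K : Type*} [Field K] [DecidableEq K] [IsAlgClosed K] {J : Type*}
    [Fintype J] [DecidableEq J] (A P : Matrix J J K) (hc : A * P = P * A) (hP : IsNilpotent P) :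
    P.rank + A.charpoly.roots.toFinset.card ≤ Fintype.card J := by
  obtain ⟨N, hN⟩ := hP
  set f : Module.End K (J → K) := Matrix.toLin' A with hf
  set p : Module.End K (J → K) := Matrix.toLin' P with hpdef
  have hcomm : Commute f p := by
    show f * p = p * f
    have h1 : f * p = Matrix.toLin' (A * P) := (Matrix.toLin'_mul A P).symm
    have h2 : p * f = Matrix.toLin' (P * A) := (Matrix.toLin'_mul P A).symm
    rw [h1, h2, hc]
  have hpp : ∀ x, (p ^ N) x = 0 := by
    intro x
    have h1 : p ^ N = Matrix.toLin' (P ^ N) := (Matrix.toLin'_pow P N).symm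
    rw [h1, hN, map_zero, LinearMap.zero_apply]
  have hchar : f.charpoly = A.charpoly := Matrix.charpoly_toLin' A
  have hA : A.charpoly ≠ 0 := A.charpoly_monic.ne_zero
  have hdim : ∀ μ, finrank K (f.maxGenEigenspace μ) = A.charpoly.rootMultiplicity μ := by
    intro μ
    rw [LinearMap.finrank_maxGenEigenspace_eq, hchar]
  have hrange : LinearMap.range p ≤
      (A.charpoly.roots.toFinset).sup fun μ => (f.maxGenEigenspace μ).map p := by
    rw [LinearMap.range_eq_map, ← Module.End.iSup_maxGenEigenspace_eq_top f, Submodule.map_iSup]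
    refine iSup_le fun μ => ?_
    by_cases hμ : μ ∈ A.charpoly.roots.toFinset
    · exact Finset.le_sup (f := fun μ => (f.maxGenEigenspace μ).map p) hμ
    · have h0 : A.charpoly.rootMultiplicity μ = 0 := by
        rw [Multiset.mem_toFinset] at hμ
        rw [← Polynomial.count_roots]
        exact Multiset.count_eq_zero_of_notMem hμ
      have h1 : f.maxGenEigenspace μ = ⊥ := by
        apply Submodule.finrank_eq_zero.mp
        rw [hdim, h0]
      rw [h1, Submodule.map_bot]
      exact bot_le
  have hrk : P.rank = finrank K (LinearMap.range p) := rfl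
  have h1 : P.rank ≤ ∑ μ ∈ A.charpoly.roots.toFinset, (A.charpoly.rootMultiplicity μ - 1) := by
    rw [hrk]
    refine (Submodule.finrank_mono hrange).trans ((finrank_sup_finset _ _).trans ?_)
    refine Finset.sum_le_sum fun μ hμ => ?_
    have hpos : 0 < finrank K (f.maxGenEigenspace μ) := by
      rw [hdim, ← Polynomial.count_roots]
      exact Multiset.count_pos.mpr (Multiset.mem_toFinset.mp hμ)
    have := finrank_map_lt p N hpp (f.maxGenEigenspace μ)
      (fun x hx => Module.End.mapsTo_maxGenEigenspace_of_comm hcomm μ hx) hpos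
    rw [← hdim μ]
    omega
  have h2 : ∑ μ ∈ A.charpoly.roots.toFinset, (A.charpoly.rootMultiplicity μ - 1) +
      A.charpoly.roots.toFinset.card = Multiset.card A.charpoly.roots := by
    rw [Finset.card_eq_sum_ones, ← Finset.sum_add_distrib, ← Multiset.toFinset_sum_count_eq]
    refine Finset.sum_congr rfl fun μ hμ => ?_
    have hpos : 0 < Multiset.count μ A.charpoly.roots :=
      Multiset.count_pos.mpr (Multiset.mem_toFinset.mp hμ)
    rw [Polynomial.count_roots] at hpos ⊢
    omega
  have h3 : Multiset.card A.charpoly.roots ≤ Fintype.card J := by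
    have := A.charpoly.card_roots'
    rwa [Matrix.charpoly_natDegree_eq_dim] at this
  omega

/-- A matrix with linearly independent rows has a right inverse. -/
theorem exists_right_inverse {K : Type*} [Field K] {J : Type*} [Fintype J] [DecidableEq J] {r : ℕ}
    (v : Fin r → J → K) (hv : LinearIndependent K v) :
    ∃ B : Matrix J (Fin r) K, Matrix.of v * B = 1 := by
  have h1 : Function.Injective (Matrix.of v).vecMulLinear := by
    have h := (Matrix.vecMul_injective_iff (M := Matrix.of v)).mpr hv
    exact h
  obtain ⟨g, hg⟩ := LinearMap.exists_leftInverse_of_injective (Matrix.of v).vecMulLinear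
    (LinearMap.ker_eq_bot.mpr h1)
  refine ⟨(LinearMap.toMatrix' g).transpose, ?_⟩
  apply Matrix.ext_iff_vecMul.mpr
  intro x
  rw [← Matrix.vecMul_vecMul, Matrix.vecMul_transpose, Matrix.vecMul_one]
  have h2 : (LinearMap.toMatrix' g).mulVec (Matrix.vecMul x (Matrix.of v)) =
      g ((Matrix.of v).vecMulLinear x) := by
    rw [← Matrix.toLin'_apply, Matrix.toLin'_toMatrix']
    rfl
  rw [h2]
  exact LinearMap.congr_fun hg x

end Pool.Agent.GWFix
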