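import Pool.Agent.GWFix.Swept
import Pool.Agent.GWFix.Spec1

/-!
The rank of quantum multiplication by the point class from below (helper53, MP_8133f0_ag).
-/

open scoped BigOperators Nat

namespace Pool.Agent.GWFix

open Module

variable {ι ο : Type} [Fintype ι] [DecidableEq ι] [Fintype ο] [DecidableEq ο]

theorem cf_one (β : ℕ) : cf β (1 : MvPowerSeries (Fin 1 ⊕ ι) ℚ) = if β = 0 then 1 else 0 := by
  classical
  unfold cf
  rw [MvPowerSeries.coeff_one]
  by_cases h : β = 0
  · rw [if_pos h, if_pos]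
    rw [h, Finsupp.single_zero]
  · rw [if_neg h, if_neg]
    intro h2
    exact h (Finsupp.single_eq_zero.mp h2)

theorem cf_zero (β : ℕ) : cf β (0 : MvPowerSeries (Fin 1 ⊕ ι) ℚ) = 0 := by
  unfold cf; rw [map_zero]

/-- Restriction to `t = 0`. -/
noncomputable def sm : MvPowerSeries (Fin 1 ⊕ ι) ℚ →+* PowerSeries ℚ where
  toFun s := PowerSeries.mk fun β => cf β s
  map_one' := by
    ext β
    rw [PowerSeries.coeff_mk, cf_one, PowerSeries.coeff_one]
  map_mul' s t := by
    ext β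
    rw [PowerSeries.coeff_mk, cf_mul, PowerSeries.coeff_mul]
    exact Finset.sum_congr rfl fun p _ => by
      rw [PowerSeries.coeff_mk, PowerSeries.coeff_mk]
  map_zero' := by
    ext β
    rw [PowerSeries.coeff_mk, cf_zero, map_zero]
  map_add' s t := by
    ext β
    rw [PowerSeries.coeff_mk, cf_add, map_add, PowerSeries.coeff_mk, PowerSeries.coeff_mk]

theorem coeff_sm (β : ℕ) (s : MvPowerSeries (Fin 1 ⊕ ι) ℚ) :
    PowerSeries.coeff β (sm s) = cf β s := by
  show PowerSeries.coeff β (PowerSeries.mk fun β => cf β s) = cf β s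
  rw [PowerSeries.coeff_mk]

/-- Semicontinuity of the rank. -/
theorem le_rank_of_lead {K : Type*} [Field K] (ev : MvPowerSeries (Fin 1 ⊕ ι) ℚ →+* K)
    (hev : ∀ s, ev s = 0 → ∀ β, cf β s = 0) {r : ℕ}
    (Z : Matrix (Fin r) ι (MvPowerSeries (Fin 1 ⊕ ι) ℚ)) (b : Fin r → ℕ)
    (hlow : ∀ i f, ∀ β < b i, cf β (Z i f) = 0)
    (hlead : LinearIndependent ℚ (fun i f => cf (b i) (Z i f))) : r ≤ (Z.map ev).rank := by
  obtain ⟨B, hB⟩ := exists_right_inverse (fun i f => cf (b i) (Z i f)) hlead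
  let Bc : Matrix ι (Fin r) (MvPowerSeries (Fin 1 ⊕ ι) ℚ) := B.map fun x => cst x
  have hcf : ∀ β i j, cf β ((Z * Bc) i j) = ∑ f, cf β (Z i f) * B f j := by
    intro β i j
    rw [Matrix.mul_apply, cf_sum]
    exact Finset.sum_congr rfl fun f _ => cf_mul_cst _ _ _
  have hdvd : ∀ i j, ∃ w, sm ((Z * Bc) i j) = PowerSeries.X ^ b i * w := by
    intro i j
    have h : (PowerSeries.X : PowerSeries ℚ) ^ b i ∣ sm ((Z * Bc) i j) := by
      rw [PowerSeries.X_pow_dvd_iff]
      intro m hm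
      rw [coeff_sm, hcf]
      exact Finset.sum_eq_zero fun f _ => by rw [hlow i f m hm, zero_mul]
    exact h
  choose W hW using hdvd
  have hW0 : ∀ i j, PowerSeries.constantCoeff (W i j) = (1 : Matrix (Fin r) (Fin r) ℚ) i j := by
    intro i j
    rw [← hB, Matrix.mul_apply]
    have h1 : PowerSeries.coeff (b i) (sm ((Z * Bc) i j)) =
        PowerSeries.constantCoeff (W i j) := by
      rw [hW, PowerSeries.coeff_X_pow_mul' , if_pos le_rfl, Nat.sub_self,
        PowerSeries.coeff_zero_eq_constantCoeff_apply]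
    rw [← h1, coeff_sm, hcf]
    rfl
  have hdet : sm (Z * Bc).det ≠ 0 := by
    rw [RingHom.map_det]
    have h1 : sm.mapMatrix (Z * Bc) =
        Matrix.of fun i j => (PowerSeries.X ^ b i : PowerSeries ℚ) * Matrix.of W i j := by
      ext1 i j
      show sm ((Z * Bc) i j) = _
      rw [hW]
      rfl
    rw [h1, Matrix.det_mul_column]
    refine mul_ne_zero (Finset.prod_ne_zero_iff.mpr fun i _ =>
      pow_ne_zero _ PowerSeries.X_ne_zero) ?_
    intro h2
    have h3 := congrArg (PowerSeries.constantCoeff (R := ℚ)) h2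
    rw [RingHom.map_det, map_zero] at h3
    have h4 : (PowerSeries.constantCoeff (R := ℚ)).mapMatrix (Matrix.of W) =
        (1 : Matrix (Fin r) (Fin r) ℚ) := by
      ext1 i j
      exact hW0 i j
    rw [h4, Matrix.det_one] at h3
    exact one_ne_zero h3
  have hev2 : ev (Z * Bc).det ≠ 0 := by
    intro h
    apply hdet
    ext β
    rw [coeff_sm, hev _ h β, map_zero]
  have h5 : ((Z * Bc).map ev).rank = r := by
    have h6 : IsUnit ((Z * Bc).map ev) := by
      rw [Matrix.isUnit_iff_isUnit_det]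
      have h7 : ((Z * Bc).map ev).det = ev (Z * Bc).det := by
        rw [RingHom.map_det]; rfl
      rw [h7]
      exact isUnit_iff_ne_zero.mpr hev2
    rw [Matrix.rank_of_isUnit _ h6, Fintype.card_fin]
  have h8 : (Z * Bc).map ev = Z.map ev * Bc.map ev := Matrix.map_mul
  calc r = ((Z * Bc).map ev).rank := h5.symm
    _ = (Z.map ev * Bc.map ev).rank := by rw [h8]
    _ ≤ (Z.map ev).rank := Matrix.rank_mul_le_left _ _

/-- Powers of a nilpotent matrix applied to a vector. -/
theorem linearIndependent_vecMul_pow {J : Type} [Fintype J] [DecidableEq J] (M : Matrix J J ℚ)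
    (hM : IsNilpotent M) (v : J → ℚ) (k : ℕ) (hk : Matrix.vecMul v (M ^ k) ≠ 0) :
    LinearIndependent ℚ (fun i : Fin (k + 1) => Matrix.vecMul v (M ^ (i : ℕ))) := by
  classical
  obtain ⟨m0, hm0⟩ := hM
  have hex : ∃ m, Matrix.vecMul v (M ^ m) = 0 := ⟨m0, by rw [hm0, Matrix.vecMul_zero]⟩
  have hmono : ∀ m m', Matrix.vecMul v (M ^ m) = 0 → m ≤ m' → Matrix.vecMul v (M ^ m') = 0 := by
    intro m m' h hle
    obtain ⟨d, rfl⟩ := Nat.exists_eq_add_of_le hle
    rw [pow_add, ← Matrix.vecMul_vecMul, h, Matrix.zero_vecMul]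
  set N1 := Nat.find hex with hN1
  have h1 : Matrix.vecMul v (M ^ N1) = 0 := Nat.find_spec hex
  have h2 : k < N1 := by
    by_contra hc
    exact hk (hmono N1 k h1 (by omega))
  have h3 : Matrix.vecMul v (M ^ (N1 - 1)) ≠ 0 := Nat.find_min hex (by omega)
  rw [Fintype.linearIndependent_iff]
  intro c hc
  have key : ∀ n, ∀ i : Fin (k + 1), (i : ℕ) = n → c i = 0 := by
    intro n
    induction n using Nat.strong_induction_on with
    | _ n ih =>
      intro i hi
      have h4 : Matrix.vecMul (∑ j, c j • Matrix.vecMul v (M ^ (j : ℕ))) (M ^ (N1 - 1 - n)) = 0 := by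
        rw [hc, Matrix.zero_vecMul]
      have h5 : Matrix.vecMul (∑ j, c j • Matrix.vecMul v (M ^ (j : ℕ))) (M ^ (N1 - 1 - n)) =
          c i • Matrix.vecMul v (M ^ (N1 - 1)) := by
        rw [Matrix.sum_vecMul, Finset.sum_eq_single i]
        · rw [Matrix.smul_vecMul, Matrix.vecMul_vecMul, ← pow_add]
          congr 3
          have := i.2
          omega
        · intro j _ hj
          rw [Matrix.smul_vecMul, Matrix.vecMul_vecMul, ← pow_add]
          rcases lt_trichotomy (j : ℕ) n with hlt | heq | hgt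
          · rw [ih j hlt j rfl, zero_smul]
          · exact absurd (Fin.ext (by rw [heq, hi])) hj
          · rw [hmono N1 _ h1 (by omega), smul_zero]
        · intro h; exact absurd (Finset.mem_univ _) h
      rw [h5] at h4
      exact (smul_eq_zero.mp h4).resolve_right h3
  exact fun i => key i i rfl

namespace GenusZero

variable (X : GenusZero (Fin 1) ι ο)

/-- The ideal of the classical cohomology ring generated by the classes `v(γ)`, the class whose
pairing with every `ε` is `⟨pt, γ, ε⟩` in degree `b γ`: it is spanned by the products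
`v(γ) ∪ e_(α_1) ∪ ... ∪ e_(α_r)`. -/
def sweptIdeal (b : ι → ℕ) : Submodule ℚ (ι → ℚ) :=
  Submodule.span ℚ {w | ∃ γ, ∃ l : List ι,
    w = Matrix.vecMul (X.swept γ (b γ)) (l.map X.cup).prod}

theorem mul_pt_apply (y : X.QH) (i f : ι) :
    (y * X.e i) f = ∑ a, y a * X.L (X.e i) a f := by
  rw [mul_e_apply, L_apply]
  exact Finset.sum_congr rfl fun a _ => by rw [L_e, X.mulMat_comm a i f]

theorem finrank_sweptIdeal_le (b : ι → ℕ)
    (hb : ∀ γ, ∀ β < b γ, ∀ ε, X.N β X.pt γ ε = 0) {K : Type*} [Field K]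
    (ev : X.Coeff →+* K) (hev : ∀ s, ev s = 0 → ∀ β, cf β s = 0) :
    finrank ℚ (X.sweptIdeal b) ≤ ((X.L (X.e X.pt)).map ev).rank := by
  obtain ⟨w, hw, _, hind⟩ := Submodule.exists_fun_fin_finrank_span_eq ℚ {w | ∃ γ, ∃ l : List ι,
    w = Matrix.vecMul (X.swept γ (b γ)) (l.map X.cup).prod}
  choose γ l hl using hw
  let y : Fin (finrank ℚ (X.sweptIdeal b)) → X.QH :=
    fun i => X.e (γ i) * ((l i).map X.e).prod
  have hz : ∀ i, y i * X.e X.pt = X.e X.pt * X.e (γ i) * ((l i).map X.e).prod := by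
    intro i
    simp only [y]
    ring
  let Z : Matrix (Fin (finrank ℚ (X.sweptIdeal b))) ι X.Coeff :=
    Matrix.of fun i f => (y i * X.e X.pt) f
  have hlow : ∀ i, X.Low (b (γ i)) (y i * X.e X.pt) ∧
      X.lead (b (γ i)) (y i * X.e X.pt) = w i := by
    intro i
    obtain ⟨h1, h2⟩ := X.low_list (X.low_sweep (γ i) (b (γ i)) (hb (γ i))) (l i)
    rw [hz i]
    refine ⟨h1, ?_⟩
    rw [h2, X.lead_sweep, hl i]
  have h1 : finrank ℚ (X.sweptIdeal b) ≤ (Z.map ev).rank := by
    apply le_rank_of_lead ev hev Z fun i => b (γ i)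
    · intro i f β hβ
      exact (hlow i).1 β hβ f
    · have h2 : (fun i f => cf (b (γ i)) (Z i f)) = w := by
        funext i
        exact (hlow i).2
      exact (congrArg (fun u => LinearIndependent ℚ u) h2).mpr hind
  have h3 : Z = (Matrix.of fun i a => y i a) * X.L (X.e X.pt) := by
    ext1 i f
    rw [Matrix.mul_apply]
    exact X.mul_pt_apply (y i) X.pt f
  have h4 : Z.map ev = (Matrix.of fun i a => y i a).map ev * (X.L (X.e X.pt)).map ev := by
    rw [h3]; exact Matrix.map_mul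
  rw [h4] at h1
  exact h1.trans (Matrix.rank_mul_le_right _ _)

theorem le_finrank_sweptIdeal (b : ι → ℕ) (γ D : ι)
    (hD : IsNilpotent (X.cup D)) (k : ℕ)
    (hk : Matrix.vecMul (X.swept γ (b γ)) (X.cup D ^ k) ≠ 0) :
    k + 1 ≤ finrank ℚ (X.sweptIdeal b) := by
  have hmem : ∀ i : Fin (k + 1), Matrix.vecMul (X.swept γ (b γ)) (X.cup D ^ (i : ℕ)) ∈
      X.sweptIdeal b := by
    intro i
    apply Submodule.subset_span
    refine ⟨γ, List.replicate i D, ?_⟩
    rw [List.map_replicate, List.prod_replicate]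
  let u : Fin (k + 1) → X.sweptIdeal b := fun i => ⟨_, hmem i⟩
  have hu : LinearIndependent ℚ u := by
    apply LinearIndependent.of_comp (X.sweptIdeal b).subtype
    exact linearIndependent_vecMul_pow (X.cup D) hD _ k hk
  have := hu.fintype_card_le_finrank
  rwa [Fintype.card_fin] at this

/-- Quantum multiplication by `Σ x_i e_i` at the `K`-valued point `ev`. -/
noncomputable def opAt {K : Type*} [Field K] (ev : X.Coeff →+* K) (x : ι → K) : Matrix ι ι K :=
  ∑ i, x i • (X.mulMat i).map ev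

theorem opAt_comm {K : Type*} [Field K] (ev : X.Coeff →+* K) (x : ι → K) (j : ι) :
    X.opAt ev x * (X.L (X.e j)).map ev = (X.L (X.e j)).map ev * X.opAt ev x := by
  unfold opAt
  rw [Finset.sum_mul, Finset.mul_sum]
  refine Finset.sum_congr rfl fun i _ => ?_
  rw [Matrix.smul_mul, Matrix.mul_smul, ← L_e]
  congr 1
  have h1 : (X.L (X.e i)).map ev * (X.L (X.e j)).map ev =
      (X.L (X.e i) * X.L (X.e j)).map ev := Matrix.map_mul.symm
  have h2 : (X.L (X.e j)).map ev * (X.L (X.e i)).map ev =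
      (X.L (X.e j) * X.L (X.e i)).map ev := Matrix.map_mul.symm
  rw [h1, h2, ← L_mul, ← L_mul, mul_comm]

theorem sq_map {K : Type*} [Field K] (ev : X.Coeff →+* K) :
    (X.L (X.e X.pt)).map ev * (X.L (X.e X.pt)).map ev =
      (X.L (X.e X.pt * X.e X.pt)).map ev := by
  rw [L_mul]
  exact Matrix.map_mul.symm

/-- Upper bound. -/
theorem finrank_le_sum_frac (b : ι → ℕ)
    (hb : ∀ γ, ∀ β < b γ, ∀ ε, X.N β X.pt γ ε = 0) {K : Type*} [Field K] [DecidableEq K]
    [IsAlgClosed K] (ev : X.Coeff →+* K) (hev : ∀ s, ev s = 0 → ∀ β, cf β s = 0) (k : ℕ)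
    (hk : 0 < k) (hpow : (X.L (X.e X.pt)).map ev ^ k = 0) (x : ι → K) :
    finrank ℚ (X.sweptIdeal b) ≤ ∑ μ ∈ (X.opAt ev x).charpoly.roots.toFinset,
      (k - 1) * (X.opAt ev x).charpoly.rootMultiplicity μ / k :=
  (X.finrank_sweptIdeal_le b hb ev hev).trans
    (rank_le_sum_frac _ _ (X.opAt_comm ev x X.pt) k hk hpow)

theorem pow_map_zero {K : Type*} [Field K] (ev : X.Coeff →+* K) (N : ℕ)
    (hN : X.e X.pt ^ N = 0) : (X.L (X.e X.pt)).map ev ^ N = 0 := by
  have h2 : (X.L (X.e X.pt)).map ev = ev.mapMatrix (X.L (X.e X.pt)) := rfl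
  rw [h2, ← map_pow, ← L_pow, hN, L_zero, map_zero]

theorem manyPoints_of_card_lt (b : ι → ℕ)
    (hb : ∀ γ, ∀ β < b γ, ∀ ε, X.N β X.pt γ ε = 0) {K : Type*} [Field K] [DecidableEq K]
    [IsAlgClosed K] (ev : X.Coeff →+* K) (hev : ∀ s, ev s = 0 → ∀ β, cf β s = 0) (x : ι → K)
    (h : Fintype.card ι < finrank ℚ (X.sweptIdeal b) +
      (X.opAt ev x).charpoly.roots.toFinset.card) : X.ManyPoints := by
  rw [manyPoints_iff]
  rintro ⟨N, hN⟩
  have h1 : IsNilpotent ((X.L (X.e X.pt)).map ev) := ⟨N, X.pow_map_zero ev N hN⟩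
  have h3 := rank_add_card_roots_le _ _ (X.opAt_comm ev x X.pt) h1
  have h4 := X.finrank_sweptIdeal_le b hb ev hev
  omega

theorem sq_zero_small (h : ∀ β, 0 < β → ∀ ε, X.N β X.pt X.pt ε = 0) {K : Type*} [Field K]
    (ev : X.Coeff →+* K) (hev : ∀ s, (∀ β, cf β s = 0) → ev s = 0) :
    (X.L (X.e X.pt * X.e X.pt)).map ev = 0 := by
  have h4 : ∀ b, X.Low b (X.e X.pt * X.e X.pt) := by
    intro b
    apply low_sweep
    intro β _ ε
    rcases Nat.eq_zero_or_pos β with rfl | hpos
    · have h5 : three X.pt X.pt ε = Finsupp.single X.pt 2 + Finsupp.single ε 1 := by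
        have : (Finsupp.single X.pt 2 : ι →₀ ℕ) =
            Finsupp.single X.pt 1 + Finsupp.single X.pt 1 := by
          rw [← Finsupp.single_add]
        rw [this, three]
      unfold N
      rw [h5, Finsupp.single_zero, X.constant]
    · exact h β hpos ε
  ext i j
  show ev (X.L (X.e X.pt * X.e X.pt) i j) = 0
  apply hev
  intro β
  rw [← mul_e_apply]
  exact X.low_mul_e (h4 (β + 1)) i β (Nat.lt_succ_self β) j

end GenusZero
end Pool.Agent.GWFix
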