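import Pool.Agent.GWFix.Swept2
import Pool.Agent.GWFix.Spec2

/-!
The spectral criterion (helper53, MP_8133f0_ag).
-/

open scoped BigOperators Nat

namespace Pool.Agent.GWFix

open Module

variable {ι ο : Type} [Fintype ι] [DecidableEq ι] [Fintype ο] [DecidableEq ο]

namespace GenusZero

variable (X : GenusZero (Fin 1) ι ο)

theorem pair_swept (γ : ι) (b : ℕ) (w : ι → ℚ) :
    X.pair (X.swept γ b) w = ∑ ε, w ε * X.N b X.pt γ ε := by
  unfold pair
  rw [Finset.sum_comm]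
  refine Finset.sum_congr rfl fun ε _ => ?_
  rw [← X.swept_g γ b ε, Finset.mul_sum]
  exact Finset.sum_congr rfl fun f _ => by ring

theorem vecMul_ne_zero_of_invariant (γ D : ι) (b k : ℕ)
    (h : ∑ ε, X.power D k ε * X.N b X.pt γ ε ≠ 0) :
    Matrix.vecMul (X.swept γ b) (X.cup D ^ k) ≠ 0 := by
  intro h0
  apply h
  rw [← pair_swept]
  have h1 : X.pair (X.swept γ b) (X.power D k) =
      X.pair (Matrix.vecMul (X.swept γ b) (X.cup D ^ k)) (Pi.single X.one 1) := by
    rw [pair_cup_pow]; rfl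
  rw [h1, h0]
  unfold pair
  exact Finset.sum_eq_zero fun a _ => Finset.sum_eq_zero fun c _ => by simp

/-- Nonzero invariants with `k` point insertions. -/
theorem spectral_pow (b : ι → ℕ) (hb : ∀ γ, ∀ β < b γ, ∀ ε, X.N β X.pt γ ε = 0) {K : Type*}
    [Field K] [DecidableEq K] [IsAlgClosed K] (ev : X.Coeff →+* K)
    (hev : ∀ s, ev s = 0 → ∀ β, cf β s = 0) (x : ι → K) (k : ℕ) (hk : 0 < k)
    (h : ∑ μ ∈ (X.opAt ev x).charpoly.roots.toFinset,
      (k - 1) * (X.opAt ev x).charpoly.rootMultiplicity μ / k < finrank ℚ (X.sweptIdeal b)) :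
    ∃ a, X.fixedDomain 0 (a :: List.replicate k X.pt) ≠ 0 := by
  rw [exists_fixedDomain_zero_iff]
  intro h0
  have := X.finrank_le_sum_frac b hb ev hev k hk (X.pow_map_zero ev k h0) x
  omega

/-- The case `k = 2`. -/
theorem spectral (b : ι → ℕ) (hb : ∀ γ, ∀ β < b γ, ∀ ε, X.N β X.pt γ ε = 0) {K : Type*} [Field K]
    [DecidableEq K] [IsAlgClosed K] (ev : X.Coeff →+* K)
    (hev : ∀ s, ev s = 0 → ∀ β, cf β s = 0) (x : ι → K)
    (h : ∑ μ ∈ (X.opAt ev x).charpoly.roots.toFinset,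
      (X.opAt ev x).charpoly.rootMultiplicity μ / 2 < finrank ℚ (X.sweptIdeal b)) :
    X.TwoPoint ∧ ((∀ s, (∀ β, cf β s = 0) → ev s = 0) →
      ∃ β, 0 < β ∧ ∃ ε, X.N β X.pt X.pt ε ≠ 0) := by
  have h' : ∑ μ ∈ (X.opAt ev x).charpoly.roots.toFinset,
      (2 - 1) * (X.opAt ev x).charpoly.rootMultiplicity μ / 2 < finrank ℚ (X.sweptIdeal b) := by
    simpa only [Nat.succ_sub_succ_eq_sub, tsub_zero, one_mul] using h
  constructor
  · by_contra hn
    rw [X.twoPoint_iff, not_not] at hn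
    have := X.finrank_le_sum_frac b hb ev hev 2 (by omega) (X.pow_map_zero ev 2 hn) x
    omega
  · intro hs
    by_contra hn
    have h0 : ∀ β, 0 < β → ∀ ε, X.N β X.pt X.pt ε = 0 := by
      intro β hβ ε
      by_contra hne
      exact hn ⟨β, hβ, ε, hne⟩
    have h1 : (X.L (X.e X.pt)).map ev ^ 2 = 0 := by
      rw [sq, sq_map]
      exact X.sq_zero_small h0 ev hs
    have := X.finrank_le_sum_frac b hb ev hev 2 (by omega) h1 x
    omega

end GenusZero
end Pool.Agent.GWFix
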