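import Pool.Agent.GWFix.Glue

/-!
The class swept out by the curves of minimal degree through a point (helper53, MP_8133f0_ag).
-/

open scoped BigOperators Nat

namespace Pool.Agent.GWFix

variable {ι ο : Type} [Fintype ι] [DecidableEq ι] [Fintype ο] [DecidableEq ο]

/-- The coefficient of `q^β t^0`. -/
noncomputable def cf (β : ℕ) (s : MvPowerSeries (Fin 1 ⊕ ι) ℚ) : ℚ :=
  MvPowerSeries.coeff (Finsupp.single (Sum.inl 0) β) s

theorem cf_add (β : ℕ) (s t : MvPowerSeries (Fin 1 ⊕ ι) ℚ) : cf β (s + t) = cf β s + cf β t := by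
  unfold cf; rw [map_add]

theorem cf_sum {J : Type} (β : ℕ) (S : Finset J) (s : J → MvPowerSeries (Fin 1 ⊕ ι) ℚ) :
    cf β (∑ j ∈ S, s j) = ∑ j ∈ S, cf β (s j) := by
  unfold cf; rw [map_sum]

theorem cf_mul_cst (β : ℕ) (s : MvPowerSeries (Fin 1 ⊕ ι) ℚ) (x : ℚ) :
    cf β (s * cst x) = cf β s * x := by
  unfold cf; exact MvPowerSeries.coeff_mul_C _ _ _

theorem cf_mul (β : ℕ) (s t : MvPowerSeries (Fin 1 ⊕ ι) ℚ) :
    cf β (s * t) = ∑ p ∈ Finset.HasAntidiagonal.antidiagonal β, cf p.1 s * cf p.2 t := by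
  unfold cf
  classical
  rw [MvPowerSeries.coeff_mul, Finsupp.antidiagonal_single, Finset.sum_map]
  rfl

namespace GenusZero

variable (X : GenusZero (Fin 1) ι ο)

/-- The invariant `⟨e_a, e_b, e_c⟩` of degree `β`. -/
noncomputable def N (β : ℕ) (a b c : ι) : ℚ := X.inv (Finsupp.single 0 β) (three a b c)

/-- The matrix of cup product with `D`: `e_a ∪ D = Σ_f (cup D) a f • e_f`. -/
noncomputable def cup (D : ι) : Matrix ι ι ℚ :=
  Matrix.of fun a f => ∑ e, X.N 0 D a e * X.ginv e f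

/-- The class `v` whose pairing with every `γ` is `⟨pt, D, γ⟩_β`: the class of the locus swept out by
the curves of degree `β` through a point, times the degree. -/
noncomputable def swept (D : ι) (β : ℕ) : ι → ℚ := fun f => ∑ e, X.N β X.pt D e * X.ginv e f

/-- The Poincare pairing of two classes. -/
def pair (v w : ι → ℚ) : ℚ := ∑ a, ∑ c, v a * w c * X.g a c

theorem cf_phi (β : ℕ) (a b c : ι) : cf β (X.phi a b c) = X.N β a b c := by
  show series X.inv (three a b c) (Finsupp.single (Sum.inl 0) β) = _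
  unfold series N
  have h1 : (Finsupp.single (Sum.inl 0) β : (Fin 1 ⊕ ι) →₀ ℕ).comapDomain Sum.inl
      Sum.inl_injective.injOn = Finsupp.single 0 β := by
    refine Finsupp.ext fun i => ?_
    rw [Finsupp.comapDomain_apply, Subsingleton.elim i 0]
    simp
  have h2 : (Finsupp.single (Sum.inl 0) β : (Fin 1 ⊕ ι) →₀ ℕ).comapDomain Sum.inr
      Sum.inr_injective.injOn = 0 := by
    refine Finsupp.ext fun i => ?_
    rw [Finsupp.comapDomain_apply]
    simp
  have h3 : ∏ i : ι, (((Finsupp.single (Sum.inl 0) β : (Fin 1 ⊕ ι) →₀ ℕ) (Sum.inr i))! : ℚ) = 1 :=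
    Finset.prod_eq_one fun i _ => by simp
  rw [h1, h2, h3, add_zero, div_one]

theorem cf_mulMat (β : ℕ) (a b f : ι) :
    cf β (X.mulMat a b f) = ∑ e, X.N β a b e * X.ginv e f := by
  rw [mulMat_apply, cf_sum]
  exact Finset.sum_congr rfl fun e _ => by rw [cf_mul_cst, cf_phi]

theorem N_comm12 (β : ℕ) (a b c : ι) : X.N β a b c = X.N β b a c := by
  unfold N; rw [three_comm12]

theorem N_comm23 (β : ℕ) (a b c : ι) : X.N β a b c = X.N β a c b := by
  unfold N; rw [three_comm23]

/-- All coefficients of `q^β t^0`, `β < b`, vanish. -/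
def Low (b : ℕ) (z : X.QH) : Prop := ∀ β < b, ∀ f, cf β (z f) = 0

/-- The coefficients of `q^b t^0`. -/
noncomputable def lead (b : ℕ) (z : X.QH) : ι → ℚ := fun f => cf b (z f)

theorem cf_mul_e (β : ℕ) (z : X.QH) (D f : ι) :
    cf β ((z * X.e D) f) =
      ∑ a, ∑ p ∈ Finset.HasAntidiagonal.antidiagonal β, cf p.1 (z a) * cf p.2 (X.mulMat a D f) := by
  rw [mul_e_apply, L_apply, cf_sum]
  exact Finset.sum_congr rfl fun a _ => cf_mul _ _ _

theorem low_mul_e {b : ℕ} {z : X.QH} (h : X.Low b z) (D : ι) : X.Low b (z * X.e D) := by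
  intro β hβ f
  rw [cf_mul_e]
  refine Finset.sum_eq_zero fun a _ => Finset.sum_eq_zero fun p hp => ?_
  have := Finset.HasAntidiagonal.mem_antidiagonal.mp hp
  rw [h p.1 (by omega) a, zero_mul]

theorem lead_mul_e {b : ℕ} {z : X.QH} (h : X.Low b z) (D : ι) :
    X.lead b (z * X.e D) = Matrix.vecMul (X.lead b z) (X.cup D) := by
  funext f
  unfold lead
  rw [cf_mul_e]
  simp only [Matrix.vecMul, dotProduct]
  refine Finset.sum_congr rfl fun a _ => ?_
  rw [Finset.sum_eq_single (b, 0)]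
  · rw [cf_mulMat]
    congr 1
    unfold cup
    rw [Matrix.of_apply]
    exact Finset.sum_congr rfl fun e _ => by rw [X.N_comm12 0 a D e]
  · intro p hp hne
    have := Finset.HasAntidiagonal.mem_antidiagonal.mp hp
    have hlt : p.1 < b := by
      by_contra hc
      apply hne
      have h1 : p.1 = b := by omega
      have h2 : p.2 = 0 := by omega
      exact Prod.ext h1 h2
    rw [h p.1 hlt a, zero_mul]
  · intro hp
    exact absurd (Finset.HasAntidiagonal.mem_antidiagonal.mpr (by simp)) hp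

theorem cf_integral_mul {b : ℕ} {z w : X.QH} (hz : X.Low b z) (hw : X.Low b w) :
    cf (2 * b) (X.integral (z * w)) = X.pair (X.lead b z) (X.lead b w) := by
  rw [integral_mul, cf_sum]
  unfold pair
  refine Finset.sum_congr rfl fun a _ => ?_
  rw [cf_sum]
  refine Finset.sum_congr rfl fun c _ => ?_
  rw [cf_mul_cst, cf_mul]
  congr 1
  rw [Finset.sum_eq_single (b, b)]
  · rfl
  · intro p hp hne
    have := Finset.HasAntidiagonal.mem_antidiagonal.mp hp
    by_cases h1 : p.1 < b
    · rw [hz p.1 h1 a, zero_mul]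
    · by_cases h2 : p.2 < b
      · rw [hw p.2 h2 c, mul_zero]
      · exact absurd (Prod.ext (by omega : p.1 = b) (by omega : p.2 = b)) hne
  · intro hp
    exact absurd (Finset.HasAntidiagonal.mem_antidiagonal.mpr (by ring)) hp

theorem pt_mul_D_apply (D f : ι) : (X.e X.pt * X.e D) f = X.mulMat X.pt D f := by
  rw [mul_e_apply, L_e]

theorem low_sweep (γ : ι) (b : ℕ) (hmin : ∀ β < b, ∀ ε, X.N β X.pt γ ε = 0) :
    X.Low b (X.e X.pt * X.e γ) := by
  intro β hβ f
  rw [pt_mul_D_apply, cf_mulMat]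
  exact Finset.sum_eq_zero fun e _ => by rw [hmin β hβ e, zero_mul]

theorem lead_sweep (γ : ι) (b : ℕ) : X.lead b (X.e X.pt * X.e γ) = X.swept γ b := by
  funext f
  unfold lead swept
  rw [pt_mul_D_apply, cf_mulMat]

theorem low_list {b : ℕ} {z : X.QH} (h : X.Low b z) (l : List ι) :
    X.Low b (z * (l.map X.e).prod) ∧
      X.lead b (z * (l.map X.e).prod) = Matrix.vecMul (X.lead b z) (l.map X.cup).prod := by
  induction l generalizing z with
  | nil =>
    rw [List.map_nil, List.prod_nil, mul_one, List.map_nil, List.prod_nil, Matrix.vecMul_one]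
    exact ⟨h, rfl⟩
  | cons α l ih =>
    obtain ⟨h1, h2⟩ := ih (X.low_mul_e h α)
    rw [List.map_cons, List.prod_cons, ← mul_assoc, List.map_cons, List.prod_cons]
    refine ⟨h1, ?_⟩
    rw [h2, X.lead_mul_e h α, Matrix.vecMul_vecMul]

/-- A nonzero invariant `⟨pt, pt, e⟩_β` with `0 < β ≤ B`. -/
def TwoPointLe (B : ℕ) : Prop := ∃ β, 0 < β ∧ β ≤ B ∧ ∃ e, X.N β X.pt X.pt e ≠ 0

theorem TwoPointLe.twoPoint {X : GenusZero (Fin 1) ι ο} {B : ℕ} (h : X.TwoPointLe B) :
    X.TwoPoint := by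
  obtain ⟨β, h0, _, e, he⟩ := h
  refine ⟨Finsupp.single 0 β, ?_, Finsupp.single e 1, ?_⟩
  · intro h
    rw [Finsupp.single_eq_zero] at h
    omega
  · have h1 : Finsupp.single X.pt 2 + Finsupp.single e 1 = three X.pt X.pt e := by
      have : (Finsupp.single X.pt 2 : ι →₀ ℕ) = Finsupp.single X.pt 1 + Finsupp.single X.pt 1 := by
        rw [← Finsupp.single_add]
      rw [this, three]
    rw [h1]
    exact he

theorem cf_integral_low {b : ℕ} {z : X.QH} (hz : X.Low (b + 1) z) : cf b (X.integral z) = 0 := by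
  unfold integral
  rw [cf_sum]
  refine Finset.sum_eq_zero fun a _ => ?_
  rw [cf_mul_cst, hz b (Nat.lt_succ_self b) a, zero_mul]

/-- Main criterion. -/
theorem twoPoint_of_swept (γ δ : ι) (b : ℕ) (hγ : ∀ β < b, ∀ ε, X.N β X.pt γ ε = 0)
    (hδ : ∀ β < b, ∀ ε, X.N β X.pt δ ε = 0) (l : List ι)
    (hk : X.pair (Matrix.vecMul (X.swept γ b) (l.map X.cup).prod) (X.swept δ b) ≠ 0) :
    X.TwoPointLe (2 * b) := by
  by_contra hno
  apply hk
  have hz := X.low_sweep γ b hγ
  have hw := X.low_sweep δ b hδ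
  obtain ⟨h1, h2⟩ := X.low_list hz l
  rw [← X.lead_sweep γ b, ← X.lead_sweep δ b, ← h2, ← X.cf_integral_mul h1 hw]
  have h3 : X.e X.pt * X.e γ * (l.map X.e).prod * (X.e X.pt * X.e δ) =
      X.e X.pt * X.e X.pt * ((γ :: δ :: l).map X.e).prod := by
    rw [List.map_cons, List.map_cons, List.prod_cons, List.prod_cons]
    ring
  rw [h3]
  apply cf_integral_low
  have h4 : X.Low (2 * b + 1) (X.e X.pt * X.e X.pt) := by
    apply low_sweep
    intro β hβ ε
    rcases Nat.eq_zero_or_pos β with rfl | hpos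
    · have h5 : three X.pt X.pt ε = Finsupp.single X.pt 2 + Finsupp.single ε 1 := by
        have : (Finsupp.single X.pt 2 : ι →₀ ℕ) =
            Finsupp.single X.pt 1 + Finsupp.single X.pt 1 := by
          rw [← Finsupp.single_add]
        rw [this, three]
      unfold N
      rw [h5, Finsupp.single_zero, X.constant]
    · by_contra hne
      exact hno ⟨β, hpos, by omega, ε, hne⟩
  exact (X.low_list h4 _).1

end GenusZero
end Pool.Agent.GWFix
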