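import Pool.Agent.GWFix.Swept

/-!
The swept out class, graded case (helper53, MP_8133f0_ag).
-/

open scoped BigOperators Nat

namespace Pool.Agent.GWFix

variable {ι ο : Type} [Fintype ι] [DecidableEq ι] [Fintype ο] [DecidableEq ο]

namespace GenusZero

variable (X : GenusZero (Fin 1) ι ο)

theorem cup_g (D a c : ι) : ∑ f, X.cup D a f * X.g f c = X.N 0 D a c := by
  have h : ∀ c, ∑ f, X.cup D a f * X.g f c = ∑ e, X.N 0 D a e * (X.ginv * X.g) e c := by
    intro c
    simp only [cup, Matrix.of_apply, Matrix.mul_apply, Finset.sum_mul, Finset.mul_sum]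
    rw [Finset.sum_comm]
    exact Finset.sum_congr rfl fun e _ => Finset.sum_congr rfl fun f _ => by ring
  rw [h, X.ginv_mul_g]
  simp [Matrix.one_apply]

theorem swept_g (D : ι) (b : ℕ) (c : ι) : ∑ f, X.swept D b f * X.g f c = X.N b X.pt D c := by
  have h : ∑ f, X.swept D b f * X.g f c = ∑ e, X.N b X.pt D e * (X.ginv * X.g) e c := by
    simp only [swept, Matrix.mul_apply, Finset.sum_mul, Finset.mul_sum]
    rw [Finset.sum_comm]
    exact Finset.sum_congr rfl fun e _ => Finset.sum_congr rfl fun f _ => by ring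
  rw [h, X.ginv_mul_g]
  simp [Matrix.one_apply]

/-- Cup product with `D` is self-adjoint. -/
theorem pair_cup (D : ι) (v w : ι → ℚ) :
    X.pair (Matrix.vecMul v (X.cup D)) w = X.pair v (Matrix.vecMul w (X.cup D)) := by
  have h1 : X.pair (Matrix.vecMul v (X.cup D)) w = ∑ a, ∑ c, v a * w c * X.N 0 D a c := by
    unfold pair
    simp only [Matrix.vecMul, dotProduct, Finset.sum_mul]
    calc ∑ f, ∑ c, ∑ a, v a * X.cup D a f * w c * X.g f c
        = ∑ a, ∑ c, ∑ f, v a * X.cup D a f * w c * X.g f c := by
          rw [Finset.sum_comm]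
          rw [Finset.sum_congr rfl fun c _ => Finset.sum_comm]
          rw [Finset.sum_comm]
      _ = ∑ a, ∑ c, v a * w c * X.N 0 D a c := by
          refine Finset.sum_congr rfl fun a _ => Finset.sum_congr rfl fun c _ => ?_
          rw [← X.cup_g D a c, Finset.mul_sum]
          exact Finset.sum_congr rfl fun f _ => by ring
  have h2 : X.pair v (Matrix.vecMul w (X.cup D)) = ∑ a, ∑ c, v a * w c * X.N 0 D a c := by
    unfold pair
    simp only [Matrix.vecMul, dotProduct, Finset.mul_sum, Finset.sum_mul]
    refine Finset.sum_congr rfl fun a _ => ?_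
    rw [Finset.sum_comm]
    refine Finset.sum_congr rfl fun c _ => ?_
    rw [X.N_comm23 0 D a c, ← X.cup_g D c a, Finset.mul_sum]
    exact Finset.sum_congr rfl fun f _ => by rw [X.g_symm a f]; ring
  rw [h1, h2]

theorem pair_cup_pow (D : ι) (k : ℕ) (v w : ι → ℚ) :
    X.pair (Matrix.vecMul v (X.cup D ^ k)) w = X.pair v (Matrix.vecMul w (X.cup D ^ k)) := by
  induction k generalizing v w with
  | zero => simp
  | succ k ih =>
    rw [pow_succ, ← Matrix.vecMul_vecMul, pair_cup, ih, Matrix.vecMul_vecMul, ← pow_succ',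
      pow_succ]

theorem pair_smul (x y : ℚ) (v w : ι → ℚ) : X.pair (x • v) (y • w) = x * y * X.pair v w := by
  unfold pair
  simp only [Pi.smul_apply, smul_eq_mul, Finset.mul_sum]
  exact Finset.sum_congr rfl fun a _ => Finset.sum_congr rfl fun c _ => by ring

/-- The class `D^j`. -/
noncomputable def power (D : ι) (j : ℕ) : ι → ℚ :=
  Matrix.vecMul (Pi.single X.one 1) (X.cup D ^ j)

/-- Q1 for varieties with one class in the degree of the swept out class. -/
theorem twoPoint_of_graded (D : ι) (b n c : ℕ) (dg : ι → ℕ)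
    (hone : dg X.one = 0)
    (hg : ∀ a a', X.ginv a a' ≠ 0 → dg a + dg a' = n)
    (hcup : ∀ a e, X.N 0 D a e ≠ 0 → 1 + dg a + dg e = n)
    (hdim : ∀ e, X.N b X.pt D e ≠ 0 → n + 1 + dg e = n + c)
    (htop : X.pair (X.power D n) (Pi.single X.one 1) ≠ 0)
    (hc : n + 2 ≤ 2 * c) (hcn : c ≤ n + 1)
    (hj : ∀ i i', dg i = n + 1 - c → dg i' = n + 1 - c → i = i')
    (hmin : ∀ β < b, ∀ γ, X.N β X.pt D γ = 0)
    (hex : ∃ e, X.N b X.pt D e ≠ 0) : X.TwoPointLe (2 * b) := by
  have hpow : ∀ j f, X.power D j f ≠ 0 → dg f = j := by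
    intro j
    induction j with
    | zero =>
      intro f hf
      unfold power at hf
      rw [pow_zero, Matrix.vecMul_one] at hf
      by_cases h : f = X.one
      · rw [h, hone]
      · exact absurd (Pi.single_eq_of_ne h _) hf
    | succ j ih =>
      intro f hf
      unfold power at hf
      rw [pow_succ, ← Matrix.vecMul_vecMul] at hf
      simp only [Matrix.vecMul, dotProduct] at hf
      obtain ⟨a, _, ha⟩ := Finset.exists_ne_zero_of_sum_ne_zero hf
      have h1 : dg a = j := ih a (left_ne_zero_of_mul ha)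
      have h2 := right_ne_zero_of_mul ha
      unfold cup at h2
      rw [Matrix.of_apply] at h2
      obtain ⟨e, _, he⟩ := Finset.exists_ne_zero_of_sum_ne_zero h2
      have h3 := hcup a e (left_ne_zero_of_mul he)
      have h4 := hg e f (right_ne_zero_of_mul he)
      omega
  have hv : ∀ f, X.swept D b f ≠ 0 → dg f = n + 1 - c := by
    intro f hf
    unfold swept at hf
    obtain ⟨e, _, he⟩ := Finset.exists_ne_zero_of_sum_ne_zero hf
    have h3 := hdim e (left_ne_zero_of_mul he)
    have h4 := hg e f (right_ne_zero_of_mul he)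
    omega
  -- the swept class is not zero
  obtain ⟨e0, he0⟩ := hex
  rw [← X.swept_g D b e0] at he0
  obtain ⟨i1, _, hi1⟩ := Finset.exists_ne_zero_of_sum_ne_zero he0
  have hv1 : X.swept D b i1 ≠ 0 := left_ne_zero_of_mul hi1
  have hd1 := hv i1 hv1
  set j := n + 1 - c with hjdef
  set k := 2 * c - n - 2 with hkdef
  -- D^j is not zero
  have htop' : X.pair (Matrix.vecMul (X.power D j) (X.cup D ^ k)) (X.power D j) ≠ 0 := by
    have h1 : X.pair (X.power D n) (Pi.single X.one 1) =
        X.pair (Matrix.vecMul (X.power D j) (X.cup D ^ k)) (X.power D j) := by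
      have h2 : X.power D n = Matrix.vecMul (Matrix.vecMul (X.power D j) (X.cup D ^ k))
          (X.cup D ^ j) := by
        unfold power
        rw [Matrix.vecMul_vecMul, Matrix.vecMul_vecMul, ← pow_add, ← pow_add]
        congr 2
        omega
      rw [h2, pair_cup_pow]
      rfl
    rw [← h1]
    exact htop
  obtain ⟨i2, hi2⟩ : ∃ i, X.power D j i ≠ 0 := by
    by_contra hcon
    push Not at hcon
    apply htop'
    have : X.power D j = 0 := funext hcon
    unfold pair
    exact Finset.sum_eq_zero fun a _ => Finset.sum_eq_zero fun e _ => by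
      rw [this]; simp
  have hd2 := hpow j i2 hi2
  have h12 : i1 = i2 := hj i1 i2 hd1 hd2
  subst h12
  -- proportionality
  have hprop : X.swept D b = (X.swept D b i1 / X.power D j i1) • X.power D j := by
    funext f
    rw [Pi.smul_apply, smul_eq_mul]
    by_cases hf : dg f = j
    · have : f = i1 := hj f i1 hf hd1
      subst this
      rw [div_mul_cancel₀ _ hi2]
    · have h3 : X.swept D b f = 0 := by
        by_contra h; exact hf (hv f h)
      have h4 : X.power D j f = 0 := by
        by_contra h; exact hf (hpow j f h)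
      rw [h3, h4, mul_zero]
  apply X.twoPoint_of_swept D D b hmin hmin (List.replicate k D)
  rw [List.map_replicate, List.prod_replicate, hprop, Matrix.smul_vecMul, pair_smul]
  have hne : X.swept D b i1 / X.power D j i1 ≠ 0 := div_ne_zero hv1 hi2
  exact mul_ne_zero (mul_ne_zero hne hne) htop'

end GenusZero
end Pool.Agent.GWFix
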